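import Pool.Agent.Helper1.IM.NSt

/-!
# Project IM: the quotient monoid of the words modulo a congruence (for equational reasoning)
-/

set_option autoImplicit false

namespace Helper2.IMQ

open Helper1.IM

/-- the congruence on the free monoid -/
def cn (θ : FIC) : Con (FreeMonoid Lt) where
  r u v := θ.r (FreeMonoid.toList u) (FreeMonoid.toList v)
  iseqv := ⟨fun _ => θ.refl' _, fun h => θ.symm' h, fun h h' => θ.trans' h h'⟩
  mul' := by
    intro w x y z h h'
    exact θ.mul2 h h'

/-- the quotient monoid -/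
abbrev QuH2 (θ : FIC) : Type := (cn θ).Quotient

/-- the class of a word -/
def qc (θ : FIC) (w : Wd) : QuH2 θ := ((FreeMonoid.ofList w : FreeMonoid Lt) : (cn θ).Quotient)

theorem qc_eq {θ : FIC} {u v : Wd} : qc θ u = qc θ v ↔ θ.r u v := Con.eq (cn θ)

theorem qc_append (θ : FIC) (u v : Wd) : qc θ (u ++ v) = qc θ u * qc θ v := rfl

theorem qc_nil (θ : FIC) : qc θ [] = 1 := rfl

theorem qc_cons (θ : FIC) (a : Lt) (u : Wd) : qc θ (a :: u) = qc θ [a] * qc θ u := rfl

theorem qc_pw (θ : FIC) (w : Wd) (k : ℕ) : qc θ (pw w k) = qc θ w ^ k := by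
  induction k with
  | zero => simp [qc_nil]
  | succ k ih => rw [pw_succ, qc_append, ih, pow_succ']

end Helper2.IMQ
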