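import Pool.Agent.Helper2.MeanValue

namespace Pool.Agent.Helper2

open Finset ArithmeticFunction
open scoped BigOperators ComplexConjugate

theorem hi_mob_zet_eq_zero (U r : ℕ) (hr : r ≤ U) : (hi mob U * zet) r = 0 := by
  rw [ArithmeticFunction.mul_apply]
  refine Finset.sum_eq_zero fun x hx => ?_
  obtain ⟨h1, h2⟩ := Nat.mem_divisorsAntidiagonal.1 hx
  have h3 : x.1 ≤ r := Nat.le_of_dvd (Nat.pos_of_ne_zero h2) ⟨x.2, h1.symm⟩
  rw [hi_apply, if_pos (h3.trans hr), zero_mul]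

theorem abs_hi_mob_zet_le (U r : ℕ) : |(hi mob U * zet) r| ≤ ((#r.divisors : ℕ) : ℝ) := by
  rw [ArithmeticFunction.mul_apply]
  have hc : #r.divisorsAntidiagonal = #r.divisors := by
    rw [← Nat.map_div_right_divisors, card_map]
  calc |∑ x ∈ r.divisorsAntidiagonal, hi mob U x.1 * zet x.2|
      ≤ ∑ x ∈ r.divisorsAntidiagonal, |hi mob U x.1 * zet x.2| := Finset.abs_sum_le_sum_abs _ _
    _ ≤ ∑ x ∈ r.divisorsAntidiagonal, (1 : ℝ) := by
        refine Finset.sum_le_sum fun x hx => ?_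
        obtain ⟨h1, h2⟩ := Nat.mem_divisorsAntidiagonal.1 hx
        have hx2 : 0 < x.2 := Nat.pos_of_ne_zero (by rintro h; rw [h, mul_zero] at h1; omega)
        rw [zet_apply hx2, mul_one, hi_apply]
        split_ifs
        · simp
        · exact abs_mob_le _
    _ = ((#r.divisors : ℕ) : ℝ) := by rw [Finset.sum_const, nsmul_eq_mul, mul_one, hc]

theorem hi_vonMangoldt_sq_le (U M N : ℕ) (hM : M ≤ N) :
    ∑ m ∈ Ioc 0 M, ‖((hi vonMangoldt U m : ℝ) : ℂ)‖ ^ 2 ≤ Real.log N ^ 2 * M := by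
  calc ∑ m ∈ Ioc 0 M, ‖((hi vonMangoldt U m : ℝ) : ℂ)‖ ^ 2 ≤ ∑ m ∈ Ioc 0 M, Real.log N ^ 2 := by
        refine Finset.sum_le_sum fun m hm => ?_
        have hm1 := (mem_Ioc.1 hm).1
        have hm2 := (mem_Ioc.1 hm).2
        rw [Complex.norm_real, hi_apply]
        split_ifs
        · simp; positivity
        · rw [Real.norm_of_nonneg vonMangoldt_nonneg]
          refine pow_le_pow_left₀ vonMangoldt_nonneg ?_ 2
          refine vonMangoldt_le_log.trans (Real.log_le_log (by exact_mod_cast hm1) ?_)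
          exact_mod_cast hm2.trans hM
    _ = Real.log N ^ 2 * M := by
        rw [Finset.sum_const, nsmul_eq_mul, Nat.card_Ioc, Nat.sub_zero]; ring

theorem hi_mob_zet_sq_le (U M N : ℕ) (hM : M ≤ N) :
    ∑ m ∈ Ioc 0 M, ‖(((hi mob U * zet) m : ℝ) : ℂ)‖ ^ 2 ≤ (1 + Real.log N) ^ 3 * M := by
  rcases Nat.eq_zero_or_pos M with rfl | hM0
  · simp
  calc ∑ m ∈ Ioc 0 M, ‖(((hi mob U * zet) m : ℝ) : ℂ)‖ ^ 2
      ≤ ∑ m ∈ Ioc 0 M, ((#m.divisors : ℕ) : ℝ) ^ 2 := by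
        refine Finset.sum_le_sum fun m _ => ?_
        rw [Complex.norm_real, Real.norm_eq_abs]
        exact pow_le_pow_left₀ (abs_nonneg _) (abs_hi_mob_zet_le U m) 2
    _ ≤ M * (1 + Real.log M) ^ 3 := sum_tau_sq_le M
    _ ≤ M * (1 + Real.log N) ^ 3 := by
        refine mul_le_mul_of_nonneg_left ?_ (Nat.cast_nonneg M)
        have h1 : 0 ≤ Real.log M := Real.log_natCast_nonneg M
        have h2 : Real.log M ≤ Real.log N :=
          Real.log_le_log (by exact_mod_cast hM0) (by exact_mod_cast hM)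
        exact pow_le_pow_left₀ (by linarith) (by linarith) 3
    _ = (1 + Real.log N) ^ 3 * M := by ring

/-- mean value theorem for smoothed twisted prime sums over a family of almost orthogonal
completely multiplicative functions -/
theorem mean_value {ι : Type*} [DecidableEq ι] (s : Finset ι) (c : ι → ℕ → ℂ) (F N : ℕ)
    (hF1 : 1 ≤ F) (hFN : F ^ 12 ≤ N) (hs : #s ≤ F ^ 2)
    (c1 : ∀ i ∈ s, ∀ n, ‖c i n‖ ≤ 1) (c2 : ∀ i ∈ s, ∀ m n, c i (m * n) = c i m * c i n)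
    (hF : ∀ i ∈ s, ∀ k, ‖∑ n ∈ Ioc 0 k, c i n‖ ≤ F)
    (hFF : ∀ i ∈ s, ∀ j ∈ s, i ≠ j → ∀ M, ‖∑ n ∈ Ioc 0 M, c i n * conj (c j n)‖ ≤ (F : ℝ) ^ 2) :
    ∑ i ∈ s, ‖smoothSum N (c i)‖ ≤ 6 * N * (1 + Real.log N) ^ 4 := by
  have hN : 1 ≤ N := le_trans (Nat.one_le_pow _ _ hF1) hFN
  have hlogN : 0 ≤ Real.log N := Real.log_natCast_nonneg N
  have hFr : (1 : ℝ) ≤ F := by exact_mod_cast hF1
  have hNr : (1 : ℝ) ≤ N := by exact_mod_cast hN
  have hFN' : (F : ℝ) ^ 12 ≤ N := by exact_mod_cast hFN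
  set U : ℕ := F ^ 4 with hU
  have hs' : (#s : ℝ) ≤ (F : ℝ) ^ 2 := by exact_mod_cast hs
  have h1 : ∑ i ∈ s, ‖smoothSum N (c i)‖ ≤ ∑ i ∈ s,
      ((((U : ℝ) + 2 * U * F + (U : ℝ) ^ 2 * F) * Real.log N ^ 2) + ‖typeTwo N U (c i)‖) :=
    Finset.sum_le_sum fun i hi => smoothSum_decomp N U hN (c i) (c1 i hi) (c2 i hi) F hFr (hF i hi)
  rw [Finset.sum_add_distrib, Finset.sum_const, nsmul_eq_mul] at h1
  have h2 : ∑ i ∈ s, ‖typeTwo N U (c i)‖ ≤
      2 * N * Real.sqrt (Real.log N ^ 2 * (1 + Real.log N) ^ 3) * Real.log N := by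
    unfold typeTwo
    refine bilinear_bound s c ((F : ℝ) ^ 2) (by positivity) c1 hFF (U : ℝ) ?_
      (fun m => ((hi vonMangoldt U m : ℝ) : ℂ)) (fun r => (((hi mob U * zet) r : ℝ) : ℂ)) ?_ ?_
      (Real.log N ^ 2) ((1 + Real.log N) ^ 3) (by positivity) (by positivity) N hN ?_ ?_
    · rw [hU]; push_cast
      calc (F : ℝ) ^ 2 * (#s : ℝ) ≤ (F : ℝ) ^ 2 * (F : ℝ) ^ 2 :=
            mul_le_mul_of_nonneg_left hs' (by positivity)
        _ = (F : ℝ) ^ 4 := by ring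
    · intro m hm
      have hm' : m ≤ U := by exact_mod_cast hm
      simp [hi_apply, hm']
    · intro m hm
      have hm' : m ≤ U := by exact_mod_cast hm
      rw [hi_mob_zet_eq_zero U m hm']
      simp
    · intro M hM
      exact hi_vonMangoldt_sq_le U M N hM
    · intro M hM
      exact hi_mob_zet_sq_le U M N hM
  have h3 : Real.sqrt (Real.log N ^ 2 * (1 + Real.log N) ^ 3) ≤ (1 + Real.log N) ^ 3 := by
    rw [Real.sqrt_le_left (by positivity)]
    have a1 : Real.log N ^ 2 ≤ (1 + Real.log N) ^ 2 := pow_le_pow_left₀ hlogN (by linarith) 2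
    have a2 : (1 + Real.log N) ^ 2 ≤ (1 + Real.log N) ^ 3 :=
      pow_le_pow_right₀ (by linarith) (by norm_num)
    calc Real.log N ^ 2 * (1 + Real.log N) ^ 3 ≤ (1 + Real.log N) ^ 3 * (1 + Real.log N) ^ 3 :=
          mul_le_mul_of_nonneg_right (a1.trans a2) (by positivity)
      _ = ((1 + Real.log N) ^ 3) ^ 2 := by ring
  have h4 : 2 * N * Real.sqrt (Real.log N ^ 2 * (1 + Real.log N) ^ 3) * Real.log N ≤
      2 * N * (1 + Real.log N) ^ 4 := by
    calc 2 * N * Real.sqrt (Real.log N ^ 2 * (1 + Real.log N) ^ 3) * Real.log N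
        ≤ 2 * N * (1 + Real.log N) ^ 3 * (1 + Real.log N) := by
          refine mul_le_mul (mul_le_mul_of_nonneg_left h3 (by positivity)) (by linarith) hlogN
            (by positivity)
      _ = 2 * N * (1 + Real.log N) ^ 4 := by ring
  have h5 : (#s : ℝ) * (((U : ℝ) + 2 * U * F + (U : ℝ) ^ 2 * F) * Real.log N ^ 2) ≤
      4 * N * (1 + Real.log N) ^ 4 := by
    have a1 : ((U : ℝ) + 2 * U * F + (U : ℝ) ^ 2 * F) ≤ 4 * (F : ℝ) ^ 9 := by
      rw [hU]; push_cast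
      have b1 : (F : ℝ) ^ 4 ≤ (F : ℝ) ^ 9 := pow_le_pow_right₀ hFr (by norm_num)
      have b2 : (F : ℝ) ^ 4 * F ≤ (F : ℝ) ^ 9 := by
        calc (F : ℝ) ^ 4 * F = (F : ℝ) ^ 5 := by ring
          _ ≤ (F : ℝ) ^ 9 := pow_le_pow_right₀ hFr (by norm_num)
      have b3 : ((F : ℝ) ^ 4) ^ 2 * F = (F : ℝ) ^ 9 := by ring
      nlinarith
    have a2 : Real.log N ^ 2 ≤ (1 + Real.log N) ^ 4 := by
      calc Real.log N ^ 2 ≤ (1 + Real.log N) ^ 2 := pow_le_pow_left₀ hlogN (by linarith) 2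
        _ ≤ (1 + Real.log N) ^ 4 := pow_le_pow_right₀ (by linarith) (by norm_num)
    have a3 : (F : ℝ) ^ 11 ≤ N := (pow_le_pow_right₀ hFr (by norm_num)).trans hFN'
    calc (#s : ℝ) * (((U : ℝ) + 2 * U * F + (U : ℝ) ^ 2 * F) * Real.log N ^ 2)
        ≤ (F : ℝ) ^ 2 * ((4 * (F : ℝ) ^ 9) * (1 + Real.log N) ^ 4) := by
          refine mul_le_mul hs' (mul_le_mul a1 a2 (by positivity) (by positivity)) (by positivity)
            (by positivity)
      _ = 4 * (F : ℝ) ^ 11 * (1 + Real.log N) ^ 4 := by ring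
      _ ≤ 4 * N * (1 + Real.log N) ^ 4 := by
          refine mul_le_mul_of_nonneg_right ?_ (by positivity)
          linarith
  calc ∑ i ∈ s, ‖smoothSum N (c i)‖ ≤ _ := h1
    _ ≤ 4 * N * (1 + Real.log N) ^ 4 + 2 * N * (1 + Real.log N) ^ 4 :=
        add_le_add h5 (h2.trans h4)
    _ = 6 * N * (1 + Real.log N) ^ 4 := by ring

end Pool.Agent.Helper2
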