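import Pool.Agent.Helper2.MeanValueFamily

namespace Pool.Agent.Helper2

open Finset
open scoped BigOperators ComplexConjugate

theorem sum_range_char {q : ℕ} [NeZero q] (χ : DirichletCharacter ℂ q) (hχ : χ ≠ 1) :
    ∑ n ∈ range q, χ (n : ZMod q) = 0 := by
  have h := MulChar.sum_eq_zero_of_ne_one hχ
  rw [← h]
  refine Finset.sum_bij' (fun n _ => (n : ZMod q)) (fun a _ => a.val) ?_ ?_ ?_ ?_ ?_
  · intro n _; exact mem_univ _
  · intro a _; exact mem_range.2 (ZMod.val_lt a)
  · intro n hn; exact ZMod.val_cast_of_lt (mem_range.1 hn)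
  · intro a _; exact ZMod.natCast_zmod_val a
  · intro n _; rfl

theorem sum_Ioc_char_period {q : ℕ} [NeZero q] (χ : DirichletCharacter ℂ q) (hχ : χ ≠ 1) (k : ℕ) :
    ∑ n ∈ Ioc 0 (k + q), χ (n : ZMod q) = ∑ n ∈ Ioc 0 k, χ (n : ZMod q) := by
  induction k with
  | zero =>
    rw [zero_add, Finset.Ioc_self, Finset.sum_empty]
    have h := sum_range_char χ hχ
    have e1 : ∑ n ∈ range (q + 1), χ (n : ZMod q) = ∑ n ∈ range q, χ (n : ZMod q) +
        χ ((q : ℕ) : ZMod q) := Finset.sum_range_succ _ _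
    have e2 : ∑ n ∈ range (q + 1), χ (n : ZMod q) = ∑ n ∈ Ioc 0 q, χ (n : ZMod q) +
        χ ((0 : ℕ) : ZMod q) := by
      rw [Finset.sum_range_succ']
      congr 1
      refine Finset.sum_bij' (fun n _ => n + 1) (fun n _ => n - 1) ?_ ?_ ?_ ?_ ?_
      · intro n hn; rw [mem_range] at hn; rw [mem_Ioc]; omega
      · intro n hn; rw [mem_Ioc] at hn; rw [mem_range]; omega
      · intro n _; simp
      · intro n hn
        rw [mem_Ioc] at hn
        exact Nat.sub_add_cancel hn.1
      · intro n _; rfl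
    rw [h, e2] at e1
    simpa using e1
  | succ k ih =>
    have e : k + 1 + q = (k + q) + 1 := by ring
    rw [e, Finset.sum_Ioc_succ_top (by omega), Finset.sum_Ioc_succ_top (by omega), ih]
    congr 2
    push_cast
    simp

theorem norm_sum_char_le {q : ℕ} [NeZero q] (χ : DirichletCharacter ℂ q) (hχ : χ ≠ 1) (k : ℕ) :
    ‖∑ n ∈ Ioc 0 k, χ (n : ZMod q)‖ ≤ q := by
  induction k using Nat.strong_induction_on with
  | _ k ih =>
    rcases lt_or_ge k q with h | h
    · calc ‖∑ n ∈ Ioc 0 k, χ (n : ZMod q)‖ ≤ ∑ n ∈ Ioc 0 k, ‖χ (n : ZMod q)‖ := norm_sum_le _ _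
        _ ≤ ∑ n ∈ Ioc 0 k, (1 : ℝ) := Finset.sum_le_sum fun n _ => χ.norm_le_one _
        _ = k := by simp
        _ ≤ q := by exact_mod_cast h.le
    · have hq : 0 < q := Nat.pos_of_ne_zero (NeZero.ne q)
      have e : k = (k - q) + q := by omega
      rw [e, sum_Ioc_char_period χ hχ]
      exact ih (k - q) (by omega)

/-- the function on naturals attached to a Dirichlet character -/
noncomputable def chFun {q : ℕ} (χ : DirichletCharacter ℂ q) : ℕ → ℂ := fun n => χ (n : ZMod q)

/-- the function on naturals attached to the primitive character inducing `χ` -/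
noncomputable def prFun {q : ℕ} (χ : DirichletCharacter ℂ q) : ℕ → ℂ := chFun χ.primitiveCharacter

theorem chFun_mul {q : ℕ} (χ : DirichletCharacter ℂ q) (m n : ℕ) :
    chFun χ (m * n) = chFun χ m * chFun χ n := by
  simp [chFun]

theorem norm_chFun_le {q : ℕ} (χ : DirichletCharacter ℂ q) (n : ℕ) : ‖chFun χ n‖ ≤ 1 :=
  χ.norm_le_one _

theorem chFun_eq_zero_iff {q : ℕ} (χ : DirichletCharacter ℂ q) (n : ℕ) :
    chFun χ n = 0 ↔ ¬ n.Coprime q := by
  have h := DirichletCharacter.apply_eq_zero_iff χ (n : ℤ)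
  rw [Nat.isCoprime_iff_coprime] at h
  simpa [chFun] using h

theorem chFun_changeLevel {q m : ℕ} (χ : DirichletCharacter ℂ q) (hm : q ∣ m) (n : ℕ)
    (hn : n.Coprime m) : chFun (DirichletCharacter.changeLevel hm χ) n = chFun χ n := by
  have h := DirichletCharacter.changeLevel_eq_cast_of_dvd' χ hm (a := (n : ℤ))
    (Nat.isCoprime_iff_coprime.2 hn)
  simpa [chFun] using h

theorem prFun_eq_chFun {q : ℕ} (χ : DirichletCharacter ℂ q) (n : ℕ) (hn : n.Coprime q) :
    prFun χ n = chFun χ n := by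
  have h := DirichletCharacter.primitiveCharacter_apply_of_isCoprime χ (a := (n : ℤ))
    (Nat.isCoprime_iff_coprime.2 hn)
  simpa [prFun, chFun] using h

theorem conductor_ne_one {q : ℕ} [NeZero q] (χ : DirichletCharacter ℂ q) (hχ : χ ≠ 1) :
    χ.conductor ≠ 1 := fun h => hχ (DirichletCharacter.eq_one_iff_conductor_eq_one.2 h)

theorem primitive_ne_one {q : ℕ} [NeZero q] (χ : DirichletCharacter ℂ q) (hχ : χ ≠ 1) :
    χ.primitiveCharacter ≠ 1 := by
  intro h
  apply hχ
  rw [← DirichletCharacter.changeLevel_primitiveCharacter χ, h, map_one]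

theorem norm_sum_prFun_le {q : ℕ} [NeZero q] (χ : DirichletCharacter ℂ q) (hχ : χ ≠ 1) (k : ℕ) :
    ‖∑ n ∈ Ioc 0 k, prFun χ n‖ ≤ q := by
  have : NeZero χ.conductor := ⟨DirichletCharacter.conductor_ne_zero χ⟩
  refine (norm_sum_char_le χ.primitiveCharacter (primitive_ne_one χ hχ) k).trans ?_
  exact_mod_cast Nat.le_of_dvd (Nat.pos_of_ne_zero (NeZero.ne q)) χ.conductor_dvd_level

theorem prFun_injective {q : ℕ} [NeZero q] :
    Function.Injective (prFun : DirichletCharacter ℂ q → ℕ → ℂ) := by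
  intro χ ψ h
  apply MulChar.ext
  intro a
  have hc : (a : ZMod q).val.Coprime q := ZMod.val_coe_unit_coprime a
  have h1 := congrFun h (a : ZMod q).val
  rw [prFun_eq_chFun χ _ hc, prFun_eq_chFun ψ _ hc] at h1
  simpa [chFun] using h1

/-- correlations of distinct primitive functions -/
theorem norm_sum_prFun_conj_le {q r : ℕ} [NeZero q] [NeZero r] (χ : DirichletCharacter ℂ q)
    (ψ : DirichletCharacter ℂ r) (hne : prFun χ ≠ prFun ψ) (M : ℕ) :
    ‖∑ n ∈ Ioc 0 M, prFun χ n * conj (prFun ψ n)‖ ≤ (q : ℝ) * r := by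
  have hq0 : 0 < q := Nat.pos_of_ne_zero (NeZero.ne q)
  have hr0 : 0 < r := Nat.pos_of_ne_zero (NeZero.ne r)
  set f := χ.conductor with hf
  set g := ψ.conductor with hg
  have : NeZero f := ⟨DirichletCharacter.conductor_ne_zero χ⟩
  have : NeZero g := ⟨DirichletCharacter.conductor_ne_zero ψ⟩
  have : NeZero (f * g) := ⟨Nat.mul_ne_zero (NeZero.ne f) (NeZero.ne g)⟩
  have : NeZero (q * r) := ⟨Nat.mul_ne_zero (NeZero.ne q) (NeZero.ne r)⟩
  set X := DirichletCharacter.changeLevel (Dvd.intro g rfl : f ∣ f * g) χ.primitiveCharacter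
    with hX
  set Y := DirichletCharacter.changeLevel (Dvd.intro_left f rfl : g ∣ f * g) ψ.primitiveCharacter
    with hY
  have hXY : X * Y⁻¹ ≠ 1 := by
    intro h
    have h1 : X = Y := by rwa [mul_inv_eq_one] at h
    apply hne
    have hfq : f * g ∣ q * r := Nat.mul_dvd_mul χ.conductor_dvd_level ψ.conductor_dvd_level
    have h2 : DirichletCharacter.changeLevel (Dvd.intro r rfl : q ∣ q * r) χ =
        DirichletCharacter.changeLevel (Dvd.intro_left q rfl : r ∣ q * r) ψ := by
      have e1 : DirichletCharacter.changeLevel hfq X =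
          DirichletCharacter.changeLevel (Dvd.intro r rfl : q ∣ q * r) χ := by
        rw [hX, ← DirichletCharacter.changeLevel_trans]
        conv_rhs => rw [← DirichletCharacter.changeLevel_primitiveCharacter χ]
        rw [← DirichletCharacter.changeLevel_trans]
      have e2 : DirichletCharacter.changeLevel hfq Y =
          DirichletCharacter.changeLevel (Dvd.intro_left q rfl : r ∣ q * r) ψ := by
        rw [hY, ← DirichletCharacter.changeLevel_trans]
        conv_rhs => rw [← DirichletCharacter.changeLevel_primitiveCharacter ψ]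
        rw [← DirichletCharacter.changeLevel_trans]
      rw [← e1, ← e2, h1]
    funext n
    have e3 := DirichletCharacter.primitiveCharacter_changeLevel_apply
      (Dvd.intro r rfl : q ∣ q * r) χ (n : ℤ)
    have e4 := DirichletCharacter.primitiveCharacter_changeLevel_apply
      (Dvd.intro_left q rfl : r ∣ q * r) ψ (n : ℤ)
    rw [h2, e4] at e3
    have : χ.primitiveCharacter ((n : ℤ) : ZMod χ.conductor) =
      ψ.primitiveCharacter ((n : ℤ) : ZMod ψ.conductor) := e3.symm
    simpa [prFun, chFun] using this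
  have hval : ∀ n : ℕ, prFun χ n * conj (prFun ψ n) = (X * Y⁻¹) (n : ZMod (f * g)) := by
    intro n
    by_cases hn : n.Coprime (f * g)
    · have hnf : n.Coprime f := Nat.Coprime.coprime_mul_right_right hn
      have hng : n.Coprime g := Nat.Coprime.coprime_mul_left_right hn
      have e1 : X (n : ZMod (f * g)) = prFun χ n :=
        chFun_changeLevel χ.primitiveCharacter _ n hn
      have e2 : Y (n : ZMod (f * g)) = prFun ψ n :=
        chFun_changeLevel ψ.primitiveCharacter _ n hn
      have hu : IsUnit (n : ZMod (f * g)) := (ZMod.isUnit_iff_coprime n (f * g)).2 hn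
      rw [MulChar.mul_apply, e1, MulChar.inv_apply_eq_inv, e2]
      have h3 : ‖prFun ψ n‖ = 1 := by
        rw [← e2]
        obtain ⟨u, hu⟩ := hu
        rw [← hu]
        exact Y.unit_norm_eq_one u
      congr 1
      rw [Ring.inverse_eq_inv', Complex.inv_def, Complex.normSq_eq_norm_sq, h3]
      simp
    · have hnu : ¬ IsUnit (n : ZMod (f * g)) := fun h => hn ((ZMod.isUnit_iff_coprime n (f * g)).1 h)
      rw [MulChar.map_nonunit _ hnu]
      by_cases hnf : n.Coprime f
      · have hng : ¬ n.Coprime g := fun h => hn (Nat.Coprime.mul_right hnf h)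
        have : prFun ψ n = 0 := (chFun_eq_zero_iff _ _).2 hng
        rw [this]; simp
      · have : prFun χ n = 0 := (chFun_eq_zero_iff _ _).2 hnf
        rw [this]; simp
  simp only [hval]
  refine (norm_sum_char_le (X * Y⁻¹) hXY M).trans ?_
  have h5 : f ≤ q := Nat.le_of_dvd hq0 χ.conductor_dvd_level
  have h6 : g ≤ r := Nat.le_of_dvd hr0 ψ.conductor_dvd_level
  exact_mod_cast Nat.mul_le_mul h5 h6

end Pool.Agent.Helper2
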