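import Pool.Agent.Helper2.Characters

namespace Pool.Agent.Helper2

open Finset ArithmeticFunction
open scoped BigOperators ComplexConjugate

/-- weight -/
noncomputable def wt (N n : ℕ) : ℝ := vonMangoldt n * Real.posLog ((N : ℝ) / (n : ℝ))

theorem wt_nonneg (N n : ℕ) : 0 ≤ wt N n := mul_nonneg vonMangoldt_nonneg (posLog_nonneg' _)

/-- total weight -/
noncomputable def total (N : ℕ) : ℝ := ∑ n ∈ Ioc 0 N, wt N n

/-- weight in the class of `1` modulo `d` -/
noncomputable def wsum (N d : ℕ) : ℝ := ∑ n ∈ (Ioc 0 N).filter (fun n => n ≡ 1 [MOD d]), wt N n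

theorem smoothSum_eq (N : ℕ) (c : ℕ → ℂ) :
    smoothSum N c = ∑ n ∈ Ioc 0 N, (wt N n : ℂ) * c n := by
  unfold smoothSum wt
  refine Finset.sum_congr rfl fun n _ => ?_
  push_cast; ring

theorem sum_noncoprime_le (N d : ℕ) (hd : d ≠ 0) :
    ∑ n ∈ (Ioc 0 N).filter (fun n => ¬ n.Coprime d), vonMangoldt n ≤
      #d.primeFactors * Real.log N := by
  classical
  calc ∑ n ∈ (Ioc 0 N).filter (fun n => ¬ n.Coprime d), vonMangoldt n
      ≤ ∑ n ∈ Ioc 0 N, ∑ p ∈ d.primeFactors, (if p ∣ n then vonMangoldt n else 0) := by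
        rw [Finset.sum_filter]
        refine Finset.sum_le_sum fun n _ => ?_
        have hnn : ∀ p ∈ d.primeFactors, 0 ≤ (if p ∣ n then vonMangoldt n else 0) := by
          intro p _; split_ifs
          · exact vonMangoldt_nonneg
          · exact le_rfl
        by_cases h : n.Coprime d
        · rw [if_neg (not_not.2 h)]
          exact Finset.sum_nonneg hnn
        · rw [if_pos h]
          obtain ⟨p, hp, hpn, hpd⟩ := Nat.Prime.not_coprime_iff_dvd.1 h
          have hmem : p ∈ d.primeFactors := Nat.mem_primeFactors.2 ⟨hp, hpd, hd⟩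
          calc vonMangoldt n = (if p ∣ n then vonMangoldt n else 0) := by rw [if_pos hpn]
            _ ≤ _ := Finset.single_le_sum hnn hmem
    _ = ∑ p ∈ d.primeFactors, ∑ n ∈ (Ioc 0 N).filter (p ∣ ·), vonMangoldt n := by
        rw [Finset.sum_comm]
        refine Finset.sum_congr rfl fun p _ => ?_
        rw [Finset.sum_filter]
    _ ≤ ∑ p ∈ d.primeFactors, Real.log N := by
        refine Finset.sum_le_sum fun p hp => ?_
        have hp' := Nat.prime_of_mem_primeFactors hp
        rcases Nat.eq_zero_or_pos N with rfl | hN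
        · simp
        have h1 : ∑ n ∈ (Ioc 0 N).filter (p ∣ ·), vonMangoldt n ≤
            ∑ n ∈ (p ^ Nat.log p N).divisors, vonMangoldt n := by
          have h2 : ∑ n ∈ (Ioc 0 N).filter (p ∣ ·), vonMangoldt n =
              ∑ n ∈ ((Ioc 0 N).filter (p ∣ ·)).filter IsPrimePow, vonMangoldt n := by
            rw [Finset.sum_filter (p := IsPrimePow)]
            refine Finset.sum_congr rfl fun n _ => ?_
            split_ifs with h
            · rfl
            · exact vonMangoldt_eq_zero_iff.2 h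
          rw [h2]
          refine Finset.sum_le_sum_of_subset_of_nonneg ?_ fun _ _ _ => vonMangoldt_nonneg
          intro n hn
          rw [mem_filter, mem_filter, mem_Ioc] at hn
          obtain ⟨⟨⟨h3, h4⟩, h5⟩, h6⟩ := hn
          obtain ⟨q, k, hq, hk, rfl⟩ := (isPrimePow_nat_iff n).1 h6
          have hpq : p = q := (Nat.prime_dvd_prime_iff_eq hp' hq).1 (hp'.dvd_of_dvd_pow h5)
          subst hpq
          rw [Nat.mem_divisors]
          refine ⟨pow_dvd_pow p ?_, (pow_pos hp'.pos _).ne'⟩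
          exact Nat.le_log_of_pow_le hp'.one_lt h4
        refine h1.trans ?_
        rw [vonMangoldt_sum]
        refine Real.log_le_log (by exact_mod_cast pow_pos hp'.pos _) ?_
        exact_mod_cast Nat.pow_log_le_self p hN.ne'
    _ = #d.primeFactors * Real.log N := by rw [Finset.sum_const, nsmul_eq_mul]

theorem sum_noncoprime_wt_le (N d : ℕ) (hd : d ≠ 0) (hN : 1 ≤ N) :
    ∑ n ∈ (Ioc 0 N).filter (fun n => ¬ n.Coprime d), wt N n ≤
      #d.primeFactors * Real.log N ^ 2 := by
  have hlogN : 0 ≤ Real.log N := Real.log_natCast_nonneg N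
  calc ∑ n ∈ (Ioc 0 N).filter (fun n => ¬ n.Coprime d), wt N n
      ≤ ∑ n ∈ (Ioc 0 N).filter (fun n => ¬ n.Coprime d), vonMangoldt n * Real.log N := by
        refine Finset.sum_le_sum fun n hn => ?_
        rw [mem_filter, mem_Ioc] at hn
        exact mul_le_mul_of_nonneg_left (posLog_div_le N hN n hn.1.1) vonMangoldt_nonneg
    _ = (∑ n ∈ (Ioc 0 N).filter (fun n => ¬ n.Coprime d), vonMangoldt n) * Real.log N := by
        rw [Finset.sum_mul]
    _ ≤ (#d.primeFactors * Real.log N) * Real.log N :=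
        mul_le_mul_of_nonneg_right (sum_noncoprime_le N d hd) hlogN
    _ = #d.primeFactors * Real.log N ^ 2 := by ring

theorem norm_smoothSum_sub_le (N : ℕ) {d : ℕ} [NeZero d] (χ : DirichletCharacter ℂ d)
    (hN : 1 ≤ N) :
    ‖smoothSum N (chFun χ)‖ ≤ ‖smoothSum N (prFun χ)‖ + #d.primeFactors * Real.log N ^ 2 := by
  have h : smoothSum N (chFun χ) = smoothSum N (prFun χ) -
      ∑ n ∈ (Ioc 0 N).filter (fun n => ¬ n.Coprime d), (wt N n : ℂ) * prFun χ n := by
    rw [smoothSum_eq, smoothSum_eq, Finset.sum_filter, ← Finset.sum_sub_distrib]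
    refine Finset.sum_congr rfl fun n _ => ?_
    by_cases h : n.Coprime d
    · rw [if_neg (not_not.2 h), prFun_eq_chFun χ n h]; ring
    · rw [if_pos h, (chFun_eq_zero_iff χ n).2 h]; ring
  rw [h]
  refine (norm_sub_le _ _).trans ?_
  have h2 : ‖∑ n ∈ (Ioc 0 N).filter (fun n => ¬ n.Coprime d), (wt N n : ℂ) * prFun χ n‖ ≤
      ∑ n ∈ (Ioc 0 N).filter (fun n => ¬ n.Coprime d), wt N n := by
    refine (norm_sum_le _ _).trans (Finset.sum_le_sum fun n _ => ?_)
    rw [norm_mul, Complex.norm_real, Real.norm_of_nonneg (wt_nonneg N n)]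
    calc wt N n * ‖prFun χ n‖ ≤ wt N n * 1 :=
          mul_le_mul_of_nonneg_left (norm_chFun_le _ n) (wt_nonneg N n)
      _ = wt N n := mul_one _
  have h3 := sum_noncoprime_wt_le N d (NeZero.ne d) hN
  linarith

theorem sum_chFun {d : ℕ} [NeZero d] (n : ℕ) :
    ∑ χ : DirichletCharacter ℂ d, chFun χ n = if n ≡ 1 [MOD d] then (d.totient : ℂ) else 0 := by
  have h := DirichletCharacter.sum_characters_eq ℂ (n : ZMod d)
  have e : ((n : ZMod d) = 1) ↔ n ≡ 1 [MOD d] := by
    rw [← ZMod.natCast_eq_natCast_iff, Nat.cast_one]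
  simp only [e] at h
  exact h

theorem sum_smoothSum {d : ℕ} [NeZero d] (N : ℕ) :
    ∑ χ : DirichletCharacter ℂ d, smoothSum N (chFun χ) = ((d.totient * wsum N d : ℝ) : ℂ) := by
  simp only [smoothSum_eq]
  rw [Finset.sum_comm]
  simp only [← Finset.mul_sum, sum_chFun]
  unfold wsum
  rw [Finset.sum_filter]
  push_cast
  rw [Finset.mul_sum]
  refine Finset.sum_congr rfl fun n _ => ?_
  split_ifs
  · ring
  · simp

theorem norm_smoothSum_one_ge {d : ℕ} [NeZero d] (N : ℕ) (hN : 1 ≤ N) :
    total N - #d.primeFactors * Real.log N ^ 2 ≤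
      ‖smoothSum N (chFun (1 : DirichletCharacter ℂ d))‖ := by
  have h1 : smoothSum N (chFun (1 : DirichletCharacter ℂ d)) =
      ((∑ n ∈ (Ioc 0 N).filter (fun n => n.Coprime d), wt N n : ℝ) : ℂ) := by
    rw [smoothSum_eq, Finset.sum_filter]
    push_cast
    refine Finset.sum_congr rfl fun n _ => ?_
    split_ifs with h
    · have : chFun (1 : DirichletCharacter ℂ d) n = 1 := by
        have hu : IsUnit (n : ZMod d) := (ZMod.isUnit_iff_coprime n d).2 h
        exact MulChar.one_apply hu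
      rw [this, mul_one]
    · rw [(chFun_eq_zero_iff _ n).2 h, mul_zero]; simp
  have h2 : total N = ∑ n ∈ (Ioc 0 N).filter (fun n => n.Coprime d), wt N n +
      ∑ n ∈ (Ioc 0 N).filter (fun n => ¬ n.Coprime d), wt N n := by
    rw [Finset.sum_filter_add_sum_filter_not]; rfl
  have h3 := sum_noncoprime_wt_le N d (NeZero.ne d) hN
  rw [h1, Complex.norm_real, Real.norm_of_nonneg (Finset.sum_nonneg fun _ _ => wt_nonneg _ _)]
  linarith

/-- lower bound for one modulus -/
theorem totient_mul_wsum_ge {d : ℕ} [NeZero d] (N : ℕ) (hN : 1 ≤ N) :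
    total N - d * (#d.primeFactors * Real.log N ^ 2) -
      ∑ χ ∈ (univ : Finset (DirichletCharacter ℂ d)).filter (· ≠ 1), ‖smoothSum N (prFun χ)‖ ≤
      d.totient * wsum N d := by
  classical
  set E : ℝ := #d.primeFactors * Real.log N ^ 2 with hE
  have hE0 : 0 ≤ E := by positivity
  have hw0 : 0 ≤ wsum N d := Finset.sum_nonneg fun _ _ => wt_nonneg _ _
  have h1 : ‖((d.totient * wsum N d : ℝ) : ℂ)‖ = d.totient * wsum N d := by
    rw [Complex.norm_real, Real.norm_of_nonneg (by positivity)]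
  rw [← sum_smoothSum] at h1
  have hsplit : ∑ χ : DirichletCharacter ℂ d, smoothSum N (chFun χ) =
      smoothSum N (chFun (1 : DirichletCharacter ℂ d)) +
      ∑ χ ∈ (univ : Finset (DirichletCharacter ℂ d)).filter (· ≠ 1), smoothSum N (chFun χ) := by
    rw [← Finset.sum_filter_add_sum_filter_not univ (· = (1 : DirichletCharacter ℂ d))]
    congr 1
    rw [Finset.filter_eq']
    simp
  rw [hsplit] at h1
  rw [← h1]
  have h2 := norm_smoothSum_one_ge (d := d) N hN
  have h3 : ‖∑ χ ∈ (univ : Finset (DirichletCharacter ℂ d)).filter (· ≠ 1),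
      smoothSum N (chFun χ)‖ ≤
      ∑ χ ∈ (univ : Finset (DirichletCharacter ℂ d)).filter (· ≠ 1),
        (‖smoothSum N (prFun χ)‖ + E) :=
    (norm_sum_le _ _).trans (Finset.sum_le_sum fun χ _ => norm_smoothSum_sub_le N χ hN)
  rw [Finset.sum_add_distrib, Finset.sum_const, nsmul_eq_mul] at h3
  have hcard : (#((univ : Finset (DirichletCharacter ℂ d)).filter (· ≠ 1)) : ℝ) + 1 ≤ d := by
    have h4 : #((univ : Finset (DirichletCharacter ℂ d)).filter (· ≠ 1)) + 1 =
        #(univ : Finset (DirichletCharacter ℂ d)) := by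
      rw [Finset.filter_ne', Finset.card_erase_of_mem (mem_univ _)]
      have : 0 < #(univ : Finset (DirichletCharacter ℂ d)) := card_pos.2 ⟨1, mem_univ _⟩
      omega
    have h5 : #(univ : Finset (DirichletCharacter ℂ d)) = d.totient := by
      rw [card_univ, ← Nat.card_eq_fintype_card]
      exact DirichletCharacter.card_eq_totient_of_hasEnoughRootsOfUnity ℂ d
    have h6 : d.totient ≤ d := Nat.totient_le d
    have h7 : #((univ : Finset (DirichletCharacter ℂ d)).filter (· ≠ 1)) + 1 ≤ d := by omega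
    exact_mod_cast h7
  have h8 := norm_sub_le_norm_add (smoothSum N (chFun (1 : DirichletCharacter ℂ d)))
    (∑ χ ∈ (univ : Finset (DirichletCharacter ℂ d)).filter (· ≠ 1), smoothSum N (chFun χ))
  nlinarith [mul_le_mul_of_nonneg_right hcard hE0]

end Pool.Agent.Helper2
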