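import Pool.Agent.Helper2.LargeSieve

namespace Pool.Agent.Helper2

open Finset Complex MeasureTheory
open scoped BigOperators ComplexConjugate

theorem abel_identity (c : ℕ → ℂ) (g : ℕ → ℝ) (N : ℕ) (hN : 1 ≤ N) :
    ∑ n ∈ Ioc 0 N, c n * (g n : ℂ) = (∑ n ∈ Ioc 0 N, c n) * (g N : ℂ) +
      ∑ k ∈ Ico 1 N, (∑ n ∈ Ioc 0 k, c n) * ((g k - g (k + 1) : ℝ) : ℂ) := by
  induction N, hN using Nat.le_induction with
  | base => simp
  | succ N hN ih =>
    rw [Finset.sum_Ioc_succ_top (by omega), Finset.sum_Ico_succ_top hN, ih,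
      Finset.sum_Ioc_succ_top (by omega)]
    push_cast
    ring

/-- partial summation against a nonnegative decreasing weight -/
theorem norm_sum_antitone_le (c : ℕ → ℂ) (F : ℝ) (hF : ∀ k, ‖∑ n ∈ Ioc 0 k, c n‖ ≤ F)
    (g : ℕ → ℝ) (hg : ∀ n, 1 ≤ n → g (n + 1) ≤ g n) (hg0 : ∀ n, 1 ≤ n → 0 ≤ g n) (N : ℕ) :
    ‖∑ n ∈ Ioc 0 N, c n * (g n : ℂ)‖ ≤ F * g 1 := by
  have hF0 : 0 ≤ F := (norm_nonneg _).trans (hF 0)
  rcases Nat.eq_zero_or_pos N with rfl | hN
  · simp only [Finset.Ioc_self, Finset.sum_empty, norm_zero]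
    exact mul_nonneg hF0 (hg0 1 le_rfl)
  rw [abel_identity c g N hN]
  have h1 : ‖(∑ n ∈ Ioc 0 N, c n) * (g N : ℂ)‖ ≤ F * g N := by
    rw [norm_mul, Complex.norm_real, Real.norm_of_nonneg (hg0 N hN)]
    exact mul_le_mul_of_nonneg_right (hF N) (hg0 N hN)
  have h2 : ‖∑ k ∈ Ico 1 N, (∑ n ∈ Ioc 0 k, c n) * ((g k - g (k + 1) : ℝ) : ℂ)‖ ≤
      ∑ k ∈ Ico 1 N, F * (g k - g (k + 1)) := by
    refine (norm_sum_le _ _).trans (Finset.sum_le_sum fun k hk => ?_)
    have hk1 := (Finset.mem_Ico.1 hk).1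
    have h3 : 0 ≤ g k - g (k + 1) := sub_nonneg.2 (hg k hk1)
    rw [norm_mul, Complex.norm_real, Real.norm_of_nonneg h3]
    exact mul_le_mul_of_nonneg_right (hF k) h3
  have h4 : ∑ k ∈ Ico 1 N, F * (g k - g (k + 1)) = F * (g 1 - g N) := by
    rw [← Finset.mul_sum]
    congr 1
    clear h1 h2
    induction N, hN using Nat.le_induction with
    | base => simp
    | succ N hN ih => rw [Finset.sum_Ico_succ_top hN, ih]; ring
  calc _ ≤ F * g N + F * (g 1 - g N) := (norm_add_le _ _).trans (add_le_add h1 (h2.trans h4.le))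
    _ = F * g 1 := by ring

/-- separation of variables -/
theorem posLog_eq_integral (N m r : ℕ) (hN : 1 ≤ N) (hm : 1 ≤ m) (hr : 1 ≤ r) :
    ∫ t in Set.Icc 0 (Real.log N), (if Real.log m ≤ t ∧ Real.log r ≤ Real.log N - t then
      (1 : ℝ) else 0) = Real.posLog ((N : ℝ) / ((m : ℝ) * r)) := by
  have hL : 0 ≤ Real.log N := Real.log_natCast_nonneg N
  have hm0 : 0 ≤ Real.log m := Real.log_natCast_nonneg m
  have hr0 : 0 ≤ Real.log r := Real.log_natCast_nonneg r
  have e1 : (fun t : ℝ => (if Real.log m ≤ t ∧ Real.log r ≤ Real.log N - t then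
      (1 : ℝ) else 0)) = Set.indicator (Set.Icc (Real.log m) (Real.log N - Real.log r)) 1 := by
    funext t
    rw [Set.indicator_apply]
    have : (Real.log m ≤ t ∧ Real.log r ≤ Real.log N - t) ↔
        t ∈ Set.Icc (Real.log m) (Real.log N - Real.log r) := by
      rw [Set.mem_Icc]
      constructor
      · rintro ⟨h1, h2⟩; exact ⟨h1, by linarith⟩
      · rintro ⟨h1, h2⟩; exact ⟨h1, by linarith⟩
    simp only [this, Pi.one_apply]
  rw [e1, MeasureTheory.integral_indicator_one measurableSet_Icc, measureReal_restrict_apply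
    measurableSet_Icc, Set.Icc_inter_Icc, Real.volume_real_Icc]
  have h1 : max (Real.log m) 0 = Real.log m := max_eq_left hm0
  have h2 : min (Real.log N - Real.log r) (Real.log N) = Real.log N - Real.log r :=
    min_eq_left (by linarith)
  rw [h1, h2, Real.posLog_apply]
  have hNpos : (0 : ℝ) < N := by exact_mod_cast hN
  have hmpos : (0 : ℝ) < m := by exact_mod_cast hm
  have hrpos : (0 : ℝ) < r := by exact_mod_cast hr
  rw [Real.log_div hNpos.ne' (by positivity), Real.log_mul hmpos.ne' hrpos.ne', max_comm]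
  congr 1
  ring

end Pool.Agent.Helper2
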