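import Mathlib

namespace Pool.Agent.Helper2

open Finset ArithmeticFunction
open scoped BigOperators

theorem card_divisors_mul_le (a b : ℕ) : #(a * b).divisors ≤ #a.divisors * #b.divisors := by
  classical
  have h : (a * b).divisors ⊆ (a.divisors ×ˢ b.divisors).image (fun x => x.1 * x.2) := by
    intro d hd
    rw [Nat.mem_divisors] at hd
    obtain ⟨x, y, hx, hy, rfl⟩ := exists_dvd_and_dvd_of_dvd_mul hd.1
    rw [mem_image]
    refine ⟨(x, y), ?_, rfl⟩
    rw [mem_product, Nat.mem_divisors, Nat.mem_divisors]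
    exact ⟨⟨hx, left_ne_zero_of_mul hd.2⟩, ⟨hy, right_ne_zero_of_mul hd.2⟩⟩
  calc #(a * b).divisors ≤ #((a.divisors ×ˢ b.divisors).image (fun x => x.1 * x.2)) :=
        card_le_card h
    _ ≤ #(a.divisors ×ˢ b.divisors) := card_image_le
    _ = #a.divisors * #b.divisors := card_product _ _

theorem harmonic_sum_le (M : ℕ) : ∑ n ∈ Ioc 0 M, (1 : ℝ) / n ≤ 1 + Real.log M := by
  have h := harmonic_le_one_add_log M
  rw [harmonic_eq_sum_Icc] at h
  push_cast at h
  have e : Ioc 0 M = Icc 1 M := by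
    ext x; simp only [mem_Ioc, mem_Icc]; omega
  rw [e]
  simpa [one_div] using h

theorem sum_tau_le (y : ℕ) : ∑ m ∈ Ioc 0 y, ((#m.divisors : ℕ) : ℝ) ≤ y * (1 + Real.log y) := by
  have h := sum_Ioc_sigma0_eq_sum_div y
  simp only [sigma_zero_apply] at h
  have h2 : ∑ m ∈ Ioc 0 y, ((#m.divisors : ℕ) : ℝ) = ∑ n ∈ Ioc 0 y, ((y / n : ℕ) : ℝ) := by
    exact_mod_cast h
  rw [h2]
  calc ∑ n ∈ Ioc 0 y, ((y / n : ℕ) : ℝ) ≤ ∑ n ∈ Ioc 0 y, (y : ℝ) * (1 / n) := by
        refine Finset.sum_le_sum fun n _ => ?_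
        rw [mul_one_div]
        exact Nat.cast_div_le
    _ = y * ∑ n ∈ Ioc 0 y, (1 : ℝ) / n := by rw [Finset.mul_sum]
    _ ≤ y * (1 + Real.log y) := mul_le_mul_of_nonneg_left (harmonic_sum_le y) (Nat.cast_nonneg y)

/-- the function `n ↦ 1/n` -/
noncomputable def invAF : ArithmeticFunction ℝ := ⟨fun n => 1 / (n : ℝ), by simp⟩

theorem invAF_mul_apply (n : ℕ) : (invAF * invAF) n = ((#n.divisors : ℕ) : ℝ) / n := by
  rw [ArithmeticFunction.mul_apply]
  have : ∀ x ∈ n.divisorsAntidiagonal, invAF x.1 * invAF x.2 = 1 / (n : ℝ) := by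
    intro x hx
    obtain ⟨h1, h2⟩ := Nat.mem_divisorsAntidiagonal.1 hx
    simp only [invAF, ArithmeticFunction.coe_mk]
    rw [← h1]
    push_cast
    rw [one_div_mul_one_div]
  rw [Finset.sum_congr rfl this, Finset.sum_const, nsmul_eq_mul]
  have : #n.divisorsAntidiagonal = #n.divisors := by
    rw [← Nat.map_div_right_divisors, card_map]
  rw [this]; ring

theorem sum_tau_div_le (M : ℕ) : ∑ n ∈ Ioc 0 M, ((#n.divisors : ℕ) : ℝ) / n ≤
    (1 + Real.log M) ^ 2 := by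
  have h : ∑ n ∈ Ioc 0 M, ((#n.divisors : ℕ) : ℝ) / n = ∑ n ∈ Ioc 0 M, (invAF * invAF) n :=
    Finset.sum_congr rfl fun n _ => (invAF_mul_apply n).symm
  rw [h, sum_Ioc_mul_eq_sum_prod_filter]
  calc ∑ x ∈ Ioc 0 M ×ˢ Ioc 0 M with x.1 * x.2 ≤ M, invAF x.1 * invAF x.2
      ≤ ∑ x ∈ Ioc 0 M ×ˢ Ioc 0 M, invAF x.1 * invAF x.2 := by
        refine Finset.sum_le_sum_of_subset_of_nonneg (filter_subset _ _) ?_
        intro x _ _
        simp only [invAF, ArithmeticFunction.coe_mk]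
        positivity
    _ = (∑ n ∈ Ioc 0 M, (1 : ℝ) / n) ^ 2 := by
        rw [sq, Finset.sum_mul_sum, Finset.sum_product]
        rfl
    _ ≤ (1 + Real.log M) ^ 2 :=
        pow_le_pow_left₀ (Finset.sum_nonneg fun _ _ => by positivity) (harmonic_sum_le M) 2

/-- the number-of-divisors function as a real arithmetic function -/
noncomputable def tauAF : ArithmeticFunction ℝ := ⟨fun n => ((#n.divisors : ℕ) : ℝ), by simp⟩

theorem sum_tau_sq_le (M : ℕ) : ∑ n ∈ Ioc 0 M, ((#n.divisors : ℕ) : ℝ) ^ 2 ≤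
    M * (1 + Real.log M) ^ 3 := by
  have hlog : 0 ≤ Real.log M := Real.log_natCast_nonneg M
  have h1 : ∀ n ∈ Ioc 0 M, ((#n.divisors : ℕ) : ℝ) ^ 2 ≤ (tauAF * tauAF) n := by
    intro n _
    rw [ArithmeticFunction.mul_apply]
    have hc : #n.divisorsAntidiagonal = #n.divisors := by
      rw [← Nat.map_div_right_divisors, card_map]
    calc ((#n.divisors : ℕ) : ℝ) ^ 2 = ∑ x ∈ n.divisorsAntidiagonal, ((#n.divisors : ℕ) : ℝ) := by
          rw [Finset.sum_const, nsmul_eq_mul, hc, sq]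
      _ ≤ ∑ x ∈ n.divisorsAntidiagonal, tauAF x.1 * tauAF x.2 := by
          refine Finset.sum_le_sum fun x hx => ?_
          obtain ⟨h1, h2⟩ := Nat.mem_divisorsAntidiagonal.1 hx
          simp only [tauAF, ArithmeticFunction.coe_mk]
          rw [← h1]
          exact_mod_cast card_divisors_mul_le x.1 x.2
  calc ∑ n ∈ Ioc 0 M, ((#n.divisors : ℕ) : ℝ) ^ 2 ≤ ∑ n ∈ Ioc 0 M, (tauAF * tauAF) n :=
        Finset.sum_le_sum h1
    _ = ∑ n ∈ Ioc 0 M, tauAF n * ∑ m ∈ Ioc 0 (M / n), tauAF m := sum_Ioc_mul_eq_sum_sum _ _ _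
    _ ≤ ∑ n ∈ Ioc 0 M, (((#n.divisors : ℕ) : ℝ) / n) * (M * (1 + Real.log M)) := by
        refine Finset.sum_le_sum fun n hn => ?_
        have hn0 : 0 < n := (mem_Ioc.1 hn).1
        have hn1 : (0 : ℝ) < n := by exact_mod_cast hn0
        have h2 : ∑ m ∈ Ioc 0 (M / n), tauAF m ≤ (M / n : ℝ) * (1 + Real.log M) := by
          refine (sum_tau_le (M / n)).trans ?_
          have h3 : ((M / n : ℕ) : ℝ) ≤ (M : ℝ) / n := Nat.cast_div_le
          have h4 : Real.log ((M / n : ℕ) : ℝ) ≤ Real.log M := by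
            rcases Nat.eq_zero_or_pos (M / n) with h0 | h0
            · rw [h0]; simpa using hlog
            · refine Real.log_le_log (by exact_mod_cast h0) ?_
              exact_mod_cast Nat.div_le_self M n
          have h5 : 0 ≤ Real.log ((M / n : ℕ) : ℝ) := Real.log_natCast_nonneg _
          exact mul_le_mul h3 (by linarith) (by linarith) (by positivity)
        have h6 : tauAF n = ((#n.divisors : ℕ) : ℝ) := rfl
        rw [h6]
        calc ((#n.divisors : ℕ) : ℝ) * ∑ m ∈ Ioc 0 (M / n), tauAF m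
            ≤ ((#n.divisors : ℕ) : ℝ) * ((M / n : ℝ) * (1 + Real.log M)) :=
              mul_le_mul_of_nonneg_left h2 (Nat.cast_nonneg _)
          _ = (((#n.divisors : ℕ) : ℝ) / n) * (M * (1 + Real.log M)) := by field_simp
    _ = (∑ n ∈ Ioc 0 M, ((#n.divisors : ℕ) : ℝ) / n) * (M * (1 + Real.log M)) := by
        rw [Finset.sum_mul]
    _ ≤ (1 + Real.log M) ^ 2 * (M * (1 + Real.log M)) :=
        mul_le_mul_of_nonneg_right (sum_tau_div_le M) (by positivity)
    _ = M * (1 + Real.log M) ^ 3 := by ring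

end Pool.Agent.Helper2
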