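import Mathlib

namespace Pool.Agent.Helper2

open Finset
open scoped BigOperators Classical

/-- greedy choice of roots of unity avoiding characters -/
theorem exists_avoid {ι : Type*} (L M : ℕ) [NeZero L] (hM : 1 ≤ M)
    (g : ι → (ZMod L)ˣ) (hexp : ∀ i, g i ^ M = 1) (S : Finset ι) :
    ∃ z : ι → ℂ, (∀ i, z i ≠ 0) ∧
      (#((univ : Finset (DirichletCharacter ℂ L)).filter
        (fun χ => ∀ i ∈ S, χ (g i : ZMod L) ≠ z i)) : ℝ) ≤ L.totient * (1 - 1 / (M : ℝ)) ^ #S := by
  induction S using Finset.induction_on with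
  | empty =>
    refine ⟨fun _ => 1, fun _ => one_ne_zero, ?_⟩
    simp only [notMem_empty, IsEmpty.forall_iff, implies_true, filter_true, card_empty, pow_zero,
      mul_one]
    rw [card_univ, ← Nat.card_eq_fintype_card,
      DirichletCharacter.card_eq_totient_of_hasEnoughRootsOfUnity ℂ L]
  | insert a S ha ih =>
    obtain ⟨z, hz0, hz⟩ := ih
    set A := (univ : Finset (DirichletCharacter ℂ L)).filter
        (fun χ => ∀ i ∈ S, χ (g i : ZMod L) ≠ z i) with hA
    have hMpos : 0 < M := hM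
    have hMr : (0 : ℝ) < M := by exact_mod_cast hMpos
    set R : Finset ℂ := Polynomial.nthRootsFinset M (1 : ℂ) with hR
    have hRcard : #R ≤ M := by
      rw [hR, Polynomial.nthRootsFinset]
      refine (Multiset.toFinset_card_le _).trans ?_
      exact Polynomial.card_nthRoots M 1
    have hR1 : (1 : ℂ) ∈ R := by
      rw [hR, Polynomial.mem_nthRootsFinset hMpos]; simp
    have hRpos : (0 : ℝ) < #R := by exact_mod_cast card_pos.2 ⟨1, hR1⟩
    have hmaps : ∀ χ ∈ A, (fun χ : DirichletCharacter ℂ L => χ (g a : ZMod L)) χ ∈ R := by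
      intro χ _
      rw [hR, Polynomial.mem_nthRootsFinset hMpos]
      simp only
      rw [← map_pow, ← Units.val_pow_eq_pow_val, hexp a]
      simp
    obtain ⟨w, hw, hfib⟩ := Finset.exists_le_card_fiber_of_nsmul_le_card_of_maps_to
      (s := A) (t := R) (f := fun χ : DirichletCharacter ℂ L => χ (g a : ZMod L))
      (b := (#A : ℝ) / #R) hmaps ⟨1, hR1⟩ (by rw [nsmul_eq_mul, mul_div_cancel₀ _ hRpos.ne'])
    have hw0 : w ≠ 0 := by
      rintro rfl
      rw [hR, Polynomial.mem_nthRootsFinset hMpos, zero_pow hMpos.ne'] at hw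
      exact zero_ne_one hw
    refine ⟨fun i => if i = a then w else z i, ?_, ?_⟩
    · intro i
      by_cases h : i = a
      · simp [h, hw0]
      · simp [h, hz0 i]
    · have e : (univ : Finset (DirichletCharacter ℂ L)).filter
          (fun χ => ∀ i ∈ insert a S, χ (g i : ZMod L) ≠ (if i = a then w else z i)) =
          A.filter (fun χ => ¬ χ (g a : ZMod L) = w) := by
        ext χ
        simp only [hA, mem_filter, mem_univ, true_and, mem_insert, forall_eq_or_imp, if_true]
        constructor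
        · rintro ⟨h1, h2⟩
          refine ⟨fun i hi => ?_, h1⟩
          have hia : i ≠ a := fun h => ha (h ▸ hi)
          have := h2 i hi
          rwa [if_neg hia] at this
        · rintro ⟨h1, h2⟩
          refine ⟨h2, fun i hi => ?_⟩
          have hia : i ≠ a := fun h => ha (h ▸ hi)
          rw [if_neg hia]
          exact h1 i hi
      rw [e, card_insert_of_notMem ha, pow_succ]
      have h1 := Finset.card_filter_add_card_filter_not (s := A)
        (fun χ : DirichletCharacter ℂ L => χ (g a : ZMod L) = w)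
      have h2 : (#(A.filter (fun χ : DirichletCharacter ℂ L => χ (g a : ZMod L) = w)) : ℝ) +
          #(A.filter (fun χ : DirichletCharacter ℂ L => ¬ χ (g a : ZMod L) = w)) = #A := by
        exact_mod_cast h1
      have h3 : (#A : ℝ) / M ≤ #(A.filter
          (fun χ : DirichletCharacter ℂ L => χ (g a : ZMod L) = w)) := by
        refine le_trans ?_ hfib
        refine div_le_div_of_nonneg_left (Nat.cast_nonneg _) hRpos ?_
        exact_mod_cast hRcard
      have h4 : (#(A.filter (fun χ : DirichletCharacter ℂ L => ¬ χ (g a : ZMod L) = w)) : ℝ) ≤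
          #A * (1 - 1 / (M : ℝ)) := by
        have : (#A : ℝ) * (1 - 1 / (M : ℝ)) = #A - #A / M := by ring
        rw [this]; linarith
      have h5 : (0 : ℝ) ≤ 1 - 1 / (M : ℝ) := by
        rw [sub_nonneg, div_le_one hMr]
        exact_mod_cast hM
      calc (#(A.filter (fun χ : DirichletCharacter ℂ L => ¬ χ (g a : ZMod L) = w)) : ℝ)
          ≤ #A * (1 - 1 / (M : ℝ)) := h4
        _ ≤ (L.totient * (1 - 1 / (M : ℝ)) ^ #S) * (1 - 1 / (M : ℝ)) :=
            mul_le_mul_of_nonneg_right hz h5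
        _ = L.totient * ((1 - 1 / (M : ℝ)) ^ #S * (1 - 1 / (M : ℝ))) := by ring

/-- many units have a nonempty subfamily with product `1` -/
theorem exists_prod_eq_one {ι : Type*} (L M : ℕ) [NeZero L] (hM : 1 ≤ M)
    (g : ι → (ZMod L)ˣ) (hexp : ∀ i, g i ^ M = 1) (S : Finset ι)
    (hS : (M : ℝ) * Real.log L < #S) :
    ∃ T ⊆ S, T.Nonempty ∧ ∏ i ∈ T, g i = 1 := by
  by_contra hcon
  push Not at hcon
  obtain ⟨z, hz0, hz⟩ := exists_avoid L M hM g hexp S
  have hMr : (0 : ℝ) < M := by exact_mod_cast hM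
  have hLpos : 0 < L := Nat.pos_of_ne_zero (NeZero.ne L)
  have hLr : (0 : ℝ) < L := by exact_mod_cast hLpos
  have hlt : (L.totient : ℝ) * (1 - 1 / (M : ℝ)) ^ #S < 1 := by
    have h1 : (1 - 1 / (M : ℝ)) ≤ Real.exp (-(1 / (M : ℝ))) := by
      have := Real.add_one_le_exp (-(1 / (M : ℝ)))
      linarith
    have h0 : (0 : ℝ) ≤ 1 - 1 / (M : ℝ) := by
      rw [sub_nonneg, div_le_one hMr]
      exact_mod_cast hM
    have h2 : (1 - 1 / (M : ℝ)) ^ #S ≤ Real.exp (-((#S : ℝ) / M)) := by
      calc (1 - 1 / (M : ℝ)) ^ #S ≤ (Real.exp (-(1 / (M : ℝ)))) ^ #S := pow_le_pow_left₀ h0 h1 _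
        _ = Real.exp (-((#S : ℝ) / M)) := by
            rw [← Real.exp_nat_mul]; congr 1; ring
    have h3 : Real.exp (-((#S : ℝ) / M)) < Real.exp (-Real.log L) := by
      rw [Real.exp_lt_exp, neg_lt_neg_iff, lt_div_iff₀ hMr]
      linarith
    have h4 : Real.exp (-Real.log L) = 1 / (L : ℝ) := by
      rw [Real.exp_neg, Real.exp_log hLr, one_div]
    have h5 : (L.totient : ℝ) ≤ L := by exact_mod_cast Nat.totient_le L
    calc (L.totient : ℝ) * (1 - 1 / (M : ℝ)) ^ #S ≤ L * (1 - 1 / (M : ℝ)) ^ #S :=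
          mul_le_mul_of_nonneg_right h5 (pow_nonneg h0 _)
      _ < L * (1 / (L : ℝ)) := by
          refine mul_lt_mul_of_pos_left ?_ hLr
          rw [← h4]
          exact lt_of_le_of_lt h2 h3
      _ = 1 := by field_simp
  have hempty : (univ : Finset (DirichletCharacter ℂ L)).filter
        (fun χ => ∀ i ∈ S, χ (g i : ZMod L) ≠ z i) = ∅ := by
    rw [← card_eq_zero]
    have : (#((univ : Finset (DirichletCharacter ℂ L)).filter
        (fun χ => ∀ i ∈ S, χ (g i : ZMod L) ≠ z i)) : ℝ) < 1 := lt_of_le_of_lt hz hlt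
    have h2 : #((univ : Finset (DirichletCharacter ℂ L)).filter
        (fun χ => ∀ i ∈ S, χ (g i : ZMod L) ≠ z i)) < 1 := by exact_mod_cast this
    omega
  have hprod : ∀ χ : DirichletCharacter ℂ L, ∏ i ∈ S, (-χ (g i : ZMod L) + z i) = 0 := by
    intro χ
    have : χ ∉ (univ : Finset (DirichletCharacter ℂ L)).filter
        (fun χ => ∀ i ∈ S, χ (g i : ZMod L) ≠ z i) := by rw [hempty]; simp
    simp only [mem_filter, mem_univ, true_and, not_forall, not_not] at this
    obtain ⟨i, hi, h⟩ := this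
    exact Finset.prod_eq_zero hi (by rw [h]; ring)
  have hsum : ∑ χ : DirichletCharacter ℂ L, ∏ i ∈ S, (-χ (g i : ZMod L) + z i) = 0 :=
    Finset.sum_eq_zero fun χ _ => hprod χ
  simp only [Finset.prod_add] at hsum
  rw [Finset.sum_comm] at hsum
  have hterm : ∀ T ∈ S.powerset, ∑ χ : DirichletCharacter ℂ L,
      (∏ i ∈ T, (-χ (g i : ZMod L))) * ∏ i ∈ S \ T, z i =
      if T = ∅ then (L.totient : ℂ) * ∏ i ∈ S, z i else 0 := by
    intro T hT
    have e : ∀ χ : DirichletCharacter ℂ L, (∏ i ∈ T, (-χ (g i : ZMod L))) * ∏ i ∈ S \ T, z i =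
        ((-1) ^ #T * ∏ i ∈ S \ T, z i) * χ ((∏ i ∈ T, g i : (ZMod L)ˣ) : ZMod L) := by
      intro χ
      rw [Finset.prod_neg, Units.coe_prod, map_prod]
      ring
    simp only [e]
    rw [← Finset.mul_sum, DirichletCharacter.sum_characters_eq ℂ]
    by_cases hTe : T = ∅
    · subst hTe
      simp
      ring
    · have hne : ∏ i ∈ T, g i ≠ 1 := hcon T (mem_powerset.1 hT) (nonempty_iff_ne_empty.2 hTe)
      have hne' : ((∏ i ∈ T, g i : (ZMod L)ˣ) : ZMod L) ≠ 1 := by
        intro h
        exact hne (Units.ext (by rw [h]; rfl))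
      rw [if_neg hne', if_neg hTe, mul_zero]
  rw [Finset.sum_congr rfl hterm, Finset.sum_ite_eq' S.powerset ∅] at hsum
  rw [if_pos (empty_mem_powerset S)] at hsum
  rcases mul_eq_zero.1 hsum with h | h
  · have : L.totient ≠ 0 := (Nat.totient_pos.2 hLpos).ne'
    exact this (by exact_mod_cast h)
  · rw [Finset.prod_eq_zero_iff] at h
    obtain ⟨i, _, hi⟩ := h
    exact hz0 i hi

end Pool.Agent.Helper2
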