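import Pool.Agent.Helper2.KeyProducts
import Pool.Agent.Helper2.ZeroSum

namespace Pool.Agent.Helper2

open Finset
open scoped BigOperators

theorem pow_modEq_one_of_forall (S : Finset ℕ) (hS : ∀ p ∈ S, p.Prime) (M : ℕ)
    (hM : ∀ p ∈ S, p - 1 ∣ M) (a : ℕ) (ha : a.Coprime (∏ p ∈ S, p)) :
    a ^ M ≡ 1 [MOD ∏ p ∈ S, p] := by
  classical
  induction S using Finset.induction_on with
  | empty => simp [Nat.modEq_one]
  | insert p S hp ih =>
    rw [prod_insert hp] at ha ⊢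
    have hpp : p.Prime := hS p (mem_insert_self p S)
    have hcop : p.Coprime (∏ q ∈ S, q) := by
      refine Nat.Coprime.prod_right fun q hq => ?_
      refine (Nat.coprime_primes hpp (hS q (mem_insert_of_mem hq))).2 ?_
      rintro rfl
      exact hp hq
    rw [← Nat.modEq_and_modEq_iff_modEq_mul hcop]
    refine ⟨?_, ih (fun q hq => hS q (mem_insert_of_mem hq))
      (fun q hq => hM q (mem_insert_of_mem hq)) (Nat.Coprime.coprime_mul_left_right ha)⟩
    obtain ⟨c, hc⟩ := hM p (mem_insert_self p S)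
    have h1 : a.Coprime p := Nat.Coprime.coprime_mul_right_right ha
    have h2 : a ^ (p - 1) ≡ 1 [MOD p] := by
      have := Nat.ModEq.pow_totient h1
      rwa [Nat.totient_prime hpp] at this
    rw [hc, pow_mul]
    simpa using h2.pow c

theorem one_sub_sum_le_prod (S : Finset ℕ) (f : ℕ → ℝ) (hf : ∀ p ∈ S, 0 ≤ f p ∧ f p ≤ 1) :
    1 - ∑ p ∈ S, f p ≤ ∏ p ∈ S, (1 - f p) := by
  classical
  induction S using Finset.induction_on with
  | empty => simp
  | insert p S hp ih =>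
    rw [sum_insert hp, prod_insert hp]
    have h1 := ih fun q hq => hf q (mem_insert_of_mem hq)
    obtain ⟨h2, h3⟩ := hf p (mem_insert_self p S)
    have h4 : 0 ≤ ∑ q ∈ S, f q := sum_nonneg fun q hq => (hf q (mem_insert_of_mem hq)).1
    have h5 : (1 - f p) * (1 - ∑ q ∈ S, f q) ≤ (1 - f p) * ∏ q ∈ S, (1 - f q) :=
      mul_le_mul_of_nonneg_left h1 (by linarith)
    nlinarith

/-- the lower bound for the number of Fermat liars of a squarefree number all of whose primes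
satisfy Korselt's criterion -/
theorem liars_ge (S : Finset ℕ) (hS : ∀ p ∈ S, p.Prime) (n : ℕ) (hn : n = ∏ p ∈ S, p)
    (hK : ∀ p ∈ S, p - 1 ∣ n - 1) (B : ℝ) (hB : 0 < B) (hSB : ∀ p ∈ S, B ≤ p) :
    (n : ℝ) * (1 - #S / B) ≤ (#((range n).filter (fun a => a ^ (n - 1) ≡ 1 [MOD n])) : ℝ) := by
  classical
  have h1 : n.totient ≤ #((range n).filter (fun a => a ^ (n - 1) ≡ 1 [MOD n])) := by
    rw [Nat.totient]
    refine card_le_card fun a ha => ?_
    rw [mem_filter] at ha ⊢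
    refine ⟨ha.1, ?_⟩
    have h2 := pow_modEq_one_of_forall S hS (n - 1) hK a (by rw [← hn]; exact ha.2.symm)
    rwa [← hn] at h2
  have hn0 : n ≠ 0 := by
    rw [hn]; exact prod_ne_zero_iff.2 fun p hp => (hS p hp).ne_zero
  have h2 : (n.totient : ℝ) = n * ∏ p ∈ S, (1 - (p : ℝ)⁻¹) := by
    have := Nat.totient_eq_mul_prod_factors n
    rw [show n.primeFactors = S by rw [hn]; exact Nat.primeFactors_prod hS] at this
    have h3 : ((n.totient : ℚ) : ℝ) = ((n * ∏ p ∈ S, (1 - (p : ℚ)⁻¹) : ℚ) : ℝ) := by rw [this]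
    push_cast at h3
    exact h3
  have h3 := one_sub_sum_le_prod S (fun p => (p : ℝ)⁻¹) fun p hp => by
    have : (1 : ℝ) ≤ p := by exact_mod_cast (hS p hp).one_lt.le
    exact ⟨by positivity, inv_le_one_of_one_le₀ this⟩
  have h4 : ∑ p ∈ S, (p : ℝ)⁻¹ ≤ #S / B := by
    calc ∑ p ∈ S, (p : ℝ)⁻¹ ≤ ∑ _p ∈ S, B⁻¹ :=
          sum_le_sum fun p hp => inv_anti₀ hB (hSB p hp)
      _ = #S / B := by rw [sum_const, nsmul_eq_mul, div_eq_mul_inv]
  calc (n : ℝ) * (1 - #S / B) ≤ n * ∏ p ∈ S, (1 - (p : ℝ)⁻¹) :=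
        mul_le_mul_of_nonneg_left (by linarith) (Nat.cast_nonneg n)
    _ = n.totient := h2.symm
    _ ≤ _ := by exact_mod_cast h1

theorem prod_add_one_modEq (k : ℕ) (T : Finset ℕ) : ∏ d ∈ T, (d * k + 1) ≡ 1 [MOD k] := by
  classical
  induction T using Finset.induction_on with
  | empty => exact Nat.ModEq.refl 1
  | insert d T hd ih =>
    rw [prod_insert hd]
    have h1 : d * k + 1 ≡ 1 [MOD k] := by
      have : 0 + 1 ≡ d * k + 1 [MOD k] :=
        ((Nat.modEq_zero_iff_dvd.2 (dvd_mul_left k d)).symm).add_right 1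
      simpa using this.symm
    simpa using h1.mul ih

/-- the assembly, with all the information on `n` -/
theorem assembly_full (M : ℕ) (hM : 1 ≤ M) (Q : Finset ℕ) (y u k j N : ℕ) (hy : 5 ≤ y) (hu : 2 ≤ u)
    (hQ : ∀ q ∈ Q, q.Prime ∧ y ≤ q ∧ q ≤ 4 * y) (hQM : ∀ q ∈ Q, q - 1 ∣ M) (hk : 1 ≤ k)
    (hNL : N < ∏ q ∈ Q, q)
    (hW : M * Real.log ((∏ q ∈ Q, q : ℕ) : ℝ) < #(Fib (prods Q u) N k j)) :
    ∃ n : ℕ, y ^ u < n ∧ ¬ n.Prime ∧ (∀ a : ℕ, a.Coprime n → a ^ (n - 1) ≡ 1 [MOD n]) ∧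
      Real.log (n : ℝ) ≤ (M * Real.log ((∏ q ∈ Q, q : ℕ) : ℝ) + 1) * Real.log (N : ℝ) ∧
      (n : ℝ) * (1 - (M * Real.log ((∏ q ∈ Q, q : ℕ) : ℝ) + 1) / (y : ℝ) ^ u) ≤
        (#((range n).filter (fun a => a ^ (n - 1) ≡ 1 [MOD n])) : ℝ) := by
  classical
  set L : ℕ := ∏ q ∈ Q, q with hL
  have hQp : ∀ q ∈ Q, q.Prime := fun q hq => (hQ q hq).1
  have hL0 : L ≠ 0 := prod_ne_zero_iff.2 fun q hq => (hQp q hq).ne_zero
  have : NeZero L := ⟨hL0⟩
  have hlog : 0 ≤ (M : ℝ) * Real.log (L : ℝ) :=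
    mul_nonneg (Nat.cast_nonneg _) (Real.log_natCast_nonneg _)
  -- choose a subset of the fibre of the right size
  have hsz : ⌊(M : ℝ) * Real.log (L : ℝ)⌋₊ + 1 ≤ #(Fib (prods Q u) N k j) := by
    have : ⌊(M : ℝ) * Real.log (L : ℝ)⌋₊ < #(Fib (prods Q u) N k j) := by
      rw [Nat.floor_lt hlog]; exact hW
    omega
  obtain ⟨W, hWsub, hWcard⟩ := exists_subset_card_eq hsz
  -- facts on members
  have hmem : ∀ d ∈ W, y ^ u ≤ d ∧ d ∣ L ∧ (d * k + 1).Prime ∧ k.Coprime d ∧ d * k + 1 ≤ N := by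
    intro d hd
    have h1 := hWsub hd
    rw [Fib, mem_filter] at h1
    obtain ⟨h2, h3, h4, h5, h6⟩ := h1
    rw [prods, mem_image] at h2
    obtain ⟨T, hT, rfl⟩ := h2
    obtain ⟨hT1, hT2⟩ := mem_powersetCard.1 hT
    refine ⟨?_, prod_dvd_prod_of_subset _ _ _ hT1, h3, h4, h6⟩
    calc y ^ u = ∏ _p ∈ T, y := by rw [prod_const, hT2]
      _ ≤ ∏ p ∈ T, p := prod_le_prod' fun p hp => (hQ p (hT1 hp)).2.1
  have hbig : 4 * y < y ^ u := by
    calc 4 * y < y * y := by nlinarith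
      _ = y ^ 2 := by ring
      _ ≤ y ^ u := Nat.pow_le_pow_right (by omega) hu
  have hcop : ∀ d ∈ W, (d * k + 1).Coprime L := by
    intro d hd
    obtain ⟨h1, h2, h3, h4, h5⟩ := hmem d hd
    refine Nat.Coprime.prod_right fun q hq => ?_
    refine (Nat.coprime_primes h3 (hQp q hq)).2 ?_
    have h6 := (hQ q hq).2.2
    have h7 : d ≤ d * k := Nat.le_mul_of_pos_right d hk
    omega
  set g : ℕ → (ZMod L)ˣ := fun d =>
    if h : (d * k + 1).Coprime L then ZMod.unitOfCoprime _ h else 1 with hg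
  have hexp : ∀ d, g d ^ M = 1 := by
    intro d
    by_cases h : (d * k + 1).Coprime L
    · have h1 : g d = ZMod.unitOfCoprime _ h := by rw [hg]; simp only [dif_pos h]
      have h2 := pow_modEq_one_of_forall Q hQp M hQM (d * k + 1) h
      rw [← hL, ← ZMod.natCast_eq_natCast_iff] at h2
      rw [h1]
      ext
      rw [Units.val_pow_eq_pow_val, ZMod.coe_unitOfCoprime, Units.val_one]
      simpa using h2
    · have h1 : g d = 1 := by rw [hg]; simp only [dif_neg h]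
      rw [h1, one_pow]
  obtain ⟨T, hTW, hTne, hTprod⟩ := exists_prod_eq_one L M hM g hexp W (by
    rw [hWcard]; push_cast; exact Nat.lt_floor_add_one _)
  set S : Finset ℕ := T.image (fun d => d * k + 1) with hSdef
  have hinj : Set.InjOn (fun d => d * k + 1) (T : Set ℕ) := by
    intro a _ b _ h
    have h' : a * k + 1 = b * k + 1 := h
    have : a * k = b * k := by omega
    exact Nat.eq_of_mul_eq_mul_right hk this
  set n : ℕ := ∏ p ∈ S, p with hn
  have hn' : n = ∏ d ∈ T, (d * k + 1) := by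
    rw [hn, hSdef, prod_image hinj]
  have hSp : ∀ p ∈ S, p.Prime := by
    intro p hp
    rw [hSdef, mem_image] at hp
    obtain ⟨d, hd, rfl⟩ := hp
    exact (hmem d (hTW hd)).2.2.1
  have hn0 : n ≠ 0 := prod_ne_zero_iff.2 fun q hq => (hSp q hq).ne_zero
  have hmodL : n ≡ 1 [MOD L] := by
    rw [← ZMod.natCast_eq_natCast_iff, hn']
    push_cast
    have h1 : ((∏ d ∈ T, g d : (ZMod L)ˣ) : ZMod L) = 1 := by rw [hTprod]; rfl
    refine Eq.trans ?_ h1
    rw [Units.coe_prod]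
    refine prod_congr rfl fun d hd => ?_
    have h2 := hcop d (hTW hd)
    have h3 : g d = ZMod.unitOfCoprime _ h2 := by rw [hg]; simp only [dif_pos h2]
    rw [h3, ZMod.coe_unitOfCoprime]
    push_cast; rfl
  have hmodk : n ≡ 1 [MOD k] := by
    rw [hn']
    exact prod_add_one_modEq k T
  have hn1 : 1 ≤ n := Nat.pos_of_ne_zero hn0
  have hLn : L ∣ n - 1 := (Nat.modEq_iff_dvd' hn1).1 hmodL.symm
  have hkn : k ∣ n - 1 := (Nat.modEq_iff_dvd' hn1).1 hmodk.symm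
  have hK : ∀ p ∈ S, p - 1 ∣ n - 1 := by
    intro p hp
    rw [hSdef, mem_image] at hp
    obtain ⟨d, hd, rfl⟩ := hp
    obtain ⟨h1, h2, h3, h4, h5⟩ := hmem d (hTW hd)
    rw [Nat.add_sub_cancel]
    exact Nat.Coprime.mul_dvd_of_dvd_of_dvd h4.symm (h2.trans hLn) hkn
  obtain ⟨d₀, hd₀⟩ := hTne
  obtain ⟨e1, e2, e3, e4, e5⟩ := hmem d₀ (hTW hd₀)
  have hp0 : d₀ * k + 1 ∈ S := mem_image_of_mem _ hd₀
  have hdvd : d₀ * k + 1 ∣ n := dvd_prod_of_mem _ hp0
  have hle : d₀ * k + 1 ≤ n := Nat.le_of_dvd hn1 hdvd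
  have hdk : d₀ ≤ d₀ * k := Nat.le_mul_of_pos_right d₀ hk
  have hcardS : #S = #T := card_image_of_injOn hinj
  have hcardT : (#T : ℝ) ≤ M * Real.log (L : ℝ) + 1 := by
    have h1 : #T ≤ ⌊(M : ℝ) * Real.log (L : ℝ)⌋₊ + 1 := by
      rw [← hWcard]; exact card_le_card hTW
    have h2 : ((⌊(M : ℝ) * Real.log (L : ℝ)⌋₊ : ℕ) : ℝ) ≤ M * Real.log (L : ℝ) :=
      Nat.floor_le hlog
    have h3 : (#T : ℝ) ≤ ((⌊(M : ℝ) * Real.log (L : ℝ)⌋₊ + 1 : ℕ) : ℝ) := by exact_mod_cast h1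
    push_cast at h3
    linarith
  refine ⟨n, by omega, ?_, ?_, ?_, ?_⟩
  · intro hnp
    have h1 : d₀ * k + 1 = n := ((Nat.dvd_prime hnp).1 hdvd).resolve_left (by omega)
    have h2 : L ≤ n - 1 := Nat.le_of_dvd (by omega) hLn
    omega
  · intro a ha
    have := pow_modEq_one_of_forall S hSp (n - 1) hK a (by rw [← hn]; exact ha)
    rwa [← hn] at this
  · have h1 : Real.log (n : ℝ) = ∑ p ∈ S, Real.log (p : ℝ) := by
      rw [hn]; push_cast
      rw [Real.log_prod]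
      intro p hp
      have := (hSp p hp).pos
      positivity
    rw [h1]
    calc ∑ p ∈ S, Real.log (p : ℝ) ≤ ∑ _p ∈ S, Real.log (N : ℝ) := by
          refine sum_le_sum fun p hp => Real.log_le_log ?_ ?_
          · exact_mod_cast (hSp p hp).pos
          · rw [hSdef, mem_image] at hp
            obtain ⟨d, hd, rfl⟩ := hp
            exact_mod_cast (hmem d (hTW hd)).2.2.2.2
      _ = #S * Real.log (N : ℝ) := by rw [sum_const, nsmul_eq_mul]
      _ ≤ _ := by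
          rw [hcardS]
          exact mul_le_mul_of_nonneg_right hcardT (Real.log_natCast_nonneg _)
  · have hyr : (0 : ℝ) < (y : ℝ) ^ u := by
      have : (0 : ℝ) < y := by exact_mod_cast (by omega : 0 < y)
      positivity
    have hl := liars_ge S hSp n hn hK ((y : ℝ) ^ u) hyr (by
      intro p hp
      rw [hSdef, mem_image] at hp
      obtain ⟨d, hd, rfl⟩ := hp
      obtain ⟨h1, h2, h3, h4, h5⟩ := hmem d (hTW hd)
      have h7 : d ≤ d * k := Nat.le_mul_of_pos_right d hk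
      exact_mod_cast (by omega : y ^ u ≤ d * k + 1))
    refine le_trans ?_ hl
    refine mul_le_mul_of_nonneg_left ?_ (Nat.cast_nonneg n)
    have : (#S : ℝ) / (y : ℝ) ^ u ≤ (M * Real.log (L : ℝ) + 1) / (y : ℝ) ^ u := by
      rw [hcardS]
      exact div_le_div_of_nonneg_right hcardT hyr.le
    linarith

theorem assembly (M : ℕ) (hM : 1 ≤ M) (Q : Finset ℕ) (y u k j N : ℕ) (hy : 5 ≤ y) (hu : 2 ≤ u)
    (hQ : ∀ q ∈ Q, q.Prime ∧ y ≤ q ∧ q ≤ 4 * y) (hQM : ∀ q ∈ Q, q - 1 ∣ M) (hk : 1 ≤ k)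
    (hNL : N < ∏ q ∈ Q, q)
    (hW : M * Real.log ((∏ q ∈ Q, q : ℕ) : ℝ) < #(Fib (prods Q u) N k j)) :
    ∃ n : ℕ, y ^ u < n ∧ ¬ n.Prime ∧
      (n : ℝ) * (1 - (M * Real.log ((∏ q ∈ Q, q : ℕ) : ℝ) + 1) / (y : ℝ) ^ u) ≤
        (#((range n).filter (fun a => a ^ (n - 1) ≡ 1 [MOD n])) : ℝ) := by
  obtain ⟨n, h1, h2, -, -, h3⟩ := assembly_full M hM Q y u k j N hy hu hQ hQM hk hNL hW
  exact ⟨n, h1, h2, h3⟩

end Pool.Agent.Helper2
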