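import Pool.Agent.Helper2.Average

namespace Pool.Agent.Helper2

open Finset ArithmeticFunction
open scoped BigOperators ComplexConjugate Classical

/-- functions attached to the nontrivial characters modulo `d` -/
noncomputable def charFns (d : ℕ) : Finset (ℕ → ℂ) :=
  if h : d = 0 then ∅ else
    have : NeZero d := ⟨h⟩
    ((univ : Finset (DirichletCharacter ℂ d)).filter (· ≠ 1)).image prFun

/-- functions attached to all characters modulo `f` -/
noncomputable def allFns (f : ℕ) : Finset (ℕ → ℂ) :=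
  if h : f = 0 then ∅ else
    have : NeZero f := ⟨h⟩
    (univ : Finset (DirichletCharacter ℂ f)).image chFun

theorem charFns_eq (d : ℕ) [NeZero d] :
    charFns d = ((univ : Finset (DirichletCharacter ℂ d)).filter (· ≠ 1)).image prFun := by
  unfold charFns
  rw [dif_neg (NeZero.ne d)]

theorem allFns_eq (d : ℕ) [NeZero d] :
    allFns d = (univ : Finset (DirichletCharacter ℂ d)).image chFun := by
  unfold allFns
  rw [dif_neg (NeZero.ne d)]

theorem card_allFns_le (f : ℕ) : #(allFns f) ≤ f := by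
  rcases Nat.eq_zero_or_pos f with rfl | hf
  · simp [allFns]
  · have : NeZero f := ⟨hf.ne'⟩
    rw [allFns_eq]
    refine card_image_le.trans ?_
    rw [card_univ, ← Nat.card_eq_fintype_card,
      DirichletCharacter.card_eq_totient_of_hasEnoughRootsOfUnity ℂ f]
    exact Nat.totient_le f

theorem sum_charFns (d : ℕ) [NeZero d] (Φ : (ℕ → ℂ) → ℝ) :
    ∑ g ∈ charFns d, Φ g =
      ∑ χ ∈ (univ : Finset (DirichletCharacter ℂ d)).filter (· ≠ 1), Φ (prFun χ) := by
  rw [charFns_eq, Finset.sum_image]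
  intro χ _ ψ _ h
  exact prFun_injective h

theorem exists_of_mem_charFns {d : ℕ} [NeZero d] {g : ℕ → ℂ} (hg : g ∈ charFns d) :
    ∃ χ : DirichletCharacter ℂ d, χ ≠ 1 ∧ prFun χ = g := by
  rw [charFns_eq, mem_image] at hg
  obtain ⟨χ, hχ, h⟩ := hg
  exact ⟨χ, (mem_filter.1 hχ).2, h⟩

theorem average_ge (D : Finset ℕ) (F N P w : ℕ)
    (hD : ∀ d ∈ D, 1 ≤ d ∧ d ≤ F ∧ #d.primeFactors ≤ w) (hF1 : 1 ≤ F) (hFN : F ^ 12 ≤ N)
    (hP : ∀ p : ℕ, p.Prime → #(D.filter (p ∣ ·)) ≤ P) :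
    #D * (total N - F * (w * Real.log N ^ 2)) - P * (6 * N * (1 + Real.log N) ^ 4) ≤
      ∑ d ∈ D, (d.totient : ℝ) * wsum N d := by
  have hN : 1 ≤ N := le_trans (Nat.one_le_pow _ _ hF1) hFN
  set s : Finset (ℕ → ℂ) := D.biUnion charFns with hs
  have hmem : ∀ g ∈ s, ∃ d, ∃ _ : NeZero d, d ∈ D ∧ ∃ χ : DirichletCharacter ℂ d,
      χ ≠ 1 ∧ prFun χ = g := by
    intro g hg
    rw [hs, mem_biUnion] at hg
    obtain ⟨d, hd, hg⟩ := hg
    have : NeZero d := ⟨by have := (hD d hd).1; omega⟩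
    exact ⟨d, this, hd, exists_of_mem_charFns hg⟩
  have hcard : #s ≤ F ^ 2 := by
    have hsub : s ⊆ (Ioc 0 F).biUnion allFns := by
      intro g hg
      obtain ⟨d, hd0, hd, χ, hχ, rfl⟩ := hmem g hg
      rw [mem_biUnion]
      have hc0 : χ.conductor ≠ 0 := DirichletCharacter.conductor_ne_zero χ
      have : NeZero χ.conductor := ⟨hc0⟩
      refine ⟨χ.conductor, ?_, ?_⟩
      · rw [mem_Ioc]
        refine ⟨Nat.pos_of_ne_zero hc0, ?_⟩
        exact (Nat.le_of_dvd (hD d hd).1 χ.conductor_dvd_level).trans (hD d hd).2.1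
      · rw [allFns_eq, mem_image]
        exact ⟨χ.primitiveCharacter, mem_univ _, rfl⟩
    calc #s ≤ #((Ioc 0 F).biUnion allFns) := card_le_card hsub
      _ ≤ ∑ f ∈ Ioc 0 F, #(allFns f) := card_biUnion_le
      _ ≤ ∑ f ∈ Ioc 0 F, F := Finset.sum_le_sum fun f hf =>
          (card_allFns_le f).trans (mem_Ioc.1 hf).2
      _ = F ^ 2 := by rw [Finset.sum_const, Nat.card_Ioc, smul_eq_mul, Nat.sub_zero, sq]
  have hMV : ∑ g ∈ s, ‖smoothSum N g‖ ≤ 6 * N * (1 + Real.log N) ^ 4 := by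
    refine mean_value s (fun g => g) F N hF1 hFN hcard ?_ ?_ ?_ ?_
    · intro g hg n
      obtain ⟨d, _, _, χ, _, rfl⟩ := hmem g hg
      exact norm_chFun_le _ n
    · intro g hg m n
      obtain ⟨d, _, _, χ, _, rfl⟩ := hmem g hg
      exact chFun_mul _ m n
    · intro g hg k
      obtain ⟨d, _, hd, χ, hχ, rfl⟩ := hmem g hg
      refine (norm_sum_prFun_le χ hχ k).trans ?_
      exact_mod_cast (hD d hd).2.1
    · intro g hg h hh hne M
      obtain ⟨d, _, hd, χ, hχ, rfl⟩ := hmem g hg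
      obtain ⟨e, _, he, ψ, hψ, rfl⟩ := hmem h hh
      refine (norm_sum_prFun_conj_le χ ψ hne M).trans ?_
      have h1 : (d : ℝ) ≤ F := by exact_mod_cast (hD d hd).2.1
      have h2 : (e : ℝ) ≤ F := by exact_mod_cast (hD e he).2.1
      rw [sq]
      exact mul_le_mul h1 h2 (Nat.cast_nonneg _) (Nat.cast_nonneg _)
  -- multiplicity
  have hmult : ∀ g ∈ s, #(D.filter (fun d => g ∈ charFns d)) ≤ P := by
    intro g hg
    obtain ⟨d, _, hd, χ, hχ, rfl⟩ := hmem g hg
    obtain ⟨p, hp, hpc⟩ := Nat.exists_prime_and_dvd (conductor_ne_one χ hχ)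
    have hzero : prFun χ p = 0 := by
      refine (chFun_eq_zero_iff _ _).2 ?_
      rw [Nat.Prime.coprime_iff_not_dvd hp]
      exact not_not.2 hpc
    refine (card_le_card ?_).trans (hP p hp)
    intro e he
    rw [mem_filter] at he ⊢
    refine ⟨he.1, ?_⟩
    have : NeZero e := ⟨by have := (hD e he.1).1; omega⟩
    obtain ⟨ψ, _, hψ⟩ := exists_of_mem_charFns he.2
    rw [← hψ] at hzero
    have h1 := (chFun_eq_zero_iff _ _).1 hzero
    rw [Nat.Prime.coprime_iff_not_dvd hp, not_not] at h1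
    exact h1.trans ψ.conductor_dvd_level
  have hdouble : ∑ d ∈ D, ∑ g ∈ charFns d, ‖smoothSum N g‖ ≤
      P * (6 * N * (1 + Real.log N) ^ 4) := by
    calc ∑ d ∈ D, ∑ g ∈ charFns d, ‖smoothSum N g‖
        = ∑ d ∈ D, ∑ g ∈ s, (if g ∈ charFns d then ‖smoothSum N g‖ else 0) := by
          refine Finset.sum_congr rfl fun d hd => ?_
          rw [← Finset.sum_filter]
          refine Finset.sum_congr ?_ fun _ _ => rfl
          ext g
          rw [mem_filter]
          refine ⟨fun h => ⟨mem_biUnion.2 ⟨d, hd, h⟩, h⟩, fun h => h.2⟩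
      _ = ∑ g ∈ s, #(D.filter (fun d => g ∈ charFns d)) * ‖smoothSum N g‖ := by
          rw [Finset.sum_comm]
          refine Finset.sum_congr rfl fun g _ => ?_
          rw [← Finset.sum_filter, Finset.sum_const, nsmul_eq_mul]
      _ ≤ ∑ g ∈ s, (P : ℝ) * ‖smoothSum N g‖ := by
          refine Finset.sum_le_sum fun g hg => ?_
          refine mul_le_mul_of_nonneg_right ?_ (norm_nonneg _)
          exact_mod_cast hmult g hg
      _ = P * ∑ g ∈ s, ‖smoothSum N g‖ := by rw [Finset.mul_sum]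
      _ ≤ P * (6 * N * (1 + Real.log N) ^ 4) :=
          mul_le_mul_of_nonneg_left hMV (Nat.cast_nonneg P)
  have hone : ∀ d ∈ D, total N - F * (w * Real.log N ^ 2) -
      ∑ g ∈ charFns d, ‖smoothSum N g‖ ≤ (d.totient : ℝ) * wsum N d := by
    intro d hd
    obtain ⟨h1, h2, h3⟩ := hD d hd
    have : NeZero d := ⟨by omega⟩
    have h4 := totient_mul_wsum_ge (d := d) N hN
    rw [sum_charFns]
    have h5 : (d : ℝ) * (#d.primeFactors * Real.log N ^ 2) ≤ F * (w * Real.log N ^ 2) := by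
      have a1 : (d : ℝ) ≤ F := by exact_mod_cast h2
      have a2 : (#d.primeFactors : ℝ) ≤ w := by exact_mod_cast h3
      exact mul_le_mul a1 (mul_le_mul_of_nonneg_right a2 (sq_nonneg _)) (by positivity)
        (by positivity)
    linarith
  calc #D * (total N - F * (w * Real.log N ^ 2)) - P * (6 * N * (1 + Real.log N) ^ 4)
      ≤ #D * (total N - F * (w * Real.log N ^ 2)) - ∑ d ∈ D, ∑ g ∈ charFns d, ‖smoothSum N g‖ := by
        linarith
    _ = ∑ d ∈ D, (total N - F * (w * Real.log N ^ 2) - ∑ g ∈ charFns d, ‖smoothSum N g‖) := by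
        rw [Finset.sum_sub_distrib, Finset.sum_const, nsmul_eq_mul]
    _ ≤ ∑ d ∈ D, (d.totient : ℝ) * wsum N d := Finset.sum_le_sum hone

end Pool.Agent.Helper2
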