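import Pool.Agent.Helper2.Bilinear

namespace Pool.Agent.Helper2

open Finset Complex MeasureTheory
open scoped BigOperators ComplexConjugate

theorem filter_log_le (N : ℕ) (t : ℝ) (ht : t ≤ Real.log N) (hN : 1 ≤ N) :
    (Ioc 0 N).filter (fun m : ℕ => Real.log m ≤ t) = Ioc 0 ⌊Real.exp t⌋₊ := by
  ext m
  rw [mem_filter, mem_Ioc, mem_Ioc]
  have hNpos : (0 : ℝ) < N := by exact_mod_cast hN
  constructor
  · rintro ⟨⟨h1, _⟩, h3⟩
    refine ⟨h1, ?_⟩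
    have hm : (0 : ℝ) < m := by exact_mod_cast h1
    exact Nat.le_floor ((Real.log_le_iff_le_exp hm).1 h3)
  · rintro ⟨h1, h2⟩
    have hm : (0 : ℝ) < m := by exact_mod_cast h1
    have h3 : (m : ℝ) ≤ Real.exp t := (Nat.le_floor_iff (Real.exp_pos t).le).1 h2
    have h4 : (m : ℝ) ≤ N := by
      calc (m : ℝ) ≤ Real.exp t := h3
        _ ≤ Real.exp (Real.log N) := Real.exp_le_exp.2 ht
        _ = N := Real.exp_log hNpos
    exact ⟨⟨h1, by exact_mod_cast h4⟩, (Real.log_le_iff_le_exp hm).2 h3⟩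

/-- L2 bound for truncated sums -/
theorem sq_bound {ι : Type*} [DecidableEq ι] (s : Finset ι) (c : ι → ℕ → ℂ) (K : ℝ) (hK : 0 ≤ K)
    (h1 : ∀ i ∈ s, ∀ n, ‖c i n‖ ≤ 1)
    (h2 : ∀ i ∈ s, ∀ j ∈ s, i ≠ j → ∀ M, ‖∑ n ∈ Ioc 0 M, c i n * conj (c j n)‖ ≤ K)
    (U : ℝ) (hU : K * #s ≤ U) (a : ℕ → ℂ) (ha : ∀ m : ℕ, (m : ℝ) ≤ U → a m = 0)
    (α : ℝ) (hα : 0 ≤ α) (M : ℕ) (hM : ∑ m ∈ Ioc 0 M, ‖a m‖ ^ 2 ≤ α * M) :
    ∑ i ∈ s, ‖∑ m ∈ Ioc 0 M, a m * c i m‖ ^ 2 ≤ 2 * α * (M : ℝ) ^ 2 := by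
  by_cases hMU : (M : ℝ) ≤ U
  · have : ∀ i ∈ s, ‖∑ m ∈ Ioc 0 M, a m * c i m‖ ^ 2 = 0 := by
      intro i _
      have : ∑ m ∈ Ioc 0 M, a m * c i m = 0 := by
        refine Finset.sum_eq_zero fun m hm => ?_
        rw [ha m, zero_mul]
        have := (mem_Ioc.1 hm).2
        have h3 : (m : ℝ) ≤ M := by exact_mod_cast this
        exact h3.trans hMU
      rw [this]; simp
    rw [Finset.sum_eq_zero this]
    positivity
  · push Not at hMU
    have h3 := large_sieve s (Ioc 0 M) c K hK (fun i hi n _ => h1 i hi n)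
      (fun i hi j hj hij => h2 i hi j hj hij M) a
    refine h3.trans ?_
    have hM0 : (0 : ℝ) ≤ M := Nat.cast_nonneg M
    have h4 : ((#(Ioc 0 M) : ℕ) : ℝ) + K * #s ≤ 2 * M := by
      rw [Nat.card_Ioc, Nat.sub_zero]
      linarith
    have h5 : 0 ≤ ∑ m ∈ Ioc 0 M, ‖a m‖ ^ 2 := Finset.sum_nonneg fun _ _ => sq_nonneg _
    calc (((#(Ioc 0 M) : ℕ) : ℝ) + K * #s) * ∑ m ∈ Ioc 0 M, ‖a m‖ ^ 2
        ≤ (2 * M) * ∑ m ∈ Ioc 0 M, ‖a m‖ ^ 2 := mul_le_mul_of_nonneg_right h4 h5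
      _ ≤ (2 * M) * (α * M) := mul_le_mul_of_nonneg_left hM (by positivity)
      _ = 2 * α * (M : ℝ) ^ 2 := by ring

theorem sum_ite_eq_filter (N : ℕ) (f : ℕ → ℂ) (P : ℕ → Prop) [DecidablePred P] :
    ∑ m ∈ Ioc 0 N, (if P m then f m else 0) = ∑ m ∈ (Ioc 0 N).filter P, f m := by
  rw [Finset.sum_filter]

/-- the bilinear bound -/
theorem bilinear_bound {ι : Type*} [DecidableEq ι] (s : Finset ι) (c : ι → ℕ → ℂ) (K : ℝ)
    (hK : 0 ≤ K) (h1 : ∀ i ∈ s, ∀ n, ‖c i n‖ ≤ 1)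
    (h2 : ∀ i ∈ s, ∀ j ∈ s, i ≠ j → ∀ M, ‖∑ n ∈ Ioc 0 M, c i n * conj (c j n)‖ ≤ K)
    (U : ℝ) (hU : K * #s ≤ U) (a b : ℕ → ℂ) (ha : ∀ m : ℕ, (m : ℝ) ≤ U → a m = 0)
    (hb : ∀ m : ℕ, (m : ℝ) ≤ U → b m = 0)
    (α β : ℝ) (hα : 0 ≤ α) (hβ : 0 ≤ β) (N : ℕ) (hN : 1 ≤ N)
    (haM : ∀ M ≤ N, ∑ m ∈ Ioc 0 M, ‖a m‖ ^ 2 ≤ α * M)
    (hbM : ∀ M ≤ N, ∑ m ∈ Ioc 0 M, ‖b m‖ ^ 2 ≤ β * M) :
    ∑ i ∈ s, ‖∑ m ∈ Ioc 0 N, ∑ r ∈ Ioc 0 N, a m * b r * (c i m * c i r) *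
      ((Real.posLog ((N : ℝ) / ((m : ℝ) * r)) : ℝ) : ℂ)‖ ≤
      2 * N * Real.sqrt (α * β) * Real.log N := by
  set L : ℝ := Real.log N with hL
  have hL0 : 0 ≤ L := Real.log_natCast_nonneg N
  have hNpos : (0 : ℝ) < N := by exact_mod_cast hN
  set A : ι → ℝ → ℂ := fun i t => ∑ m ∈ Ioc 0 N, (if Real.log m ≤ t then a m * c i m else 0)
    with hA
  set B : ι → ℝ → ℂ := fun i t => ∑ r ∈ Ioc 0 N, (if Real.log r ≤ L - t then b r * c i r else 0)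
    with hB
  have hint : ∀ (x y : ℝ) (z : ℂ), IntegrableOn
      (fun t : ℝ => if x ≤ t ∧ y ≤ L - t then z else 0) (Set.Icc 0 L) := by
    intro x y z
    have e : (fun t : ℝ => if x ≤ t ∧ y ≤ L - t then z else 0) =
        Set.indicator (Set.Icc x (L - y)) (fun _ => z) := by
      funext t
      rw [Set.indicator_apply]
      have : (x ≤ t ∧ y ≤ L - t) ↔ t ∈ Set.Icc x (L - y) := by
        rw [Set.mem_Icc]
        constructor
        · rintro ⟨h1, h2⟩; exact ⟨h1, by linarith⟩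
        · rintro ⟨h1, h2⟩; exact ⟨h1, by linarith⟩
      simp only [this]
    rw [e]
    refine IntegrableOn.indicator ?_ measurableSet_Icc
    exact integrableOn_const (by simp)
  have hAB : ∀ i t, A i t * B i t = ∑ m ∈ Ioc 0 N, ∑ r ∈ Ioc 0 N,
      (if Real.log m ≤ t ∧ Real.log r ≤ L - t then a m * b r * (c i m * c i r) else 0) := by
    intro i t
    simp only [hA, hB]
    rw [Finset.sum_mul_sum]
    refine Finset.sum_congr rfl fun m _ => Finset.sum_congr rfl fun r _ => ?_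
    by_cases h3 : Real.log m ≤ t <;> by_cases h4 : Real.log r ≤ L - t <;> simp [h3, h4]
    ring
  have hABint : ∀ i, IntegrableOn (fun t => A i t * B i t) (Set.Icc 0 L) := by
    intro i
    simp only [hAB]
    refine integrable_finsetSum _ fun m _ => integrable_finsetSum _ fun r _ => ?_
    exact hint _ _ _
  have hT : ∀ i, ∑ m ∈ Ioc 0 N, ∑ r ∈ Ioc 0 N, a m * b r * (c i m * c i r) *
      ((Real.posLog ((N : ℝ) / ((m : ℝ) * r)) : ℝ) : ℂ) = ∫ t in Set.Icc 0 L, A i t * B i t := by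
    intro i
    simp only [hAB]
    rw [integral_finsetSum _ fun m _ => integrable_finsetSum _ fun r _ => hint _ _ _]
    refine Finset.sum_congr rfl fun m hm => ?_
    rw [integral_finsetSum _ fun r _ => hint _ _ _]
    refine Finset.sum_congr rfl fun r hr => ?_
    rw [← posLog_eq_integral N m r hN (mem_Ioc.1 hm).1 (mem_Ioc.1 hr).1]
    rw [← integral_complex_ofReal, ← integral_const_mul]
    refine integral_congr_ae (Filter.Eventually.of_forall fun t => ?_)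
    simp only [← hL]
    by_cases h3 : Real.log m ≤ t ∧ Real.log r ≤ L - t
    · rw [if_pos h3, if_pos h3]; simp
    · rw [if_neg h3, if_neg h3]; simp
  have hpt : ∀ t ∈ Set.Icc 0 L, ∑ i ∈ s, ‖A i t * B i t‖ ≤ 2 * N * Real.sqrt (α * β) := by
    intro t ht
    have ht1 : t ≤ Real.log N := ht.2
    have ht2 : L - t ≤ Real.log N := by rw [← hL]; linarith [ht.1]
    have eA : ∀ i, A i t = ∑ m ∈ Ioc 0 ⌊Real.exp t⌋₊, a m * c i m := by
      intro i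
      simp only [hA]
      rw [sum_ite_eq_filter, filter_log_le N t ht1 hN]
    have eB : ∀ i, B i t = ∑ m ∈ Ioc 0 ⌊Real.exp (L - t)⌋₊, b m * c i m := by
      intro i
      simp only [hB]
      rw [sum_ite_eq_filter, filter_log_le N (L - t) ht2 hN]
    have hfl : ∀ u : ℝ, u ≤ Real.log N → ⌊Real.exp u⌋₊ ≤ N := by
      intro u hu
      have : Real.exp u ≤ N := by
        calc Real.exp u ≤ Real.exp (Real.log N) := Real.exp_le_exp.2 hu
          _ = N := Real.exp_log hNpos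
      exact Nat.floor_le_of_le this
    have sA : ∑ i ∈ s, ‖A i t‖ ^ 2 ≤ 2 * α * (Real.exp t) ^ 2 := by
      simp only [eA]
      refine (sq_bound s c K hK h1 h2 U hU a ha α hα _ (haM _ (hfl t ht1))).trans ?_
      have h5 : ((⌊Real.exp t⌋₊ : ℕ) : ℝ) ≤ Real.exp t := Nat.floor_le (Real.exp_pos t).le
      have h6 : (0 : ℝ) ≤ ((⌊Real.exp t⌋₊ : ℕ) : ℝ) := Nat.cast_nonneg _
      have : ((⌊Real.exp t⌋₊ : ℕ) : ℝ) ^ 2 ≤ (Real.exp t) ^ 2 := pow_le_pow_left₀ h6 h5 2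
      exact mul_le_mul_of_nonneg_left this (by positivity)
    have sB : ∑ i ∈ s, ‖B i t‖ ^ 2 ≤ 2 * β * (Real.exp (L - t)) ^ 2 := by
      simp only [eB]
      refine (sq_bound s c K hK h1 h2 U hU b hb β hβ _ (hbM _ (hfl (L - t) ht2))).trans ?_
      have h5 : ((⌊Real.exp (L - t)⌋₊ : ℕ) : ℝ) ≤ Real.exp (L - t) :=
        Nat.floor_le (Real.exp_pos _).le
      have h6 : (0 : ℝ) ≤ ((⌊Real.exp (L - t)⌋₊ : ℕ) : ℝ) := Nat.cast_nonneg _
      have : ((⌊Real.exp (L - t)⌋₊ : ℕ) : ℝ) ^ 2 ≤ (Real.exp (L - t)) ^ 2 :=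
        pow_le_pow_left₀ h6 h5 2
      exact mul_le_mul_of_nonneg_left this (by positivity)
    have h7 : (∑ i ∈ s, ‖A i t‖ * ‖B i t‖) ^ 2 ≤ (2 * N * Real.sqrt (α * β)) ^ 2 := by
      refine (Finset.sum_mul_sq_le_sq_mul_sq s _ _).trans ?_
      have hexp : Real.exp t * Real.exp (L - t) = N := by
        rw [← Real.exp_add, add_sub_cancel, hL, Real.exp_log hNpos]
      calc (∑ i ∈ s, ‖A i t‖ ^ 2) * ∑ i ∈ s, ‖B i t‖ ^ 2
          ≤ (2 * α * (Real.exp t) ^ 2) * (2 * β * (Real.exp (L - t)) ^ 2) :=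
            mul_le_mul sA sB (Finset.sum_nonneg fun _ _ => sq_nonneg _) (by positivity)
        _ = 4 * (α * β) * (Real.exp t * Real.exp (L - t)) ^ 2 := by ring
        _ = (2 * N * Real.sqrt (α * β)) ^ 2 := by
            rw [hexp, mul_pow, mul_pow, Real.sq_sqrt (by positivity)]; ring
    simp only [norm_mul]
    exact le_of_sq_le_sq h7 (by positivity)
  calc ∑ i ∈ s, ‖∑ m ∈ Ioc 0 N, ∑ r ∈ Ioc 0 N, a m * b r * (c i m * c i r) *
      ((Real.posLog ((N : ℝ) / ((m : ℝ) * r)) : ℝ) : ℂ)‖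
      = ∑ i ∈ s, ‖∫ t in Set.Icc 0 L, A i t * B i t‖ := by
        refine Finset.sum_congr rfl fun i _ => ?_
        rw [hT i]
    _ ≤ ∑ i ∈ s, ∫ t in Set.Icc 0 L, ‖A i t * B i t‖ :=
        Finset.sum_le_sum fun i _ => norm_integral_le_integral_norm _
    _ = ∫ t in Set.Icc 0 L, ∑ i ∈ s, ‖A i t * B i t‖ := by
        rw [integral_finsetSum _ fun i _ => (hABint i).norm]
    _ ≤ ∫ _t in Set.Icc 0 L, (2 * N * Real.sqrt (α * β)) := by
        refine setIntegral_mono_on ?_ (integrableOn_const (by simp)) measurableSet_Icc hpt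
        exact integrable_finsetSum _ fun i _ => (hABint i).norm
    _ = 2 * N * Real.sqrt (α * β) * L := by
        rw [setIntegral_const, Real.volume_real_Icc, smul_eq_mul]
        rw [max_eq_left (by linarith)]
        ring

end Pool.Agent.Helper2
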