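import Pool.Agent.Helper2.Levels

namespace Pool.Agent.Helper2

open Finset
open scoped BigOperators

theorem exp_pow_le (m : ℕ) (hm : 100000 ≤ m) (a : ℕ) : Real.exp (a : ℝ) ≤ (m : ℝ) ^ a := by
  have hmr : (100000 : ℝ) ≤ m := by exact_mod_cast hm
  have h1 : Real.exp (a : ℝ) = Real.exp 1 ^ a := by
    rw [← Real.exp_nat_mul, mul_one]
  rw [h1]
  refine pow_le_pow_left₀ (Real.exp_pos 1).le ?_ a
  linarith [Real.exp_one_lt_d9]

/-- For every large `m` there is a composite `n ≥ m` with at least `n (1 - 1/m)` Fermat liars. -/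
theorem many_liars (m : ℕ) (hm : 100000 ≤ m) : ∃ n : ℕ, m < n ∧ ¬ n.Prime ∧
    (n : ℝ) * (1 - 1 / m) ≤ (#((range n).filter (fun a => a ^ (n - 1) ≡ 1 [MOD n])) : ℝ) := by
  classical
  have hmr : (100000 : ℝ) ≤ m := by exact_mod_cast hm
  have hm1 : (1 : ℝ) ≤ m := by linarith
  obtain ⟨Q, M, y, hM1, hM2, hQ, hS, hSy, hlogy⟩ := level_one m hm
  set u : ℕ := m ^ 14 with hu
  have hu1 : m ≤ u := Nat.le_self_pow (by norm_num) m
  have hur : (u : ℝ) = (m : ℝ) ^ 14 := by rw [hu]; push_cast; ring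
  have hQ' : ∀ q ∈ Q, q.Prime ∧ y ≤ q ∧ q ≤ 4 * y := fun q hq =>
    ⟨(hQ q hq).1, (hQ q hq).2.1, (hQ q hq).2.2.1⟩
  -- sizes
  have hS85 : m ^ 85 ≤ #Q := le_trans (Nat.pow_le_pow_right (by omega) (by omega)) hS
  have hmy : m ^ 85 ≤ y := hS85.trans hSy
  have hm85 : m ≤ m ^ 85 := Nat.le_self_pow (by norm_num) m
  have hy1 : 1 ≤ y := by omega
  have hlogN : Real.log ((((4 * y) ^ u) ^ 12 : ℕ) : ℝ) ≤ 24 * (m : ℝ) ^ 16 := by
    have : Real.log ((((4 * y) ^ u) ^ 12 : ℕ) : ℝ) = 12 * (u * Real.log ((4 * y : ℕ) : ℝ)) := by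
      rw [Nat.cast_pow, Nat.cast_pow, Real.log_pow, Real.log_pow]
      norm_num
    rw [this, hur]
    calc 12 * ((m : ℝ) ^ 14 * Real.log ((4 * y : ℕ) : ℝ)) ≤ 12 * ((m : ℝ) ^ 14 * (2 * (m : ℝ) ^ 2)) := by
          gcongr
      _ = 24 * (m : ℝ) ^ 16 := by ring
  have hlogN' : 1 + Real.log ((((4 * y) ^ u) ^ 12 : ℕ) : ℝ) ≤ (m : ℝ) ^ 17 := by
    have e1 : (1 : ℝ) ≤ (m : ℝ) ^ 16 := one_le_pow₀ hm1
    have e2 : 25 * (m : ℝ) ^ 16 ≤ m * (m : ℝ) ^ 16 :=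
      mul_le_mul_of_nonneg_right (by linarith) (by positivity)
    have e3 : (m : ℝ) * (m : ℝ) ^ 16 = (m : ℝ) ^ 17 := by ring
    linarith
  have hlogN0 : 0 ≤ 1 + Real.log ((((4 * y) ^ u) ^ 12 : ℕ) : ℝ) := by
    have := Real.log_natCast_nonneg (((4 * y) ^ u) ^ 12)
    linarith
  have hSr : (m : ℝ) ^ 85 ≤ (#Q : ℝ) := by exact_mod_cast hS85
  have hyr : (m : ℝ) ^ 85 ≤ (y : ℝ) := by exact_mod_cast hmy
  have c1 : 60 ≤ (4 * y) ^ u := by
    calc 60 ≤ 4 * y := by omega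
      _ ≤ (4 * y) ^ u := Nat.le_self_pow (by omega) _
  have c2 : 100 * (u : ℝ) * (1 + Real.log ((((4 * y) ^ u) ^ 12 : ℕ) : ℝ)) ^ 2 ≤ (y : ℝ) := by
    have h1 : (1 + Real.log ((((4 * y) ^ u) ^ 12 : ℕ) : ℝ)) ^ 2 ≤ ((m : ℝ) ^ 17) ^ 2 :=
      pow_le_pow_left₀ hlogN0 hlogN' 2
    rw [hur]
    calc 100 * (m : ℝ) ^ 14 * (1 + Real.log ((((4 * y) ^ u) ^ 12 : ℕ) : ℝ)) ^ 2
        ≤ 100 * (m : ℝ) ^ 14 * ((m : ℝ) ^ 17) ^ 2 := mul_le_mul_of_nonneg_left h1 (by positivity)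
      _ = 100 * (m : ℝ) ^ 48 := by ring
      _ ≤ m * (m : ℝ) ^ 48 := mul_le_mul_of_nonneg_right (by linarith) (by positivity)
      _ = (m : ℝ) ^ 49 := by ring
      _ ≤ (m : ℝ) ^ 85 := pow_le_pow_right₀ hm1 (by norm_num)
      _ ≤ (y : ℝ) := hyr
  have c3 : 600 * (u : ℝ) * (1 + Real.log ((((4 * y) ^ u) ^ 12 : ℕ) : ℝ)) ^ 4 ≤ (#Q : ℝ) := by
    have h1 : (1 + Real.log ((((4 * y) ^ u) ^ 12 : ℕ) : ℝ)) ^ 4 ≤ ((m : ℝ) ^ 17) ^ 4 :=
      pow_le_pow_left₀ hlogN0 hlogN' 4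
    rw [hur]
    calc 600 * (m : ℝ) ^ 14 * (1 + Real.log ((((4 * y) ^ u) ^ 12 : ℕ) : ℝ)) ^ 4
        ≤ 600 * (m : ℝ) ^ 14 * ((m : ℝ) ^ 17) ^ 4 := mul_le_mul_of_nonneg_left h1 (by positivity)
      _ = 600 * (m : ℝ) ^ 82 := by ring
      _ ≤ m * (m : ℝ) ^ 82 := mul_le_mul_of_nonneg_right (by linarith) (by positivity)
      _ = (m : ℝ) ^ 83 := by ring
      _ ≤ (m : ℝ) ^ 85 := pow_le_pow_right₀ hm1 (by norm_num)
      _ ≤ (#Q : ℝ) := hSr
  obtain ⟨k, j, hk1, hk2, hkj⟩ := key_products Q y u hy1 (by omega) hQ' c1 c2 c3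
  set N : ℕ := ((4 * y) ^ u) ^ 12 with hN
  set L : ℕ := ∏ q ∈ Q, q with hL
  -- X = M log L + 1 is small
  have hlogL : Real.log (L : ℝ) ≤ Real.exp (2 * (m : ℝ) ^ 2) * (2 * (m : ℝ) ^ 2) := by
    have e1 : Real.log (L : ℝ) = ∑ q ∈ Q, Real.log (q : ℝ) := by
      rw [hL]; push_cast
      rw [Real.log_prod]
      intro q hq
      have := (hQ q hq).1.pos
      positivity
    have e2 : (#Q : ℝ) ≤ Real.exp (2 * (m : ℝ) ^ 2) := by
      have h4y : (0 : ℝ) < ((4 * y : ℕ) : ℝ) := by exact_mod_cast (by omega : 0 < 4 * y)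
      have h5 : ((4 * y : ℕ) : ℝ) ≤ Real.exp (2 * (m : ℝ) ^ 2) :=
        (Real.log_le_iff_le_exp h4y).1 hlogy
      refine le_trans ?_ h5
      exact_mod_cast (by omega : #Q ≤ 4 * y)
    rw [e1]
    calc ∑ q ∈ Q, Real.log (q : ℝ) ≤ ∑ _q ∈ Q, (2 * (m : ℝ) ^ 2) := by
          refine sum_le_sum fun q hq => le_trans (Real.log_le_log ?_ ?_) hlogy
          · exact_mod_cast (hQ q hq).1.pos
          · exact_mod_cast (hQ q hq).2.2.1
      _ = #Q * (2 * (m : ℝ) ^ 2) := by rw [sum_const, nsmul_eq_mul]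
      _ ≤ _ := mul_le_mul_of_nonneg_right e2 (by positivity)
  have hX : (M : ℝ) * Real.log (L : ℝ) + 1 ≤ (m : ℝ) ^ (u + 2 * m ^ 2 + 4) := by
    have e1 : (M : ℝ) ≤ (m : ℝ) ^ u := by
      refine hM2.trans ?_
      rw [← hur]
      exact exp_pow_le m hm u
    have e2 : Real.exp (2 * (m : ℝ) ^ 2) ≤ (m : ℝ) ^ (2 * m ^ 2) := by
      have := exp_pow_le m hm (2 * m ^ 2)
      push_cast at this
      exact this
    have e3 : Real.log (L : ℝ) ≤ (m : ℝ) ^ (2 * m ^ 2) * (m : ℝ) ^ 3 := by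
      refine hlogL.trans (mul_le_mul e2 ?_ (by positivity) (by positivity))
      calc 2 * (m : ℝ) ^ 2 ≤ m * (m : ℝ) ^ 2 :=
            mul_le_mul_of_nonneg_right (by linarith) (by positivity)
        _ = (m : ℝ) ^ 3 := by ring
    have e4 : (M : ℝ) * Real.log (L : ℝ) ≤ (m : ℝ) ^ (u + 2 * m ^ 2 + 3) := by
      calc (M : ℝ) * Real.log (L : ℝ) ≤ (m : ℝ) ^ u * ((m : ℝ) ^ (2 * m ^ 2) * (m : ℝ) ^ 3) :=
            mul_le_mul e1 e3 (Real.log_natCast_nonneg _) (by positivity)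
        _ = (m : ℝ) ^ (u + 2 * m ^ 2 + 3) := by
            rw [← pow_add, ← pow_add]; congr 1
    have e5 : (1 : ℝ) ≤ (m : ℝ) ^ (u + 2 * m ^ 2 + 3) := one_le_pow₀ hm1
    have e6 : 2 * (m : ℝ) ^ (u + 2 * m ^ 2 + 3) ≤ (m : ℝ) ^ (u + 2 * m ^ 2 + 4) := by
      have e7 : (m : ℝ) ^ (u + 2 * m ^ 2 + 4) = m * (m : ℝ) ^ (u + 2 * m ^ 2 + 3) := by
        rw [← pow_succ']
      rw [e7]
      exact mul_le_mul_of_nonneg_right (by linarith) (by positivity)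
    linarith
  -- the fibre is large
  have hexpo : 2 * u + 2 * m ^ 2 + 57 < 7 * m * u := by
    have e1 : m ^ 2 ≤ u := Nat.pow_le_pow_right (by omega) (by norm_num)
    have e2 : 7 * u ≤ 7 * m * u := Nat.mul_le_mul_right u (by omega)
    have e3 : 57 ≤ u := by omega
    have e4 : 0 < u := by omega
    have e5 : 7 * 1 * u < 7 * m * u := by
      refine Nat.mul_lt_mul_of_pos_right ?_ e4
      omega
    omega
  have hFib : (M : ℝ) * Real.log (L : ℝ) < (#(Fib (prods Q u) N k j) : ℝ) := by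
    by_contra hcon
    push Not at hcon
    have h1 : (m ^ (7 * m)) ^ u ≤ (#Q).choose u := by
      refine choose_ge _ _ _ ?_
      have e0 : u ≤ m ^ (7 * m) * u := Nat.le_mul_of_pos_left u (by positivity)
      have : m ^ (7 * m) * u + u ≤ m ^ (8 * m) := by
        calc m ^ (7 * m) * u + u ≤ 2 * (m ^ (7 * m) * u) := by omega
          _ ≤ m * (m ^ (7 * m) * u) := Nat.mul_le_mul_right _ (by omega)
          _ = m ^ (7 * m + 15) := by rw [hu]; ring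
          _ ≤ m ^ (8 * m) := Nat.pow_le_pow_right (by omega) (by omega)
      omega
    have h2 : (m : ℝ) ^ (7 * m * u) ≤ ((#Q).choose u : ℝ) := by
      rw [pow_mul]; exact_mod_cast h1
    have h3 : (1 + Real.log (N : ℝ)) ^ 3 ≤ ((m : ℝ) ^ 17) ^ 3 :=
      pow_le_pow_left₀ hlogN0 hlogN' 3
    have h4 : (4 : ℝ) ^ u ≤ (m : ℝ) ^ u := pow_le_pow_left₀ (by norm_num) (by linarith) u
    have h5 : (m : ℝ) ^ (7 * m * u) ≤ (m : ℝ) ^ (2 * u + 2 * m ^ 2 + 56) := by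
      calc (m : ℝ) ^ (7 * m * u) ≤ ((#Q).choose u : ℝ) := h2
        _ ≤ 20 * 4 ^ u * (1 + Real.log (N : ℝ)) ^ 3 * (#(Fib (prods Q u) N k j) : ℝ) := hkj
        _ ≤ m * (m : ℝ) ^ u * ((m : ℝ) ^ 17) ^ 3 * (m : ℝ) ^ (u + 2 * m ^ 2 + 4) := by
            gcongr
            · linarith
            · linarith
        _ = (m : ℝ) ^ (2 * u + 2 * m ^ 2 + 56) := by ring
    have h6 : (m : ℝ) ^ (2 * u + 2 * m ^ 2 + 56) < (m : ℝ) ^ (7 * m * u) :=
      pow_lt_pow_right₀ (by linarith) (by omega)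
    linarith
  -- the modulus exceeds N
  have hNL : N < L := by
    have e1 : N ≤ y ^ (24 * u) := by
      calc N ≤ ((y ^ 2) ^ u) ^ 12 := by
            rw [hN]
            refine Nat.pow_le_pow_left (Nat.pow_le_pow_left ?_ u) 12
            nlinarith
        _ = y ^ (24 * u) := by rw [← pow_mul, ← pow_mul]; congr 1; ring
    have e2 : 24 * u < #Q := by
      calc 24 * u < m * u := Nat.mul_lt_mul_of_pos_right (by omega) (by omega)
        _ = m ^ 15 := by rw [hu]; ring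
        _ ≤ m ^ 85 := Nat.pow_le_pow_right (by omega) (by norm_num)
        _ ≤ #Q := hS85
    have e3 : y ^ #Q ≤ L := by
      calc y ^ #Q = ∏ _q ∈ Q, y := by rw [prod_const]
        _ ≤ ∏ q ∈ Q, q := prod_le_prod' fun q hq => (hQ q hq).2.1
    calc N ≤ y ^ (24 * u) := e1
      _ < y ^ #Q := Nat.pow_lt_pow_right (by omega) e2
      _ ≤ L := e3
  obtain ⟨n, hn1, hn2, hn3⟩ := assembly M hM1 Q y u k j N (by omega) (by omega) hQ'
    (fun q hq => (hQ q hq).2.2.2) hk1 hNL hFib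
  refine ⟨n, ?_, hn2, le_trans ?_ hn3⟩
  · have : y ≤ y ^ u := Nat.le_self_pow (by omega) y
    omega
  · refine mul_le_mul_of_nonneg_left ?_ (Nat.cast_nonneg n)
    have hypos : (0 : ℝ) < (y : ℝ) ^ u := by
      have : (0 : ℝ) < y := by exact_mod_cast hy1
      positivity
    have : ((M : ℝ) * Real.log (L : ℝ) + 1) / (y : ℝ) ^ u ≤ 1 / m := by
      rw [div_le_div_iff₀ hypos (by linarith)]
      have e0 : (m : ℝ) ^ (8 * m) ≤ y := by exact_mod_cast hS.trans hSy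
      have e1 : (m : ℝ) ^ (8 * m * u) ≤ (y : ℝ) ^ u := by
        rw [pow_mul]; exact pow_le_pow_left₀ (by positivity) e0 u
      have e2 : (m : ℝ) ^ (u + 2 * m ^ 2 + 5) ≤ (m : ℝ) ^ (8 * m * u) := by
        refine pow_le_pow_right₀ hm1 ?_
        have : 7 * m * u ≤ 8 * m * u := Nat.mul_le_mul_right u (by omega)
        omega
      calc ((M : ℝ) * Real.log (L : ℝ) + 1) * m ≤ (m : ℝ) ^ (u + 2 * m ^ 2 + 4) * m :=
            mul_le_mul_of_nonneg_right hX (by linarith)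
        _ = (m : ℝ) ^ (u + 2 * m ^ 2 + 5) := by ring
        _ ≤ 1 * (y : ℝ) ^ u := by linarith
    linarith

end Pool.Agent.Helper2
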