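import Pool.Agent.Helper48.HHG.A5
import Pool.Agent.Helper48.HHG.B5

/-!
One mapping class suffices: for a suitable product `g` of powers of the two Dehn twists about the
separating curves bounding the puncture, the normal closures of `g ^ (3 K)` and of
`{push gam ^ (3 K), t ^ (9 K)}` agree.
-/

universe u v

namespace MPb95792

/-- The swap of the two handles, as an endomorphism. -/
def swHom : SurfaceGroup →* SurfaceGroup :=
  surfaceLift ![gn 2, gn 3, gn 0, gn 1] (by
    change com (gn 2) (gn 3) * com (gn 0) (gn 1) = 1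
    rw [com_two_three]
    change gam⁻¹ * gam = 1
    group)

theorem swHom_zero' : swHom (gn 0) = gn 2 := surfaceLift_of _ _ 0

theorem swHom_one' : swHom (gn 1) = gn 3 := surfaceLift_of _ _ 1

theorem swHom_two' : swHom (gn 2) = gn 0 := surfaceLift_of _ _ 2

theorem swHom_three' : swHom (gn 3) = gn 1 := surfaceLift_of _ _ 3

theorem swHom_swHom : swHom.comp swHom = MonoidHom.id _ := by
  apply surface_hom_ext
  intro i
  fin_cases i
  · change swHom (swHom (gn 0)) = gn 0
    rw [swHom_zero', swHom_two']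
  · change swHom (swHom (gn 1)) = gn 1
    rw [swHom_one', swHom_three']
  · change swHom (swHom (gn 2)) = gn 2
    rw [swHom_two', swHom_zero']
  · change swHom (swHom (gn 3)) = gn 3
    rw [swHom_three', swHom_one']

/-- The swap of the two handles. -/
def SW : MulAut SurfaceGroup :=
  MonoidHom.toMulEquiv swHom swHom swHom_swHom swHom_swHom

theorem SW_apply (x : SurfaceGroup) : SW x = swHom x := rfl

theorem SW_mul_SW : SW * SW = 1 := by
  ext x
  change swHom (swHom x) = x
  exact DFunLike.congr_fun swHom_swHom x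

theorem SW_inv : SW⁻¹ = SW := inv_eq_of_mul_eq_one_left SW_mul_SW

theorem SW_gam : SW gam = gam⁻¹ := by
  rw [SW_apply]
  conv_lhs => rw [gam]
  rw [map_com, swHom_zero', swHom_one', com_two_three]

theorem SW_mem : SW ∈ MCG21 := by
  apply mem_MCG_of
  intro i j
  fin_cases i <;> fin_cases j <;>
    simp [inter, SW_apply, swHom_zero', swHom_one', swHom_two', swHom_three', ab_gn]

theorem SW_TT : SW * TT * SW⁻¹ = (MulAut.conj gam)⁻¹ * TT := by
  have h : (SW * TT * SW⁻¹).toMonoidHom = ((MulAut.conj gam)⁻¹ * TT).toMonoidHom := by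
    apply surface_hom_ext
    intro i
    change SW (TT (SW⁻¹ (gn i))) = (MulAut.conj gam)⁻¹ (TT (gn i))
    rw [SW_inv, MulAut.conj_inv_apply]
    fin_cases i
    · change SW (TT (swHom (gn 0))) = gam⁻¹ * TT (gn 0) * gam
      rw [swHom_zero', TT, twist_apply, twist_apply, twistHom_two', twistHom_zero', SW_apply,
        swHom_two', zpow_one]
      group
    · change SW (TT (swHom (gn 1))) = gam⁻¹ * TT (gn 1) * gam
      rw [swHom_one', TT, twist_apply, twist_apply, twistHom_three', twistHom_one', SW_apply,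
        swHom_three', zpow_one]
      group
    · change SW (TT (swHom (gn 2))) = gam⁻¹ * TT (gn 2) * gam
      rw [swHom_two', TT, twist_apply, twist_apply, twistHom_zero', twistHom_two', zpow_one,
        map_mul, map_mul, map_inv, SW_gam, SW_apply, swHom_zero', inv_inv]
    · change SW (TT (swHom (gn 3))) = gam⁻¹ * TT (gn 3) * gam
      rw [swHom_three', TT, twist_apply, twist_apply, twistHom_one', twistHom_three', zpow_one,
        map_mul, map_mul, map_inv, SW_gam, SW_apply, swHom_one', inv_inv]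
  ext x
  exact DFunLike.congr_fun h x

section

variable {M : Type u} [Group M]

/-- The group theory of the two normal closures. -/
theorem closure_eq_of_swap (p t w : M) (hpt : Commute t p) (hwt : w * t * w⁻¹ = p⁻¹ * t)
    (hwp : w * p * w⁻¹ = p⁻¹) (K : ℕ) :
    Subgroup.normalClosure ({(t ^ 3 * p⁻¹) ^ K} : Set M) =
      Subgroup.normalClosure ({p ^ K, t ^ (3 * K)} : Set M) := by
  have hc : Commute (t ^ 3) p⁻¹ := (hpt.pow_left 3).inv_right
  have hc2 : Commute p⁻¹ t := (hpt.inv_right).symm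
  have e1 : (t ^ 3 * p⁻¹) ^ K = t ^ (3 * K) * (p ^ K)⁻¹ := by
    rw [hc.mul_pow, ← pow_mul, inv_pow]
  have e2 : w * (t ^ 3 * p⁻¹) * w⁻¹ = t ^ 3 * p⁻¹ * p⁻¹ := by
    have h1 : w * (t ^ 3 * p⁻¹) * w⁻¹ = (w * t * w⁻¹) ^ 3 * (w * p * w⁻¹)⁻¹ := by
      rw [conj_pow, mul_inv_rev, mul_inv_rev, inv_inv]
      simp only [mul_assoc, inv_mul_cancel_left]
    rw [h1, hwt, hwp, hc2.mul_pow, ((hc2.pow_left 3).pow_right 3).eq, inv_inv, inv_pow,
      mul_assoc, mul_assoc]
    congr 1
    rw [pow_succ', mul_inv_rev, inv_mul_cancel_right, pow_two, mul_inv_rev]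
  have e3 : w * (t ^ 3 * p⁻¹) ^ K * w⁻¹ = t ^ (3 * K) * (p ^ K)⁻¹ * (p ^ K)⁻¹ := by
    have hc3 : Commute (t ^ 3 * p⁻¹) p⁻¹ := hc.mul_left (Commute.refl _)
    rw [← conj_pow, e2, hc3.mul_pow, e1, inv_pow]
  have key : ∀ (N : Subgroup M) (a b : M), b * a⁻¹ ∈ N → b * a⁻¹ * a⁻¹ ∈ N → a ∈ N ∧ b ∈ N := by
    intro N a b h1 h2
    have h3 : a ∈ N := by
      have h4 := mul_mem (inv_mem h2) h1
      rwa [mul_inv_rev, inv_inv, mul_assoc, inv_mul_cancel, mul_one] at h4
    refine ⟨h3, ?_⟩
    have h4 := mul_mem h1 h3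
    rwa [inv_mul_cancel_right] at h4
  have h0 : (t ^ 3 * p⁻¹) ^ K ∈ Subgroup.normalClosure ({(t ^ 3 * p⁻¹) ^ K} : Set M) :=
    Subgroup.subset_normalClosure (Set.mem_singleton _)
  have h2 : w * (t ^ 3 * p⁻¹) ^ K * w⁻¹ ∈
      Subgroup.normalClosure ({(t ^ 3 * p⁻¹) ^ K} : Set M) :=
    Subgroup.Normal.conj_mem Subgroup.normalClosure_normal _ h0 w
  have h34 : p ^ K ∈ Subgroup.normalClosure ({(t ^ 3 * p⁻¹) ^ K} : Set M) ∧
      t ^ (3 * K) ∈ Subgroup.normalClosure ({(t ^ 3 * p⁻¹) ^ K} : Set M) := by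
    generalize Subgroup.normalClosure ({(t ^ 3 * p⁻¹) ^ K} : Set M) = N at h0 h2
    rw [e1] at h0
    rw [e3] at h2
    exact key N _ _ h0 h2
  obtain ⟨h3, h4⟩ := h34
  apply le_antisymm
  · apply Subgroup.normalClosure_le_normal
    rintro m hm
    rw [Set.mem_singleton_iff] at hm
    subst hm
    rw [e1]
    exact mul_mem (Subgroup.subset_normalClosure (Set.mem_insert_of_mem _ (Set.mem_singleton _)))
      (inv_mem (Subgroup.subset_normalClosure (Set.mem_insert _ _)))
  · apply Subgroup.normalClosure_le_normal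
    rintro m (rfl | hm)
    · exact h3
    · rw [Set.mem_singleton_iff] at hm
      subst hm
      exact h4

end

/-- For all positive `L`, a quotient by a normal closure which agrees with the one generated by
`push gam ^ (3 L)` and `t ^ (9 L)` is not hierarchically hyperbolic. -/
theorem not_hhg_of_closure_eq {L : ℕ} (hL : 0 < L) (N : Subgroup MCG21) [hN : N.Normal]
    (h : N = Subgroup.normalClosure
      ({(MulAut.conj.codRestrict MCG21 conj_mem) gam ^ (3 * L),
        (⟨TT, twist_mem 1⟩ : MCG21) ^ (9 * L)} : Set MCG21)) :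
    ¬ IsHHG.{u, 0} (MCG21 ⧸ N) := by
  subst h
  intro hG
  obtain ⟨F, hF, hconj⟩ := finite_conj hG
  obtain ⟨v, hv3, hv⟩ := infinitely_many MCG21.subtype
    (MulAut.conj.codRestrict MCG21 conj_mem) (fun x => rfl) (fun m x => by
      ext y
      simp)
    ⟨TT, twist_mem 1⟩ rfl (fun m => m.2) (fun k => ⟨SK (k + 2), SK_mem _⟩) (fun k => rfl) hL
  choose z hzF hzc using fun k => hconj (v k) (hv3 k)
  have hinj : Function.Injective z := by
    intro k l hkl
    apply hv
    have h1 := hzc k
    rw [hkl] at h1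
    exact h1.trans (hzc l).symm
  exact (Set.infinite_range_of_injective hinj) (hF.subset (by
    rintro _ ⟨k, rfl⟩
    exact hzF k))

/-- The point push homomorphism. -/
def pushM : SurfaceGroup →* MCG21 := MulAut.conj.codRestrict MCG21 conj_mem

theorem pushM_conj (m : MCG21) (x : SurfaceGroup) :
    m * pushM x * m⁻¹ = pushM ((m : MulAut SurfaceGroup) x) := by
  ext y
  simp [pushM]

/-- The Dehn twist in the mapping class group. -/
def tM : MCG21 := ⟨TT, twist_mem 1⟩

/-- The handle swap in the mapping class group. -/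
def wM : MCG21 := ⟨SW, SW_mem⟩

theorem tM_push : Commute tM (pushM gam) := by
  have h := pushM_conj tM gam
  have h3 : (tM : MulAut SurfaceGroup) gam = gam := by
    change twist 1 gam = gam
    rw [twist_apply, twistHom_gam]
  rw [h3, mul_inv_eq_iff_eq_mul] at h
  exact h

theorem wM_tM : wM * tM * wM⁻¹ = (pushM gam)⁻¹ * tM := Subtype.ext SW_TT

theorem wM_push : wM * pushM gam * wM⁻¹ = (pushM gam)⁻¹ := by
  rw [pushM_conj, ← map_inv]
  exact congrArg pushM SW_gam

/-- The mapping class. -/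
def gM : MCG21 := (tM ^ 3 * (pushM gam)⁻¹) ^ 3

theorem closure_gM (K : ℕ) : Subgroup.normalClosure ({gM ^ K} : Set MCG21) =
    Subgroup.normalClosure ({pushM gam ^ (3 * K), tM ^ (9 * K)} : Set MCG21) := by
  have h := closure_eq_of_swap (pushM gam) tM wM tM_push wM_tM wM_push (3 * K)
  rw [gM, ← pow_mul, h, show 3 * (3 * K) = 9 * K by ring]

/-- There is one mapping class `g` of the genus two surface with one puncture such that for every
positive `K` the quotient by the normal closure of `g ^ K` is not hierarchically hyperbolic. -/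
theorem one_element : ∃ g : MCGS, ∀ K : ℕ, 0 < K →
    ¬ IsHHG.{u, 0} (MCGS ⧸ Subgroup.normalClosure ({g ^ K} : Set MCGS)) :=
  ⟨gM, fun K hK => not_hhg_of_closure_eq hK
    (Subgroup.normalClosure ({gM ^ K} : Set MCG21)) (closure_gM K)⟩

end MPb95792
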