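import Pool.Agent.Helper2.PrimeCount

namespace Pool.Agent.Helper2

open Finset ArithmeticFunction
open scoped BigOperators

theorem log_facts (F : ℕ) (hF : 60 ≤ F) :
    (1 : ℝ) ≤ 1 + Real.log ((F ^ 12 : ℕ) : ℝ) ∧
    1 + Real.log ((F ^ 12 : ℕ) : ℝ) ≤ 13 * F ∧ 0 ≤ Real.log ((F ^ 12 : ℕ) : ℝ) := by
  have hFr : (60 : ℝ) ≤ F := by exact_mod_cast hF
  have h0 : 0 ≤ Real.log ((F ^ 12 : ℕ) : ℝ) := Real.log_natCast_nonneg _
  refine ⟨by linarith, ?_, h0⟩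
  push_cast
  rw [Real.log_pow]
  have h1 : Real.log (F : ℝ) ≤ F - 1 := Real.log_le_sub_one_of_pos (by linarith)
  push_cast
  linarith

theorem count_pairs (D : Finset ℕ) (F P w y : ℕ) (hF : 60 ≤ F) (hwF : w ≤ F) (hy : 1 ≤ y)
    (hD : ∀ d ∈ D, 1 ≤ d ∧ d ≤ F ∧ #d.primeFactors ≤ w ∧ ∀ q ∈ d.primeFactors, y ≤ q)
    (hP : ∀ p : ℕ, p.Prime → #(D.filter (p ∣ ·)) ≤ P)
    (h2 : 100 * w * (1 + Real.log ((F ^ 12 : ℕ) : ℝ)) ^ 2 ≤ y)
    (h3 : 600 * P * (1 + Real.log ((F ^ 12 : ℕ) : ℝ)) ^ 4 ≤ #D) :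
    ((F ^ 12 : ℕ) : ℝ) * #D ≤ 10 * F * (1 + Real.log ((F ^ 12 : ℕ) : ℝ)) ^ 2 *
      ∑ d ∈ D, (#(Good (F ^ 12) d) : ℝ) := by
  obtain ⟨l1, l2, l3⟩ := log_facts F hF
  set N : ℕ := F ^ 12 with hNdef
  set L : ℝ := 1 + Real.log (N : ℝ) with hL
  have hFr : (60 : ℝ) ≤ F := by exact_mod_cast hF
  have hF1 : 1 ≤ F := by omega
  have hNF : (N : ℝ) = (F : ℝ) ^ 12 := by rw [hNdef]; push_cast; ring
  have hN1 : 1 ≤ N := Nat.one_le_pow _ _ hF1
  have hN4 : 10000 ≤ N := by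
    have : 60 ^ 12 ≤ F ^ 12 := Nat.pow_le_pow_left hF 12
    rw [hNdef]
    omega
  have hNpos : (0 : ℝ) < N := by exact_mod_cast hN1
  have hsqrt : Real.sqrt (N : ℝ) = (F : ℝ) ^ 6 := by
    rw [hNF, show (F : ℝ) ^ 12 = ((F : ℝ) ^ 6) ^ 2 by ring]
    exact Real.sqrt_sq (by positivity)
  have hlogL : Real.log (N : ℝ) ≤ L := by linarith
  have hlogsq : Real.log (N : ℝ) ^ 2 ≤ L ^ 2 := pow_le_pow_left₀ l3 hlogL 2
  have hav := average_ge D F N P w (fun d hd => ⟨(hD d hd).1, (hD d hd).2.1, (hD d hd).2.2.1⟩)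
    hF1 le_rfl hP
  have htot := total_ge N hN4
  have hyr : (0 : ℝ) < y := by exact_mod_cast hy
  have hupper : ∑ d ∈ D, (d.totient : ℝ) * wsum N d ≤ ∑ d ∈ D,
      ((F : ℝ) * Real.log N ^ 2 * #(Good N d) + (Real.log N ^ 2 * w * N / y +
        F * (2 * (F : ℝ) ^ 6 * Real.log N ^ 2))) := by
    refine Finset.sum_le_sum fun d hd => ?_
    obtain ⟨a1, a2, a3, a4⟩ := hD d hd
    have hw := wsum_le N d w y hN1 a1 a3 hy a4
    rw [hsqrt] at hw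
    have hphi : (d.totient : ℝ) ≤ d := by exact_mod_cast Nat.totient_le d
    have hphi0 : (0 : ℝ) ≤ d.totient := Nat.cast_nonneg _
    have hdF : (d : ℝ) ≤ F := by exact_mod_cast a2
    have hd0 : (0 : ℝ) < d := by exact_mod_cast a1
    have c1 : (d.totient : ℝ) * (Real.log N ^ 2 * #(Good N d)) ≤
        F * Real.log N ^ 2 * #(Good N d) := by
      have : (d.totient : ℝ) * (Real.log N ^ 2 * #(Good N d)) ≤
          F * (Real.log N ^ 2 * #(Good N d)) :=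
        mul_le_mul_of_nonneg_right (hphi.trans hdF) (by positivity)
      linarith
    have c2 : (d.totient : ℝ) * (Real.log N ^ 2 * (w * ((N : ℝ) / (d * y)))) ≤
        Real.log N ^ 2 * w * N / y := by
      calc (d.totient : ℝ) * (Real.log N ^ 2 * (w * ((N : ℝ) / (d * y))))
          ≤ (d : ℝ) * (Real.log N ^ 2 * (w * ((N : ℝ) / (d * y)))) :=
            mul_le_mul_of_nonneg_right hphi (by positivity)
        _ = Real.log N ^ 2 * w * N / y := by field_simp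
    have c3 : (d.totient : ℝ) * (2 * (F : ℝ) ^ 6 * Real.log N ^ 2) ≤
        F * (2 * (F : ℝ) ^ 6 * Real.log N ^ 2) :=
      mul_le_mul_of_nonneg_right (hphi.trans hdF) (by positivity)
    calc (d.totient : ℝ) * wsum N d ≤ (d.totient : ℝ) * (Real.log N ^ 2 * #(Good N d) +
          Real.log N ^ 2 * (w * ((N : ℝ) / (d * y))) + 2 * (F : ℝ) ^ 6 * Real.log N ^ 2) :=
          mul_le_mul_of_nonneg_left hw hphi0
      _ = (d.totient : ℝ) * (Real.log N ^ 2 * #(Good N d)) +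
          (d.totient : ℝ) * (Real.log N ^ 2 * (w * ((N : ℝ) / (d * y)))) +
          (d.totient : ℝ) * (2 * (F : ℝ) ^ 6 * Real.log N ^ 2) := by ring
      _ ≤ _ := by linarith
  rw [Finset.sum_add_distrib, Finset.sum_const, nsmul_eq_mul, ← Finset.mul_sum] at hupper
  have hDc : (0 : ℝ) ≤ #D := Nat.cast_nonneg _
  -- error terms
  have e1 : Real.log N ^ 2 * w * N / y ≤ N / 100 := by
    rw [div_le_div_iff₀ hyr (by norm_num)]
    have : Real.log N ^ 2 * w * 100 ≤ y := by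
      have : Real.log N ^ 2 * w ≤ L ^ 2 * w := mul_le_mul_of_nonneg_right hlogsq (Nat.cast_nonneg w)
      linarith
    nlinarith
  have hpoly : L ^ 2 ≤ 169 * (F : ℝ) ^ 2 := by
    calc L ^ 2 ≤ (13 * F) ^ 2 := pow_le_pow_left₀ (by linarith) l2 2
      _ = 169 * (F : ℝ) ^ 2 := by ring
  have hF3 : (216000 : ℝ) ≤ (F : ℝ) ^ 3 := by
    calc (216000 : ℝ) = 60 ^ 3 := by norm_num
      _ ≤ (F : ℝ) ^ 3 := pow_le_pow_left₀ (by norm_num) hFr 3
  have hwr : (w : ℝ) ≤ F := by exact_mod_cast hwF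
  have e2 : (F : ℝ) * (w * Real.log N ^ 2) + F * (2 * (F : ℝ) ^ 6 * Real.log N ^ 2) ≤ N / 100 := by
    have g1 : (F : ℝ) * (w * Real.log N ^ 2) ≤ F * (F * (169 * (F : ℝ) ^ 2)) :=
      mul_le_mul_of_nonneg_left (mul_le_mul hwr (hlogsq.trans hpoly) (sq_nonneg _)
        (Nat.cast_nonneg F)) (Nat.cast_nonneg F)
    have g2 : (F : ℝ) * (2 * (F : ℝ) ^ 6 * Real.log N ^ 2) ≤
        F * (2 * (F : ℝ) ^ 6 * (169 * (F : ℝ) ^ 2)) :=
      mul_le_mul_of_nonneg_left (mul_le_mul_of_nonneg_left (hlogsq.trans hpoly) (by positivity))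
        (Nat.cast_nonneg F)
    have g3 : (F : ℝ) ^ 4 ≤ (F : ℝ) ^ 9 := pow_le_pow_right₀ (by linarith) (by norm_num)
    have g4 : (F : ℝ) ^ 9 * 216000 ≤ (F : ℝ) ^ 12 := by
      calc (F : ℝ) ^ 9 * 216000 ≤ (F : ℝ) ^ 9 * (F : ℝ) ^ 3 :=
            mul_le_mul_of_nonneg_left hF3 (by positivity)
        _ = (F : ℝ) ^ 12 := by ring
    have g5 : (N : ℝ) / 100 = (F : ℝ) ^ 12 / 100 := by rw [hNF]
    rw [g5]
    have g6 : (F : ℝ) * (F * (169 * (F : ℝ) ^ 2)) = 169 * (F : ℝ) ^ 4 := by ring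
    have g7 : (F : ℝ) * (2 * (F : ℝ) ^ 6 * (169 * (F : ℝ) ^ 2)) = 338 * (F : ℝ) ^ 9 := by ring
    rw [g6] at g1
    rw [g7] at g2
    linarith
  have e3 : (P : ℝ) * (6 * N * L ^ 4) ≤ #D * N / 100 := by
    have : (600 * P * L ^ 4) * N ≤ #D * N := mul_le_mul_of_nonneg_right h3 hNpos.le
    linarith
  have main : #D * ((N : ℝ) / 10) ≤ (F : ℝ) * Real.log N ^ 2 * ∑ d ∈ D, (#(Good N d) : ℝ) := by
    have m1 : (#D : ℝ) * ((N : ℝ) / 5) ≤ #D * total N := mul_le_mul_of_nonneg_left htot hDc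
    have m2 : (#D : ℝ) * (Real.log N ^ 2 * w * N / y) ≤ #D * (N / 100) :=
      mul_le_mul_of_nonneg_left e1 hDc
    have m3 := mul_le_mul_of_nonneg_left e2 hDc
    have hDN : 0 ≤ (#D : ℝ) * N := by positivity
    nlinarith
  have fin : (F : ℝ) * Real.log N ^ 2 * ∑ d ∈ D, (#(Good N d) : ℝ) ≤
      F * L ^ 2 * ∑ d ∈ D, (#(Good N d) : ℝ) := by
    refine mul_le_mul_of_nonneg_right ?_ (Finset.sum_nonneg fun _ _ => Nat.cast_nonneg _)
    exact mul_le_mul_of_nonneg_left hlogsq (Nat.cast_nonneg F)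
  linarith

/-- the set of multipliers found by the pigeonhole principle -/
def Fib (D : Finset ℕ) (N k j : ℕ) : Finset ℕ :=
  D.filter (fun d => (d * k + 1).Prime ∧ k.Coprime d ∧ Nat.log 2 (d * k + 1) = j ∧ d * k + 1 ≤ N)

theorem key (D : Finset ℕ) (F P w y Dm : ℕ) (hF : 60 ≤ F) (hwF : w ≤ F) (hy : 1 ≤ y)
    (hDm : 1 ≤ Dm)
    (hD : ∀ d ∈ D, Dm ≤ d ∧ d ≤ F ∧ #d.primeFactors ≤ w ∧ ∀ q ∈ d.primeFactors, y ≤ q)
    (hP : ∀ p : ℕ, p.Prime → #(D.filter (p ∣ ·)) ≤ P)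
    (h2 : 100 * w * (1 + Real.log ((F ^ 12 : ℕ) : ℝ)) ^ 2 ≤ y)
    (h3 : 600 * P * (1 + Real.log ((F ^ 12 : ℕ) : ℝ)) ^ 4 ≤ #D) :
    ∃ k j : ℕ, 1 ≤ k ∧ k ≤ F ^ 12 ∧ (#D : ℝ) * Dm ≤
      20 * F * (1 + Real.log ((F ^ 12 : ℕ) : ℝ)) ^ 3 * #(Fib D (F ^ 12) k j) := by
  classical
  obtain ⟨l1, l2, l3⟩ := log_facts F hF
  have hc := count_pairs D F P w y hF hwF hy
    (fun d hd => ⟨hDm.trans (hD d hd).1, (hD d hd).2⟩) hP h2 h3
  set N : ℕ := F ^ 12 with hNdef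
  set L : ℝ := 1 + Real.log (N : ℝ) with hL
  have hF1 : 1 ≤ F := by omega
  have hN1 : 1 ≤ N := Nat.one_le_pow _ _ hF1
  have hNpos : (0 : ℝ) < N := by exact_mod_cast hN1
  have hFN : F ≤ N := Nat.le_self_pow (by norm_num) F
  rcases D.eq_empty_or_nonempty with rfl | ⟨d0, hd0⟩
  · refine ⟨1, 0, le_rfl, hN1, ?_⟩
    have h0 : ((#(∅ : Finset ℕ) : ℕ) : ℝ) * Dm = 0 := by rw [card_empty]; simp
    rw [h0]
    positivity
  have hDmN : Dm ≤ N := (hD d0 hd0).1.trans ((hD d0 hd0).2.1.trans hFN)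
  set S : Finset (Σ _ : ℕ, ℕ) := D.sigma (fun d => Good N d) with hS
  set T : Finset (ℕ × ℕ) := (Ioc 0 (N / Dm)) ×ˢ (range (Nat.log 2 N + 1)) with hT
  have hmaps : ∀ x ∈ S, (((x.2 - 1) / x.1, Nat.log 2 x.2) : ℕ × ℕ) ∈ T := by
    rintro ⟨d, p⟩ hx
    rw [hS, mem_sigma] at hx
    obtain ⟨hd, hp⟩ := hx
    simp only [Good, mem_filter, mem_Ioc] at hp hd ⊢
    obtain ⟨⟨_, hpN⟩, hpp, hmod, _⟩ := hp
    have hdm := (hD d hd).1
    have hdpos : 0 < d := by omega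
    have h5 : d ∣ p - 1 := (Nat.modEq_iff_dvd' hpp.one_lt.le).1 hmod.symm
    obtain ⟨k, hk⟩ := h5
    have hp2 := hpp.two_le
    rw [hT, mem_product, mem_Ioc, mem_range]
    simp only
    rw [hk, Nat.mul_div_cancel_left k hdpos]
    refine ⟨⟨?_, ?_⟩, ?_⟩
    · rcases Nat.eq_zero_or_pos k with rfl | h
      · omega
      · exact h
    · rw [Nat.le_div_iff_mul_le (by omega)]
      have : k * Dm ≤ d * k := by rw [mul_comm]; exact Nat.mul_le_mul_right k hdm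
      omega
    · exact Nat.lt_succ_of_le (Nat.log_mono_right hpN)
  have hTne : T.Nonempty := by
    refine ⟨(1, 0), ?_⟩
    rw [hT, mem_product, mem_Ioc, mem_range]
    exact ⟨⟨one_pos, (Nat.one_le_div_iff (by omega)).2 hDmN⟩, Nat.succ_pos _⟩
  have hTpos : (0 : ℝ) < #T := by exact_mod_cast card_pos.2 hTne
  obtain ⟨⟨k, j⟩, hkj, hfib⟩ := Finset.exists_le_card_fiber_of_nsmul_le_card_of_maps_to
    (s := S) (t := T) (f := fun x : (Σ _ : ℕ, ℕ) => (((x.2 - 1) / x.1, Nat.log 2 x.2) : ℕ × ℕ))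
    (b := (#S : ℝ) / #T) hmaps hTne (by
      rw [nsmul_eq_mul, mul_div_cancel₀ _ hTpos.ne'])
  rw [hT, mem_product, mem_Ioc, mem_range] at hkj
  obtain ⟨⟨hk1, hk2⟩, hj⟩ := hkj
  simp only at hk1 hk2 hj
  refine ⟨k, j, hk1, hk2.trans (Nat.div_le_self _ _), ?_⟩
  have hcard : #({x ∈ S | (((x.2 - 1) / x.1, Nat.log 2 x.2) : ℕ × ℕ) = (k, j)}) ≤
      #(Fib D N k j) := by
    refine card_le_card_of_injOn (fun x => x.1) ?_ ?_
    · rintro ⟨d, p⟩ hx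
      rw [mem_coe, mem_filter, hS, mem_sigma] at hx
      obtain ⟨⟨hd, hp⟩, hx2⟩ := hx
      simp only [Good, mem_filter, mem_Ioc] at hp hd hx2
      obtain ⟨⟨_, hpN⟩, hpp, hmod, hcop⟩ := hp
      rw [Prod.mk.injEq] at hx2
      obtain ⟨hx3, hx4⟩ := hx2
      have h5 : d ∣ p - 1 := (Nat.modEq_iff_dvd' hpp.one_lt.le).1 hmod.symm
      have hdpos : 0 < d := by have := (hD d hd).1; omega
      have hpe : d * k + 1 = p := by
        rw [← hx3, Nat.mul_div_cancel' h5]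
        have := hpp.two_le
        omega
      rw [mem_coe, Fib, mem_filter]
      simp only
      rw [hpe]
      rw [hx3] at hcop
      exact ⟨hd, hpp, hcop, hx4, hpN⟩
    · rintro ⟨d, p⟩ hx ⟨e, q⟩ hy hde
      rw [mem_coe, mem_filter, hS, mem_sigma] at hx hy
      simp only at hde
      subst hde
      obtain ⟨⟨hd, hp⟩, hx2⟩ := hx
      obtain ⟨⟨_, hq⟩, hy2⟩ := hy
      simp only [Good, mem_filter, mem_Ioc] at hp hq hd hx2 hy2
      rw [Prod.mk.injEq] at hx2 hy2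
      have h5 : d ∣ p - 1 := (Nat.modEq_iff_dvd' hp.2.1.one_lt.le).1 hp.2.2.1.symm
      have h6 : d ∣ q - 1 := (Nat.modEq_iff_dvd' hq.2.1.one_lt.le).1 hq.2.2.1.symm
      have h7 : p - 1 = d * k := by rw [← hx2.1, Nat.mul_div_cancel' h5]
      have h8 : q - 1 = d * k := by rw [← hy2.1, Nat.mul_div_cancel' h6]
      have := hp.2.1.two_le
      have := hq.2.1.two_le
      have : p = q := by omega
      rw [this]
  have hfib' : (#S : ℝ) ≤ #T * #(Fib D N k j) := by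
    rw [div_le_iff₀ hTpos] at hfib
    have : (#({x ∈ S | (((x.2 - 1) / x.1, Nat.log 2 x.2) : ℕ × ℕ) = (k, j)}) : ℝ) ≤
      #(Fib D N k j) := by exact_mod_cast hcard
    calc (#S : ℝ) ≤ #({x ∈ S | (((x.2 - 1) / x.1, Nat.log 2 x.2) : ℕ × ℕ) = (k, j)}) * #T := hfib
      _ ≤ #(Fib D N k j) * #T := mul_le_mul_of_nonneg_right this hTpos.le
      _ = #T * #(Fib D N k j) := mul_comm _ _
  have hScard : (#S : ℝ) = ∑ d ∈ D, (#(Good N d) : ℝ) := by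
    rw [hS, card_sigma]; push_cast; rfl
  have hDmr : (0 : ℝ) < Dm := by exact_mod_cast hDm
  have hTcard : (#T : ℝ) ≤ (N / Dm : ℝ) * (2 * L) := by
    rw [hT, card_product, Nat.card_Ioc, card_range]
    push_cast
    have h9 : ((N / Dm - 0 : ℕ) : ℝ) ≤ (N : ℝ) / Dm := by
      rw [Nat.sub_zero]; exact Nat.cast_div_le
    have h10 : ((Nat.log 2 N : ℕ) : ℝ) + 1 ≤ 2 * L := by
      have h11 : (2 : ℝ) ^ (Nat.log 2 N) ≤ N := by
        exact_mod_cast Nat.pow_log_le_self 2 (by omega)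
      have h12 := Real.log_le_log (by positivity) h11
      rw [Real.log_pow] at h12
      have h13 : 0.6931 ≤ Real.log 2 := by linarith [Real.log_two_gt_d9]
      have h14 : (0 : ℝ) ≤ (Nat.log 2 N : ℕ) := Nat.cast_nonneg _
      nlinarith
    exact mul_le_mul h9 h10 (by positivity) (by positivity)
  rw [← hScard] at hc
  have hFib0 : (0 : ℝ) ≤ #(Fib D N k j) := Nat.cast_nonneg _
  have step1 : (N : ℝ) * #D ≤ 10 * F * L ^ 2 * (((N / Dm : ℝ) * (2 * L)) * #(Fib D N k j)) := by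
    refine hc.trans (mul_le_mul_of_nonneg_left ?_ (by positivity))
    exact hfib'.trans (mul_le_mul_of_nonneg_right hTcard hFib0)
  have step2 : 10 * F * L ^ 2 * (((N / Dm : ℝ) * (2 * L)) * #(Fib D N k j)) =
      (N : ℝ) * ((20 * F * L ^ 3 * #(Fib D N k j)) / Dm) := by
    field_simp
    ring
  rw [step2] at step1
  have step3 := le_of_mul_le_mul_left step1 hNpos
  rwa [le_div_iff₀ hDmr] at step3

end Pool.Agent.Helper2
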