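import Pool.Agent.Helper2.KeyLemma

namespace Pool.Agent.Helper2

open Finset
open scoped BigOperators

/-- products of `u` distinct elements -/
def prods (Q : Finset ℕ) (u : ℕ) : Finset ℕ := (powersetCard u Q).image (fun T => ∏ p ∈ T, p)

theorem primeFactors_prod_id {T : Finset ℕ} (hT : ∀ p ∈ T, p.Prime) :
    (∏ p ∈ T, p).primeFactors = T := Nat.primeFactors_prod hT

theorem prods_injOn (Q : Finset ℕ) (hQ : ∀ p ∈ Q, p.Prime) (u : ℕ) :
    Set.InjOn (fun T : Finset ℕ => ∏ p ∈ T, p) (powersetCard u Q : Set (Finset ℕ)) := by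
  intro T hT T' hT' h
  have h1 : ∀ p ∈ T, p.Prime := fun p hp => hQ p ((mem_powersetCard.1 (mem_coe.1 hT)).1 hp)
  have h2 : ∀ p ∈ T', p.Prime := fun p hp => hQ p ((mem_powersetCard.1 (mem_coe.1 hT')).1 hp)
  have h3 : (∏ p ∈ T, p) = ∏ p ∈ T', p := h
  rw [← primeFactors_prod_id h1, h3, primeFactors_prod_id h2]

theorem card_prods (Q : Finset ℕ) (hQ : ∀ p ∈ Q, p.Prime) (u : ℕ) :
    #(prods Q u) = (#Q).choose u := by
  rw [prods, card_image_of_injOn (prods_injOn Q hQ u), card_powersetCard]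

theorem card_filter_mem_powersetCard (Q : Finset ℕ) (u : ℕ) (hu : 1 ≤ u) (p : ℕ) (hp : p ∈ Q) :
    #((powersetCard u Q).filter (p ∈ ·)) ≤ (#Q - 1).choose (u - 1) := by
  classical
  have h : (powersetCard u Q).filter (p ∈ ·) ⊆
      (powersetCard (u - 1) (Q.erase p)).image (fun T => insert p T) := by
    intro T hT
    rw [mem_filter, mem_powersetCard] at hT
    obtain ⟨⟨h1, h2⟩, h3⟩ := hT
    rw [mem_image]
    refine ⟨T.erase p, ?_, insert_erase h3⟩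
    rw [mem_powersetCard]
    refine ⟨erase_subset_erase p h1, ?_⟩
    rw [card_erase_of_mem h3, h2]
  calc #((powersetCard u Q).filter (p ∈ ·))
      ≤ #((powersetCard (u - 1) (Q.erase p)).image (fun T => insert p T)) := card_le_card h
    _ ≤ #(powersetCard (u - 1) (Q.erase p)) := card_image_le
    _ = (#Q - 1).choose (u - 1) := by rw [card_powersetCard, card_erase_of_mem hp]

theorem card_filter_dvd_prods (Q : Finset ℕ) (hQ : ∀ p ∈ Q, p.Prime) (u : ℕ) (hu : 1 ≤ u)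
    (p : ℕ) (hp : p.Prime) : #((prods Q u).filter (p ∣ ·)) ≤ (#Q - 1).choose (u - 1) := by
  classical
  by_cases hpQ : p ∈ Q
  · have h : (prods Q u).filter (p ∣ ·) ⊆
        ((powersetCard u Q).filter (p ∈ ·)).image (fun T => ∏ q ∈ T, q) := by
      intro d hd
      rw [mem_filter, prods, mem_image] at hd
      obtain ⟨⟨T, hT, rfl⟩, h2⟩ := hd
      rw [mem_image]
      refine ⟨T, ?_, rfl⟩
      rw [mem_filter]
      refine ⟨hT, ?_⟩
      have h1 : ∀ q ∈ T, q.Prime := fun q hq => hQ q ((mem_powersetCard.1 hT).1 hq)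
      have h3 : p ∈ (∏ q ∈ T, q).primeFactors :=
        Nat.mem_primeFactors.2 ⟨hp, h2, Finset.prod_ne_zero_iff.2 fun q hq => (h1 q hq).ne_zero⟩
      rwa [primeFactors_prod_id h1] at h3
    exact (card_le_card h).trans (card_image_le.trans (card_filter_mem_powersetCard Q u hu p hpQ))
  · have h : (prods Q u).filter (p ∣ ·) = ∅ := by
      rw [Finset.filter_eq_empty_iff]
      intro d hd h2
      rw [prods, mem_image] at hd
      obtain ⟨T, hT, rfl⟩ := hd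
      have h1 : ∀ q ∈ T, q.Prime := fun q hq => hQ q ((mem_powersetCard.1 hT).1 hq)
      have h3 : p ∈ (∏ q ∈ T, q).primeFactors :=
        Nat.mem_primeFactors.2 ⟨hp, h2, Finset.prod_ne_zero_iff.2 fun q hq => (h1 q hq).ne_zero⟩
      rw [primeFactors_prod_id h1] at h3
      exact hpQ ((mem_powersetCard.1 hT).1 h3)
    rw [h]; simp

theorem key_products (Q : Finset ℕ) (y u : ℕ) (hy : 1 ≤ y) (hu : 1 ≤ u)
    (hQ : ∀ p ∈ Q, p.Prime ∧ y ≤ p ∧ p ≤ 4 * y)
    (hF : 60 ≤ (4 * y) ^ u)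
    (h2 : 100 * u * (1 + Real.log ((((4 * y) ^ u) ^ 12 : ℕ) : ℝ)) ^ 2 ≤ y)
    (h3 : 600 * u * (1 + Real.log ((((4 * y) ^ u) ^ 12 : ℕ) : ℝ)) ^ 4 ≤ #Q) :
    ∃ k j : ℕ, 1 ≤ k ∧ k ≤ ((4 * y) ^ u) ^ 12 ∧ ((#Q).choose u : ℝ) ≤
      20 * 4 ^ u * (1 + Real.log ((((4 * y) ^ u) ^ 12 : ℕ) : ℝ)) ^ 3 *
        #(Fib (prods Q u) (((4 * y) ^ u) ^ 12) k j) := by
  classical
  have hQp : ∀ p ∈ Q, p.Prime := fun p hp => (hQ p hp).1
  have huF : u ≤ (4 * y) ^ u := by
    have h4 : 2 ≤ 4 * y := by omega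
    calc u ≤ 2 ^ u := Nat.lt_two_pow_self.le
      _ ≤ (4 * y) ^ u := Nat.pow_le_pow_left h4 u
  have hyu : 1 ≤ y ^ u := Nat.one_le_pow _ _ hy
  set F : ℕ := (4 * y) ^ u with hFdef
  set L : ℝ := 1 + Real.log ((F ^ 12 : ℕ) : ℝ) with hL
  have hL1 : 1 ≤ L := (log_facts F hF).1
  have hQcard : 1 ≤ #Q := by
    have hur : (1 : ℝ) ≤ u := by exact_mod_cast hu
    have : (1 : ℝ) ≤ #Q := by
      refine le_trans ?_ h3
      have : 1 ≤ L ^ 4 := one_le_pow₀ hL1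
      nlinarith
    exact_mod_cast this
  have hchoose : (u : ℝ) * ((#Q).choose u : ℝ) = #Q * ((#Q - 1).choose (u - 1) : ℝ) := by
    obtain ⟨n, hn⟩ : ∃ n, #Q = n + 1 := ⟨#Q - 1, by omega⟩
    obtain ⟨v, hv⟩ : ∃ v, u = v + 1 := ⟨u - 1, by omega⟩
    rw [hn, hv]
    simp only [Nat.add_sub_cancel]
    have := Nat.add_one_mul_choose_eq n v
    have h5 : (v + 1) * (n + 1).choose (v + 1) = (n + 1) * n.choose v := by
      rw [this]; ring
    exact_mod_cast h5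
  have hur : (0 : ℝ) < u := by exact_mod_cast hu
  have hC0 : (0 : ℝ) ≤ ((#Q - 1).choose (u - 1) : ℝ) := Nat.cast_nonneg _
  have hcond : 600 * ((#Q - 1).choose (u - 1) : ℝ) * L ^ 4 ≤ #(prods Q u) := by
    rw [card_prods Q hQp u]
    have h6 : (600 * u * L ^ 4) * ((#Q - 1).choose (u - 1) : ℝ) ≤
        #Q * ((#Q - 1).choose (u - 1) : ℝ) := mul_le_mul_of_nonneg_right h3 hC0
    rw [← hchoose] at h6
    have h7 : (u : ℝ) * (600 * ((#Q - 1).choose (u - 1) : ℝ) * L ^ 4) ≤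
        u * ((#Q).choose u : ℝ) := by linarith
    exact le_of_mul_le_mul_left h7 hur
  obtain ⟨k, j, hk1, hk2, hkj⟩ := key (prods Q u) F ((#Q - 1).choose (u - 1)) u y (y ^ u) hF huF hy
    hyu (by
      intro d hd
      rw [prods, mem_image] at hd
      obtain ⟨T, hT, rfl⟩ := hd
      obtain ⟨hT1, hT2⟩ := mem_powersetCard.1 hT
      have hTp : ∀ q ∈ T, q.Prime := fun q hq => hQp q (hT1 hq)
      refine ⟨?_, ?_, ?_, ?_⟩
      · calc y ^ u = ∏ _p ∈ T, y := by rw [Finset.prod_const, hT2]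
          _ ≤ ∏ p ∈ T, p := Finset.prod_le_prod' fun p hp => (hQ p (hT1 hp)).2.1
      · calc ∏ p ∈ T, p ≤ ∏ _p ∈ T, (4 * y) :=
              Finset.prod_le_prod' fun p hp => (hQ p (hT1 hp)).2.2
          _ = F := by rw [Finset.prod_const, hT2]
      · rw [primeFactors_prod_id hTp, hT2]
      · intro q hq
        rw [primeFactors_prod_id hTp] at hq
        exact (hQ q (hT1 hq)).2.1)
    (fun p hp => card_filter_dvd_prods Q hQp u hu p hp) h2 hcond
  refine ⟨k, j, hk1, hk2, ?_⟩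
  rw [card_prods Q hQp u] at hkj
  have hyr : (0 : ℝ) < (y : ℝ) ^ u := by
    have : (0 : ℝ) < y := by exact_mod_cast hy
    positivity
  have e : (F : ℝ) = 4 ^ u * (y : ℝ) ^ u := by
    rw [hFdef]; push_cast; rw [mul_pow]
  have h8 : ((#Q).choose u : ℝ) * (y : ℝ) ^ u ≤
      (20 * 4 ^ u * L ^ 3 * #(Fib (prods Q u) (F ^ 12) k j)) * (y : ℝ) ^ u := by
    calc ((#Q).choose u : ℝ) * (y : ℝ) ^ u = ((#Q).choose u : ℝ) * ((y ^ u : ℕ) : ℝ) := by
          push_cast; ring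
      _ ≤ 20 * F * L ^ 3 * #(Fib (prods Q u) (F ^ 12) k j) := hkj
      _ = _ := by rw [e]; ring
  exact le_of_mul_le_mul_right h8 hyr

end Pool.Agent.Helper2
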