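import Mathlib

/-!
A weak large sieve by duality, for a finite family of bounded functions
whose pairwise correlations are small.
-/

namespace Pool.Agent.Helper2

open Finset Complex
open scoped BigOperators ComplexConjugate

/-- dual form -/
theorem dual_bound {ι : Type*} [DecidableEq ι] (s : Finset ι) (I : Finset ℕ) (c : ι → ℕ → ℂ)
    (K : ℝ) (hK : 0 ≤ K)
    (h1 : ∀ i ∈ s, ∀ n ∈ I, ‖c i n‖ ≤ 1)
    (h2 : ∀ i ∈ s, ∀ j ∈ s, i ≠ j → ‖∑ n ∈ I, c i n * conj (c j n)‖ ≤ K)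
    (b : ι → ℂ) :
    ∑ n ∈ I, ‖∑ i ∈ s, b i * c i n‖ ^ 2 ≤ ((#I : ℝ) + K * #s) * ∑ i ∈ s, ‖b i‖ ^ 2 := by
  have e1 : ((∑ n ∈ I, ‖∑ i ∈ s, b i * c i n‖ ^ 2 : ℝ) : ℂ) =
      ∑ i ∈ s, ∑ j ∈ s, b i * conj (b j) * ∑ n ∈ I, c i n * conj (c j n) := by
    push_cast
    have : ∀ n ∈ I, ((‖∑ i ∈ s, b i * c i n‖ : ℂ)) ^ 2 =
        ∑ i ∈ s, ∑ j ∈ s, b i * conj (b j) * (c i n * conj (c j n)) := by
      intro n _
      rw [← Complex.mul_conj']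
      rw [map_sum, Finset.sum_mul_sum]
      refine Finset.sum_congr rfl fun i _ => Finset.sum_congr rfl fun j _ => ?_
      rw [map_mul]; ring
    rw [Finset.sum_congr rfl this, Finset.sum_comm]
    refine Finset.sum_congr rfl fun i _ => ?_
    rw [Finset.sum_comm]
    refine Finset.sum_congr rfl fun j _ => ?_
    rw [Finset.mul_sum]
  have e2 : (∑ n ∈ I, ‖∑ i ∈ s, b i * c i n‖ ^ 2 : ℝ) ≤
      ∑ i ∈ s, ∑ j ∈ s, ‖b i‖ * ‖b j‖ * (if i = j then (#I : ℝ) else K) := by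
    have h0 : (0 : ℝ) ≤ ∑ n ∈ I, ‖∑ i ∈ s, b i * c i n‖ ^ 2 :=
      Finset.sum_nonneg fun _ _ => sq_nonneg _
    have : (∑ n ∈ I, ‖∑ i ∈ s, b i * c i n‖ ^ 2 : ℝ) =
        ‖((∑ n ∈ I, ‖∑ i ∈ s, b i * c i n‖ ^ 2 : ℝ) : ℂ)‖ := by
      rw [Complex.norm_real, Real.norm_of_nonneg h0]
    rw [this, e1]
    refine (norm_sum_le _ _).trans (Finset.sum_le_sum fun i hi => ?_)
    refine (norm_sum_le _ _).trans (Finset.sum_le_sum fun j hj => ?_)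
    rw [norm_mul, norm_mul, RCLike.norm_conj]
    refine mul_le_mul_of_nonneg_left ?_ (by positivity)
    split_ifs with hij
    · subst hij
      refine (norm_sum_le _ _).trans ?_
      have : ∀ n ∈ I, ‖c i n * conj (c i n)‖ ≤ 1 := by
        intro n hn
        rw [norm_mul, RCLike.norm_conj]
        have := h1 i hi n hn
        nlinarith [norm_nonneg (c i n)]
      calc ∑ n ∈ I, ‖c i n * conj (c i n)‖ ≤ ∑ n ∈ I, (1 : ℝ) := Finset.sum_le_sum this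
        _ = #I := by simp
    · exact h2 i hi j hj hij
  refine e2.trans ?_
  have e3 : ∑ i ∈ s, ∑ j ∈ s, ‖b i‖ * ‖b j‖ * (if i = j then (#I : ℝ) else K) ≤
      ∑ i ∈ s, ∑ j ∈ s, ((if i = j then ‖b i‖ * ‖b j‖ * (#I : ℝ) else 0) +
        K * (‖b i‖ * ‖b j‖)) := by
    refine Finset.sum_le_sum fun i _ => Finset.sum_le_sum fun j _ => ?_
    split_ifs with hij
    · have : 0 ≤ K * (‖b i‖ * ‖b j‖) := by positivity
      linarith
    · rw [zero_add]; exact le_of_eq (by ring)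
  refine e3.trans ?_
  have e4 : ∑ i ∈ s, ∑ j ∈ s, ((if i = j then ‖b i‖ * ‖b j‖ * (#I : ℝ) else 0) +
        K * (‖b i‖ * ‖b j‖)) = (#I : ℝ) * ∑ i ∈ s, ‖b i‖ ^ 2 + K * (∑ i ∈ s, ‖b i‖) ^ 2 := by
    simp only [Finset.sum_add_distrib]
    congr 1
    · rw [Finset.mul_sum]
      refine Finset.sum_congr rfl fun i hi => ?_
      rw [Finset.sum_ite_eq s i]
      simp [hi]; ring
    · rw [sq, Finset.sum_mul_sum, Finset.mul_sum]
      refine Finset.sum_congr rfl fun i hi => ?_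
      rw [Finset.mul_sum]
  rw [e4]
  have e5 : (∑ i ∈ s, ‖b i‖) ^ 2 ≤ #s * ∑ i ∈ s, ‖b i‖ ^ 2 := sq_sum_le_card_mul_sum_sq
  nlinarith [mul_le_mul_of_nonneg_left e5 hK]

/-- large sieve inequality -/
theorem large_sieve {ι : Type*} [DecidableEq ι] (s : Finset ι) (I : Finset ℕ) (c : ι → ℕ → ℂ)
    (K : ℝ) (hK : 0 ≤ K)
    (h1 : ∀ i ∈ s, ∀ n ∈ I, ‖c i n‖ ≤ 1)
    (h2 : ∀ i ∈ s, ∀ j ∈ s, i ≠ j → ‖∑ n ∈ I, c i n * conj (c j n)‖ ≤ K)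
    (a : ℕ → ℂ) :
    ∑ i ∈ s, ‖∑ n ∈ I, a n * c i n‖ ^ 2 ≤ ((#I : ℝ) + K * #s) * ∑ n ∈ I, ‖a n‖ ^ 2 := by
  set A : ι → ℂ := fun i => ∑ n ∈ I, a n * c i n with hA
  set S : ℝ := ∑ i ∈ s, ‖A i‖ ^ 2 with hS
  have hS0 : 0 ≤ S := Finset.sum_nonneg fun _ _ => sq_nonneg _
  have hB := dual_bound s I c K hK h1 h2 (fun i => conj (A i))
  simp only [RCLike.norm_conj] at hB
  have eS : (S : ℂ) = ∑ n ∈ I, a n * ∑ i ∈ s, conj (A i) * c i n := by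
    rw [hS]
    push_cast
    have : ∀ i ∈ s, ((‖A i‖ : ℂ)) ^ 2 = ∑ n ∈ I, a n * (conj (A i) * c i n) := by
      intro i _
      rw [← Complex.conj_mul']
      have hAi : conj (A i) * A i = conj (A i) * ∑ n ∈ I, a n * c i n := rfl
      rw [hAi, Finset.mul_sum]
      refine Finset.sum_congr rfl fun n _ => ?_
      ring
    rw [Finset.sum_congr rfl this, Finset.sum_comm]
    refine Finset.sum_congr rfl fun n _ => ?_
    rw [Finset.mul_sum]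
  have hle : S ≤ ∑ n ∈ I, ‖a n‖ * ‖∑ i ∈ s, conj (A i) * c i n‖ := by
    have : S = ‖(S : ℂ)‖ := by rw [Complex.norm_real, Real.norm_of_nonneg hS0]
    rw [this, eS]
    refine (norm_sum_le _ _).trans (Finset.sum_le_sum fun n _ => ?_)
    rw [norm_mul]
  have hCS : (∑ n ∈ I, ‖a n‖ * ‖∑ i ∈ s, conj (A i) * c i n‖) ^ 2 ≤
      (∑ n ∈ I, ‖a n‖ ^ 2) * ∑ n ∈ I, ‖∑ i ∈ s, conj (A i) * c i n‖ ^ 2 :=
    Finset.sum_mul_sq_le_sq_mul_sq _ _ _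
  have h0 : 0 ≤ ∑ n ∈ I, ‖a n‖ ^ 2 := Finset.sum_nonneg fun _ _ => sq_nonneg _
  have h3 : S ^ 2 ≤ (∑ n ∈ I, ‖a n‖ ^ 2) * (((#I : ℝ) + K * #s) * S) := by
    calc S ^ 2 ≤ (∑ n ∈ I, ‖a n‖ * ‖∑ i ∈ s, conj (A i) * c i n‖) ^ 2 :=
          pow_le_pow_left₀ hS0 hle 2
      _ ≤ _ := hCS
      _ ≤ _ := mul_le_mul_of_nonneg_left hB h0
  rcases hS0.eq_or_lt with h | h
  · rw [← h]; positivity
  · have : S * S ≤ ((((#I : ℝ) + K * #s)) * ∑ n ∈ I, ‖a n‖ ^ 2) * S := by nlinarith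
    exact le_of_mul_le_mul_right this h

end Pool.Agent.Helper2
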