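import Pool.Agent.Helper2.Params

namespace Pool.Agent.Helper2

open Finset
open scoped BigOperators

theorem fib_prime {Q : Finset ℕ} {u N k j d : ℕ} (hd : d ∈ Fib (prods Q u) N k j) :
    (d * k + 1).Prime ∧ 2 ^ j ≤ d * k + 1 ∧ d * k + 1 < 2 ^ (j + 1) ∧ d * k + 1 ≤ N ∧
      d ∣ ∏ q ∈ Q, q := by
  rw [Fib, mem_filter] at hd
  obtain ⟨h2, h3, h4, h5, h6⟩ := hd
  rw [prods, mem_image] at h2
  obtain ⟨T, hT, rfl⟩ := h2
  obtain ⟨hT1, hT2⟩ := mem_powersetCard.1 hT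
  refine ⟨h3, ?_, ?_, h6, prod_dvd_prod_of_subset _ _ _ hT1⟩
  · rw [← h5]; exact Nat.pow_log_le_self 2 (by omega)
  · rw [← h5]; exact Nat.lt_pow_succ_log_self (by norm_num) _

theorem level_one (m : ℕ) (hm : 100000 ≤ m) : ∃ (Q : Finset ℕ) (M y : ℕ),
    1 ≤ M ∧ (M : ℝ) ≤ Real.exp ((m : ℝ) ^ 14) ∧
    (∀ q ∈ Q, q.Prime ∧ y ≤ q ∧ q ≤ 4 * y ∧ q - 1 ∣ M) ∧
    m ^ (8 * m) ≤ #Q ∧ #Q ≤ y ∧ Real.log ((4 * y : ℕ) : ℝ) ≤ 2 * (m : ℝ) ^ 2 := by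
  classical
  have hmr : (100000 : ℝ) ≤ m := by exact_mod_cast hm
  have hlog := log_four_mul m hm
  have hcard := card_primesLow_ge m hm
  have hcardle := card_primesLow_le m (by omega)
  set P := primesLow m with hP
  set y₁ : ℕ := m ^ 12 with hy₁
  have hN₁ : Real.log ((((4 * y₁) ^ m) ^ 12 : ℕ) : ℝ) ≤ (m : ℝ) ^ 2 := by
    have : Real.log ((((4 * y₁) ^ m) ^ 12 : ℕ) : ℝ) = 12 * (m * Real.log ((4 * y₁ : ℕ) : ℝ)) := by
      rw [Nat.cast_pow, Nat.cast_pow, Real.log_pow, Real.log_pow]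
      norm_num
    rw [this]
    nlinarith
  have hN₁' : 1 + Real.log ((((4 * y₁) ^ m) ^ 12 : ℕ) : ℝ) ≤ 2 * (m : ℝ) ^ 2 := by nlinarith
  have hN₁0 : 0 ≤ 1 + Real.log ((((4 * y₁) ^ m) ^ 12 : ℕ) : ℝ) := by
    have := Real.log_natCast_nonneg (((4 * y₁) ^ m) ^ 12)
    linarith
  have hPprime : ∀ p ∈ P, p.Prime ∧ y₁ ≤ p ∧ p ≤ 4 * y₁ := by
    intro p hp
    rw [hP, primesLow, mem_filter, mem_Icc] at hp
    exact ⟨hp.2, hp.1.1, hp.1.2⟩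
  have hy1 : 1 ≤ y₁ := Nat.one_le_pow _ _ (by omega)
  have c1 : 60 ≤ (4 * y₁) ^ m := by
    have h1 : m ≤ y₁ := Nat.le_self_pow (by norm_num) m
    calc 60 ≤ 4 * y₁ := by omega
      _ ≤ (4 * y₁) ^ m := Nat.le_self_pow (by omega) _
  have c2 : 100 * (m : ℝ) * (1 + Real.log ((((4 * y₁) ^ m) ^ 12 : ℕ) : ℝ)) ^ 2 ≤ (y₁ : ℝ) := by
    have h1 : (1 + Real.log ((((4 * y₁) ^ m) ^ 12 : ℕ) : ℝ)) ^ 2 ≤ (2 * (m : ℝ) ^ 2) ^ 2 :=
      pow_le_pow_left₀ hN₁0 hN₁' 2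
    calc 100 * (m : ℝ) * (1 + Real.log ((((4 * y₁) ^ m) ^ 12 : ℕ) : ℝ)) ^ 2
        ≤ 100 * (m : ℝ) * (2 * (m : ℝ) ^ 2) ^ 2 := mul_le_mul_of_nonneg_left h1 (by positivity)
      _ = 400 * (m : ℝ) ^ 5 := by ring
      _ ≤ m * (m : ℝ) ^ 5 := mul_le_mul_of_nonneg_right (by linarith) (by positivity)
      _ = (m : ℝ) ^ 6 := by ring
      _ ≤ (m : ℝ) ^ 12 := pow_le_pow_right₀ (by linarith) (by norm_num)
      _ = (y₁ : ℝ) := by rw [hy₁]; push_cast; ring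
  have c3 : 600 * (m : ℝ) * (1 + Real.log ((((4 * y₁) ^ m) ^ 12 : ℕ) : ℝ)) ^ 4 ≤ (#P : ℝ) := by
    have h1 : (1 + Real.log ((((4 * y₁) ^ m) ^ 12 : ℕ) : ℝ)) ^ 4 ≤ (2 * (m : ℝ) ^ 2) ^ 4 :=
      pow_le_pow_left₀ hN₁0 hN₁' 4
    calc 600 * (m : ℝ) * (1 + Real.log ((((4 * y₁) ^ m) ^ 12 : ℕ) : ℝ)) ^ 4
        ≤ 600 * (m : ℝ) * (2 * (m : ℝ) ^ 2) ^ 4 := mul_le_mul_of_nonneg_left h1 (by positivity)
      _ = 9600 * (m : ℝ) ^ 9 := by ring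
      _ ≤ m * (m : ℝ) ^ 9 := mul_le_mul_of_nonneg_right (by linarith) (by positivity)
      _ = (m : ℝ) ^ 10 := by ring
      _ ≤ (m : ℝ) ^ 11 := pow_le_pow_right₀ (by linarith) (by norm_num)
      _ ≤ (#P : ℝ) := by exact_mod_cast hcard
  obtain ⟨k, j, hk1, hk2, hkj⟩ := key_products P y₁ m hy1 (by omega) hPprime c1 c2 c3
  set N₁ : ℕ := ((4 * y₁) ^ m) ^ 12 with hN₁def
  set D := Fib (prods P m) N₁ k j with hD
  have hDcard : m ^ (8 * m) ≤ #D := by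
    have h1 : (m ^ 9) ^ m ≤ (#P).choose m := by
      refine choose_ge _ _ _ ?_
      have : m ^ 9 * m + m ≤ m ^ 11 := by
        have e1 : m ≤ m ^ 10 := Nat.le_self_pow (by norm_num) m
        calc m ^ 9 * m + m ≤ m ^ 10 + m ^ 10 := by
              have : m ^ 9 * m = m ^ 10 := by ring
              omega
          _ = 2 * m ^ 10 := by ring
          _ ≤ m * m ^ 10 := Nat.mul_le_mul_right _ (by omega)
          _ = m ^ 11 := by ring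
      omega
    have h2 : ((m : ℝ) ^ 9) ^ m ≤ ((#P).choose m : ℝ) := by exact_mod_cast h1
    have h3 : (1 + Real.log (N₁ : ℝ)) ^ 3 ≤ (2 * (m : ℝ) ^ 2) ^ 3 :=
      pow_le_pow_left₀ hN₁0 hN₁' 3
    have h4 : 20 * 4 ^ m * (2 * (m : ℝ) ^ 2) ^ 3 ≤ (m : ℝ) ^ m := by
      have e1 : 4 ^ m ≤ m ^ (m - 8) := by
        calc 4 ^ m ≤ 4 ^ (8 * (m - 8)) := Nat.pow_le_pow_right (by norm_num) (by omega)
          _ = (4 ^ 8) ^ (m - 8) := by rw [pow_mul]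
          _ ≤ m ^ (m - 8) := Nat.pow_le_pow_left (by norm_num; omega) _
      have e2 : (4 : ℝ) ^ m ≤ (m : ℝ) ^ (m - 8) := by exact_mod_cast e1
      calc 20 * 4 ^ m * (2 * (m : ℝ) ^ 2) ^ 3 ≤ 20 * (m : ℝ) ^ (m - 8) * (2 * (m : ℝ) ^ 2) ^ 3 := by
            gcongr
        _ = (m : ℝ) ^ (m - 8) * (160 * (m : ℝ) ^ 6) := by ring
        _ ≤ (m : ℝ) ^ (m - 8) * (m : ℝ) ^ 8 := by
            refine mul_le_mul_of_nonneg_left ?_ (by positivity)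
            calc 160 * (m : ℝ) ^ 6 ≤ (m : ℝ) ^ 2 * (m : ℝ) ^ 6 :=
                  mul_le_mul_of_nonneg_right (by nlinarith) (by positivity)
              _ = (m : ℝ) ^ 8 := by ring
        _ = (m : ℝ) ^ m := by rw [← pow_add]; congr 1; omega
    have h5 : (m : ℝ) ^ m * (m : ℝ) ^ (8 * m) ≤ (m : ℝ) ^ m * (#D : ℝ) := by
      calc (m : ℝ) ^ m * (m : ℝ) ^ (8 * m) = ((m : ℝ) ^ 9) ^ m := by
            rw [← pow_mul, ← pow_add]; congr 1; ring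
        _ ≤ ((#P).choose m : ℝ) := h2
        _ ≤ 20 * 4 ^ m * (1 + Real.log (N₁ : ℝ)) ^ 3 * (#D : ℝ) := hkj
        _ ≤ 20 * 4 ^ m * (2 * (m : ℝ) ^ 2) ^ 3 * (#D : ℝ) := by gcongr
        _ ≤ (m : ℝ) ^ m * (#D : ℝ) := mul_le_mul_of_nonneg_right h4 (Nat.cast_nonneg _)
    have h6 : (m : ℝ) ^ (8 * m) ≤ (#D : ℝ) := le_of_mul_le_mul_left h5 (by positivity)
    exact_mod_cast h6
  set Q : Finset ℕ := D.image (fun d => d * k + 1) with hQ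
  have hQcard : #Q = #D := by
    rw [hQ]
    refine card_image_of_injective _ fun a b h => ?_
    have h' : a * k + 1 = b * k + 1 := h
    exact Nat.eq_of_mul_eq_mul_right hk1 (by omega)
  have hQmem : ∀ q ∈ Q, q.Prime ∧ 2 ^ j ≤ q ∧ q < 2 ^ (j + 1) ∧ q ≤ N₁ ∧
      q - 1 ∣ k * ∏ p ∈ P, p := by
    intro q hq
    rw [hQ, mem_image] at hq
    obtain ⟨d, hd, rfl⟩ := hq
    obtain ⟨h1, h2, h3, h4, h5⟩ := fib_prime hd
    refine ⟨h1, h2, h3, h4, ?_⟩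
    rw [Nat.add_sub_cancel, mul_comm k]
    exact Nat.mul_dvd_mul_right h5 k
  have hQpos : 0 < #Q := by
    rw [hQcard]
    have : 1 ≤ m ^ (8 * m) := Nat.one_le_pow _ _ (by omega)
    omega
  refine ⟨Q, k * ∏ p ∈ P, p, 2 ^ j, ?_, ?_, ?_, ?_, ?_, ?_⟩
  · exact Nat.mul_pos hk1 (prod_pos fun p hp => (hPprime p hp).1.pos)
  · -- size of M
    have hkpos : (0 : ℝ) < k := by exact_mod_cast hk1
    have hprod0 : (0 : ℝ) < ((∏ p ∈ P, p : ℕ) : ℝ) := by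
      exact_mod_cast prod_pos fun p hp => (hPprime p hp).1.pos
    have hMpos : (0 : ℝ) < ((k * ∏ p ∈ P, p : ℕ) : ℝ) := by
      push_cast at hprod0 ⊢
      positivity
    rw [← Real.log_le_iff_le_exp hMpos, Nat.cast_mul, Real.log_mul hkpos.ne' hprod0.ne']
    have h1 : Real.log (k : ℝ) ≤ (m : ℝ) ^ 2 := by
      refine le_trans (Real.log_le_log hkpos ?_) hN₁
      exact_mod_cast hk2
    have h2 : Real.log ((∏ p ∈ P, p : ℕ) : ℝ) ≤ (m : ℝ) ^ 13 := by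
      have e1 : Real.log ((∏ p ∈ P, p : ℕ) : ℝ) = ∑ p ∈ P, Real.log (p : ℝ) := by
        push_cast
        rw [Real.log_prod]
        intro p hp
        have := (hPprime p hp).1.pos
        positivity
      rw [e1]
      calc ∑ p ∈ P, Real.log (p : ℝ) ≤ ∑ _p ∈ P, Real.log ((4 * y₁ : ℕ) : ℝ) := by
            refine sum_le_sum fun p hp => Real.log_le_log ?_ ?_
            · exact_mod_cast (hPprime p hp).1.pos
            · exact_mod_cast (hPprime p hp).2.2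
        _ = #P * Real.log ((4 * y₁ : ℕ) : ℝ) := by rw [sum_const, nsmul_eq_mul]
        _ ≤ (4 * (m : ℝ) ^ 12) * (m / 12) := by
            refine mul_le_mul ?_ (by linarith) (Real.log_natCast_nonneg _) (by positivity)
            exact_mod_cast hcardle
        _ ≤ (m : ℝ) ^ 13 := by
            have : (0 : ℝ) < (m : ℝ) ^ 13 := by positivity
            have e : (4 * (m : ℝ) ^ 12) * (m / 12) = (m : ℝ) ^ 13 / 3 := by ring
            rw [e]; linarith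
    have h3 : (m : ℝ) ^ 2 + (m : ℝ) ^ 13 ≤ (m : ℝ) ^ 14 := by
      have e1 : (m : ℝ) ^ 2 ≤ (m : ℝ) ^ 13 := pow_le_pow_right₀ (by linarith) (by norm_num)
      have e2 : 2 * (m : ℝ) ^ 13 ≤ m * (m : ℝ) ^ 13 :=
        mul_le_mul_of_nonneg_right (by linarith) (by positivity)
      have e3 : (m : ℝ) * (m : ℝ) ^ 13 = (m : ℝ) ^ 14 := by ring
      linarith
    linarith
  · intro q hq
    obtain ⟨h1, h2, h3, h4, h5⟩ := hQmem q hq
    refine ⟨h1, h2, ?_, h5⟩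
    rw [pow_succ] at h3
    omega
  · rw [hQcard]; exact hDcard
  · have hsub : Q ⊆ Ico (2 ^ j) (2 ^ (j + 1)) := fun q hq => by
      obtain ⟨h1, h2, h3, h4, h5⟩ := hQmem q hq
      exact mem_Ico.2 ⟨h2, h3⟩
    have := card_le_card hsub
    rw [Nat.card_Ico, pow_succ] at this
    omega
  · obtain ⟨q, hq⟩ := card_pos.1 hQpos
    obtain ⟨h1, h2, h3, h4, h5⟩ := hQmem q hq
    have h6 : Real.log ((2 ^ j : ℕ) : ℝ) ≤ (m : ℝ) ^ 2 := by
      refine le_trans (Real.log_le_log ?_ ?_) hN₁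
      · exact_mod_cast (by positivity : 0 < 2 ^ j)
      · exact_mod_cast h2.trans h4
    have h7 : Real.log ((4 * 2 ^ j : ℕ) : ℝ) = Real.log 4 + Real.log ((2 ^ j : ℕ) : ℝ) := by
      rw [Nat.cast_mul, Real.log_mul (by norm_num) (by positivity)]
      norm_num
    rw [h7]
    have h8 : Real.log 4 ≤ 3 := by
      have := Real.log_le_sub_one_of_pos (show (0 : ℝ) < 4 by norm_num)
      linarith
    nlinarith

end Pool.Agent.Helper2
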