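import Pool.Agent.Helper2.TypeOne

namespace Pool.Agent.Helper2

open Finset ArithmeticFunction
open scoped BigOperators ComplexConjugate

/-- the smoothed twisted prime sum -/
noncomputable def smoothSum (N : ℕ) (c : ℕ → ℂ) : ℂ :=
  ∑ n ∈ Ioc 0 N, ((vonMangoldt n : ℝ) : ℂ) *
    (c n * ((Real.posLog ((N : ℝ) / (n : ℝ)) : ℝ) : ℂ))

/-- the bilinear part -/
noncomputable def typeTwo (N U : ℕ) (c : ℕ → ℂ) : ℂ :=
  ∑ m ∈ Ioc 0 N, ∑ r ∈ Ioc 0 N, ((hi vonMangoldt U m : ℝ) : ℂ) * (((hi mob U * zet) r : ℝ) : ℂ) *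
    (c m * c r) * ((Real.posLog ((N : ℝ) / ((m : ℝ) * r)) : ℝ) : ℂ)

theorem card_Ioc_filter_le (N U : ℕ) : #((Ioc 0 N).filter (· ≤ U)) ≤ U := by
  have : (Ioc 0 N).filter (· ≤ U) ⊆ Ioc 0 U := by
    intro x hx
    rw [mem_filter, mem_Ioc] at hx
    exact mem_Ioc.2 ⟨hx.1.1, hx.2⟩
  calc _ ≤ #(Ioc 0 U) := card_le_card this
    _ = U := by simp

theorem lo_mul_lo_eq_zero (f g : ArithmeticFunction ℝ) (U n : ℕ) (hn : U * U < n) :
    (lo f U * lo g U) n = 0 := by
  rw [ArithmeticFunction.mul_apply]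
  refine Finset.sum_eq_zero fun x hx => ?_
  obtain ⟨h1, _⟩ := Nat.mem_divisorsAntidiagonal.1 hx
  rw [lo_apply, lo_apply]
  by_cases h2 : x.1 ≤ U
  · by_cases h3 : x.2 ≤ U
    · exfalso
      have := Nat.mul_le_mul h2 h3
      omega
    · simp [h3]
  · simp [h2]

theorem abs_lo_mul_lo_le (U n : ℕ) :
    |(lo vonMangoldt U * lo mob U) n| ≤ Real.log n := by
  rw [ArithmeticFunction.mul_apply]
  calc |∑ x ∈ n.divisorsAntidiagonal, lo vonMangoldt U x.1 * lo mob U x.2|
      ≤ ∑ x ∈ n.divisorsAntidiagonal, |lo vonMangoldt U x.1 * lo mob U x.2| :=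
        Finset.abs_sum_le_sum_abs _ _
    _ ≤ ∑ x ∈ n.divisorsAntidiagonal, vonMangoldt x.1 := by
        refine Finset.sum_le_sum fun x _ => ?_
        rw [abs_mul]
        have h1 : |lo vonMangoldt U x.1| ≤ vonMangoldt x.1 := by
          rw [lo_apply]
          split_ifs
          · rw [abs_of_nonneg vonMangoldt_nonneg]
          · simp
        have h2 : |lo mob U x.2| ≤ 1 := by
          rw [lo_apply]
          split_ifs
          · exact abs_mob_le _
          · simp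
        calc |lo vonMangoldt U x.1| * |lo mob U x.2| ≤ vonMangoldt x.1 * 1 :=
              mul_le_mul h1 h2 (abs_nonneg _) vonMangoldt_nonneg
          _ = vonMangoldt x.1 := mul_one _
    _ = Real.log n := by
        rw [Nat.sum_divisorsAntidiagonal (fun i _ => vonMangoldt i), vonMangoldt_sum]

theorem smoothSum_decomp (N U : ℕ) (hN : 1 ≤ N) (c : ℕ → ℂ)
    (c1 : ∀ n, ‖c n‖ ≤ 1) (c2 : ∀ m n, c (m * n) = c m * c n) (F : ℝ) (hF1 : 1 ≤ F)
    (hF : ∀ k, ‖∑ n ∈ Ioc 0 k, c n‖ ≤ F) :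
    ‖smoothSum N c‖ ≤ ((U : ℝ) + 2 * U * F + (U : ℝ) ^ 2 * F) * Real.log N ^ 2 +
      ‖typeTwo N U c‖ := by
  have hF0 : 0 ≤ F := by linarith
  have hlogN : 0 ≤ Real.log N := Real.log_natCast_nonneg N
  set G : ℕ → ℂ := fun n => c n * ((Real.posLog ((N : ℝ) / (n : ℝ)) : ℝ) : ℂ) with hG
  have hG0 : ∀ n, N < n → G n = 0 := by
    intro n hn
    have hn' : (N : ℝ) < n := by exact_mod_cast hn
    have hN' : (0 : ℝ) ≤ N := Nat.cast_nonneg N
    have : Real.posLog ((N : ℝ) / (n : ℝ)) = 0 := by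
      rw [Real.posLog_eq_zero_iff, abs_of_nonneg (by positivity), div_le_one (by linarith)]
      exact hn'.le
    simp only [hG, this]
    simp
  have hGle : ∀ n ∈ Ioc 0 N, ‖G n‖ ≤ Real.log N := by
    intro n hn
    simp only [hG]
    rw [norm_mul, Complex.norm_real, Real.norm_of_nonneg (posLog_nonneg' _)]
    calc ‖c n‖ * Real.posLog ((N : ℝ) / (n : ℝ)) ≤ 1 * Real.log N :=
          mul_le_mul (c1 n) (posLog_div_le N hN n (mem_Ioc.1 hn).1) (posLog_nonneg' _) zero_le_one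
      _ = Real.log N := one_mul _
  have hS : smoothSum N c = ∑ n ∈ Ioc 0 N, ((lo vonMangoldt U n : ℝ) : ℂ) * G n +
      ∑ n ∈ Ioc 0 N, (((lo mob U * log) n : ℝ) : ℂ) * G n -
      ∑ n ∈ Ioc 0 N, ((((lo vonMangoldt U * lo mob U) * zet) n : ℝ) : ℂ) * G n +
      ∑ n ∈ Ioc 0 N, (((hi vonMangoldt U * (hi mob U * zet)) n : ℝ) : ℂ) * G n := by
    rw [← Finset.sum_add_distrib, ← Finset.sum_sub_distrib, ← Finset.sum_add_distrib]
    refine Finset.sum_congr rfl fun n _ => ?_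
    have h := congrArg (fun f : ArithmeticFunction ℝ => f n) (vaughan U)
    simp only [sub_eq_add_neg, ArithmeticFunction.add_apply, ArithmeticFunction.neg_apply] at h
    rw [h]
    push_cast
    simp only [hG]
    ring
  -- first term
  have t1 : ‖∑ n ∈ Ioc 0 N, ((lo vonMangoldt U n : ℝ) : ℂ) * G n‖ ≤ (U : ℝ) * Real.log N ^ 2 := by
    calc ‖∑ n ∈ Ioc 0 N, ((lo vonMangoldt U n : ℝ) : ℂ) * G n‖
        ≤ ∑ n ∈ Ioc 0 N, ‖((lo vonMangoldt U n : ℝ) : ℂ) * G n‖ := norm_sum_le _ _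
      _ ≤ ∑ n ∈ Ioc 0 N, (if n ≤ U then Real.log N ^ 2 else 0) := by
          refine Finset.sum_le_sum fun n hn => ?_
          rw [norm_mul, Complex.norm_real, lo_apply]
          split_ifs with h
          · rw [Real.norm_of_nonneg vonMangoldt_nonneg, sq]
            refine mul_le_mul ?_ (hGle n hn) (norm_nonneg _) hlogN
            refine vonMangoldt_le_log.trans ?_
            refine Real.log_le_log (by exact_mod_cast (mem_Ioc.1 hn).1) ?_
            exact_mod_cast (mem_Ioc.1 hn).2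
          · simp
      _ = #((Ioc 0 N).filter (· ≤ U)) * Real.log N ^ 2 := by
          rw [← Finset.sum_filter, Finset.sum_const, nsmul_eq_mul]
      _ ≤ (U : ℝ) * Real.log N ^ 2 := by
          refine mul_le_mul_of_nonneg_right ?_ (sq_nonneg _)
          exact_mod_cast card_Ioc_filter_le N U
  -- second term
  have t2 : ‖∑ n ∈ Ioc 0 N, (((lo mob U * log) n : ℝ) : ℂ) * G n‖ ≤
      (2 * U * F) * Real.log N ^ 2 := by
    rw [sum_conv _ _ N G hG0]
    calc ‖∑ a ∈ Ioc 0 N, ∑ b ∈ Ioc 0 N, ((lo mob U a : ℝ) : ℂ) * ((log b : ℝ) : ℂ) * G (a * b)‖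
        ≤ ∑ a ∈ Ioc 0 N, ‖∑ b ∈ Ioc 0 N, ((lo mob U a : ℝ) : ℂ) * ((log b : ℝ) : ℂ) * G (a * b)‖ :=
          norm_sum_le _ _
      _ ≤ ∑ a ∈ Ioc 0 N, (if a ≤ U then 2 * F * Real.log N ^ 2 else 0) := by
          refine Finset.sum_le_sum fun a ha => ?_
          have e : ∑ b ∈ Ioc 0 N, ((lo mob U a : ℝ) : ℂ) * ((log b : ℝ) : ℂ) * G (a * b) =
              ((lo mob U a : ℝ) : ℂ) * c a * ∑ b ∈ Ioc 0 N, c b *
              ((Real.log b * Real.posLog ((N : ℝ) / ((a * b : ℕ) : ℝ)) : ℝ) : ℂ) := by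
            rw [Finset.mul_sum]
            refine Finset.sum_congr rfl fun b _ => ?_
            simp only [hG]
            rw [c2, log_apply]
            push_cast
            ring
          rw [e, norm_mul, norm_mul, Complex.norm_real, lo_apply]
          split_ifs with h
          · have h1 : ‖mob a‖ ≤ 1 := by rw [Real.norm_eq_abs]; exact abs_mob_le a
            have h2 := typeIlog c F hF N hN a (mem_Ioc.1 ha).1 (mem_Ioc.1 ha).2
            have h3 : ‖mob a‖ * ‖c a‖ ≤ 1 := by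
              calc ‖mob a‖ * ‖c a‖ ≤ 1 * 1 := mul_le_mul h1 (c1 a) (norm_nonneg _) zero_le_one
                _ = 1 := one_mul _
            calc ‖mob a‖ * ‖c a‖ * _ ≤ 1 * (2 * F * Real.log N ^ 2) :=
                  mul_le_mul h3 h2 (norm_nonneg _) zero_le_one
              _ = _ := one_mul _
          · simp
      _ = #((Ioc 0 N).filter (· ≤ U)) * (2 * F * Real.log N ^ 2) := by
          rw [← Finset.sum_filter, Finset.sum_const, nsmul_eq_mul]
      _ ≤ (U : ℝ) * (2 * F * Real.log N ^ 2) := by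
          refine mul_le_mul_of_nonneg_right ?_ (by positivity)
          exact_mod_cast card_Ioc_filter_le N U
      _ = (2 * U * F) * Real.log N ^ 2 := by ring
  -- third term
  have t3 : ‖∑ n ∈ Ioc 0 N, ((((lo vonMangoldt U * lo mob U) * zet) n : ℝ) : ℂ) * G n‖ ≤
      ((U : ℝ) ^ 2 * F) * Real.log N ^ 2 := by
    rw [sum_conv _ _ N G hG0]
    calc ‖∑ a ∈ Ioc 0 N, ∑ b ∈ Ioc 0 N,
            (((lo vonMangoldt U * lo mob U) a : ℝ) : ℂ) * ((zet b : ℝ) : ℂ) * G (a * b)‖
        ≤ ∑ a ∈ Ioc 0 N, ‖∑ b ∈ Ioc 0 N,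
            (((lo vonMangoldt U * lo mob U) a : ℝ) : ℂ) * ((zet b : ℝ) : ℂ) * G (a * b)‖ :=
          norm_sum_le _ _
      _ ≤ ∑ a ∈ Ioc 0 N, (if a ≤ U * U then F * Real.log N ^ 2 else 0) := by
          refine Finset.sum_le_sum fun a ha => ?_
          have e : ∑ b ∈ Ioc 0 N,
              (((lo vonMangoldt U * lo mob U) a : ℝ) : ℂ) * ((zet b : ℝ) : ℂ) * G (a * b) =
              (((lo vonMangoldt U * lo mob U) a : ℝ) : ℂ) * c a * ∑ b ∈ Ioc 0 N, c b *
              ((Real.posLog ((N : ℝ) / ((a * b : ℕ) : ℝ)) : ℝ) : ℂ) := by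
            rw [Finset.mul_sum]
            refine Finset.sum_congr rfl fun b hb => ?_
            simp only [hG]
            rw [c2, zet_apply (mem_Ioc.1 hb).1]
            push_cast
            ring
          rw [e, norm_mul, norm_mul, Complex.norm_real]
          split_ifs with h
          · have h1 : ‖(lo vonMangoldt U * lo mob U) a‖ ≤ Real.log N := by
              rw [Real.norm_eq_abs]
              refine (abs_lo_mul_lo_le U a).trans ?_
              refine Real.log_le_log (by exact_mod_cast (mem_Ioc.1 ha).1) ?_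
              exact_mod_cast (mem_Ioc.1 ha).2
            have h2 := typeI c F hF N hN a (mem_Ioc.1 ha).1
            have h3 : ‖(lo vonMangoldt U * lo mob U) a‖ * ‖c a‖ ≤ Real.log N * 1 :=
              mul_le_mul h1 (c1 a) (norm_nonneg _) hlogN
            calc _ ≤ (Real.log N * 1) * (F * Real.log N) :=
                  mul_le_mul h3 h2 (norm_nonneg _) (by positivity)
              _ = _ := by ring
          · rw [lo_mul_lo_eq_zero _ _ U a (by omega)]
            simp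
      _ = #((Ioc 0 N).filter (· ≤ U * U)) * (F * Real.log N ^ 2) := by
          rw [← Finset.sum_filter, Finset.sum_const, nsmul_eq_mul]
      _ ≤ ((U * U : ℕ) : ℝ) * (F * Real.log N ^ 2) := by
          refine mul_le_mul_of_nonneg_right ?_ (by positivity)
          exact_mod_cast card_Ioc_filter_le N (U * U)
      _ = ((U : ℝ) ^ 2 * F) * Real.log N ^ 2 := by push_cast; ring
  -- fourth term
  have t4 : ∑ n ∈ Ioc 0 N, (((hi vonMangoldt U * (hi mob U * zet)) n : ℝ) : ℂ) * G n =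
      typeTwo N U c := by
    rw [sum_conv _ _ N G hG0, typeTwo]
    refine Finset.sum_congr rfl fun m _ => Finset.sum_congr rfl fun r _ => ?_
    simp only [hG]
    rw [c2]
    push_cast
    ring
  rw [hS, t4]
  refine (norm_add_le _ _).trans ?_
  have h5 := norm_sub_le (∑ n ∈ Ioc 0 N, ((lo vonMangoldt U n : ℝ) : ℂ) * G n +
      ∑ n ∈ Ioc 0 N, (((lo mob U * log) n : ℝ) : ℂ) * G n)
      (∑ n ∈ Ioc 0 N, ((((lo vonMangoldt U * lo mob U) * zet) n : ℝ) : ℂ) * G n)
  have h6 := norm_add_le (∑ n ∈ Ioc 0 N, ((lo vonMangoldt U n : ℝ) : ℂ) * G n)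
      (∑ n ∈ Ioc 0 N, (((lo mob U * log) n : ℝ) : ℂ) * G n)
  linarith

end Pool.Agent.Helper2
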