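import Pool.Agent.Helper2.Assembly

namespace Pool.Agent.Helper2

open Finset
open scoped BigOperators

theorem log_le_small (m : ℕ) (hm : 100000 ≤ m) : 156 * Real.log m ≤ m := by
  have hmr : (100000 : ℝ) ≤ m := by exact_mod_cast hm
  have h0 : (0 : ℝ) < m := by linarith
  have hs : 0 < Real.sqrt (m : ℝ) := Real.sqrt_pos.2 h0
  have h1 : Real.log (m : ℝ) = 2 * Real.log (Real.sqrt (m : ℝ)) := by
    rw [Real.log_sqrt h0.le]; ring
  have h2 : Real.log (Real.sqrt (m : ℝ)) ≤ Real.sqrt (m : ℝ) - 1 :=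
    Real.log_le_sub_one_of_pos hs
  have h3 : (312 : ℝ) ≤ Real.sqrt m := by
    rw [Real.le_sqrt (by norm_num) h0.le]
    norm_num
    linarith
  have h4 : Real.sqrt (m : ℝ) * Real.sqrt m = m := Real.mul_self_sqrt h0.le
  nlinarith

theorem log_four_mul (m : ℕ) (hm : 100000 ≤ m) :
    12 * Real.log ((4 * m ^ 12 : ℕ) : ℝ) ≤ m := by
  have h1 := log_le_small m hm
  have h2 : 4 * m ^ 12 ≤ m ^ 13 := by
    calc 4 * m ^ 12 ≤ m * m ^ 12 := Nat.mul_le_mul_right _ (by omega)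
      _ = m ^ 13 := by ring
  have h3 : Real.log ((4 * m ^ 12 : ℕ) : ℝ) ≤ Real.log ((m ^ 13 : ℕ) : ℝ) := by
    refine Real.log_le_log ?_ (by exact_mod_cast h2)
    have : 0 < 4 * m ^ 12 := by positivity
    exact_mod_cast this
  have h4 : Real.log ((m ^ 13 : ℕ) : ℝ) = 13 * Real.log m := by
    push_cast
    rw [Real.log_pow]
    norm_num
  linarith

def primesLow (m : ℕ) : Finset ℕ := (Icc (m ^ 12) (4 * m ^ 12)).filter Nat.Prime

theorem card_primesLow_le (m : ℕ) (hm : 1 ≤ m) : #(primesLow m) ≤ 4 * m ^ 12 := by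
  have h1 : 1 ≤ m ^ 12 := Nat.one_le_pow _ _ hm
  calc #(primesLow m) ≤ #(Icc (m ^ 12) (4 * m ^ 12)) := card_filter_le _ _
    _ = 4 * m ^ 12 + 1 - m ^ 12 := Nat.card_Icc _ _
    _ ≤ 4 * m ^ 12 := by omega

theorem card_primesLow_ge (m : ℕ) (hm : 100000 ≤ m) : m ^ 11 ≤ #(primesLow m) := by
  have hmr : (100000 : ℝ) ≤ m := by exact_mod_cast hm
  set y : ℕ := m ^ 12 with hy
  have hyr : (y : ℝ) = (m : ℝ) ^ 12 := by rw [hy]; push_cast; ring
  have hy1 : 1 ≤ y := Nat.one_le_pow _ _ (by omega)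
  have hlog := log_four_mul m hm
  have hlog2 : 0.6931 ≤ Real.log 2 := by linarith [Real.log_two_gt_d9]
  have hlog4 : Real.log 4 = 2 * Real.log 2 := by
    rw [show (4 : ℝ) = 2 ^ 2 by norm_num, Real.log_pow]; norm_num
  have h1 := Chebyshev.theta_ge (4 * y)
  have h2 := Chebyshev.theta_le_log4_mul_x (x := (y : ℝ)) (Nat.cast_nonneg _)
  have h3 : Real.sqrt ((4 * y : ℕ) : ℝ) = 2 * (m : ℝ) ^ 6 := by
    push_cast
    rw [hyr, show (4 : ℝ) * (m : ℝ) ^ 12 = (2 * (m : ℝ) ^ 6) ^ 2 by ring]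
    exact Real.sqrt_sq (by positivity)
  have h4pos : (0 : ℝ) < ((4 * y : ℕ) : ℝ) := by
    have : 0 < 4 * y := by omega
    exact_mod_cast this
  have h4 : Real.log (((4 * y : ℕ) : ℝ) + 1) ≤ 1 + Real.log ((4 * y : ℕ) : ℝ) := by
    have e1 : Real.log (((4 * y : ℕ) : ℝ) + 1) ≤ Real.log (2 * ((4 * y : ℕ) : ℝ)) := by
      refine Real.log_le_log (by positivity) ?_
      have : (1 : ℝ) ≤ ((4 * y : ℕ) : ℝ) := by exact_mod_cast (by omega : 1 ≤ 4 * y)
      linarith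
    rw [Real.log_mul (by norm_num) h4pos.ne'] at e1
    have : Real.log 2 ≤ 1 := by linarith [Real.log_two_lt_d9]
    linarith
  -- the difference of theta functions
  have h5 : Chebyshev.theta ((4 * y : ℕ) : ℝ) - Chebyshev.theta (y : ℝ) ≤
      #(primesLow m) * Real.log ((4 * y : ℕ) : ℝ) := by
    unfold Chebyshev.theta
    rw [Nat.floor_natCast, Nat.floor_natCast]
    have hsub : (Ioc 0 y).filter Nat.Prime ⊆ (Ioc 0 (4 * y)).filter Nat.Prime :=
      filter_subset_filter _ (Ioc_subset_Ioc_right (by omega))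
    have hsplit := sum_sdiff (f := fun p : ℕ => Real.log (p : ℝ)) hsub
    have hrest : ∑ p ∈ (Ioc 0 (4 * y)).filter Nat.Prime \ (Ioc 0 y).filter Nat.Prime,
        Real.log (p : ℝ) ≤ #(primesLow m) * Real.log ((4 * y : ℕ) : ℝ) := by
      have hs : (Ioc 0 (4 * y)).filter Nat.Prime \ (Ioc 0 y).filter Nat.Prime ⊆ primesLow m := by
        intro p hp
        rw [mem_sdiff, mem_filter, mem_filter, mem_Ioc, mem_Ioc] at hp
        obtain ⟨⟨⟨a1, a2⟩, a3⟩, a4⟩ := hp
        rw [primesLow, mem_filter, mem_Icc]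
        refine ⟨⟨?_, a2⟩, a3⟩
        by_contra hcon
        exact a4 ⟨⟨a1, by omega⟩, a3⟩
      calc _ ≤ ∑ p ∈ (Ioc 0 (4 * y)).filter Nat.Prime \ (Ioc 0 y).filter Nat.Prime,
            Real.log ((4 * y : ℕ) : ℝ) := by
            refine sum_le_sum fun p hp => ?_
            have := hs hp
            rw [primesLow, mem_filter, mem_Icc] at this
            refine Real.log_le_log ?_ ?_
            · exact_mod_cast this.2.pos
            · exact_mod_cast this.1.2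
        _ = #((Ioc 0 (4 * y)).filter Nat.Prime \ (Ioc 0 y).filter Nat.Prime) *
            Real.log ((4 * y : ℕ) : ℝ) := by rw [sum_const, nsmul_eq_mul]
        _ ≤ _ := by
            refine mul_le_mul_of_nonneg_right ?_ (Real.log_natCast_nonneg _)
            exact_mod_cast card_le_card hs
    linarith
  have h6 : (m : ℝ) ^ 12 ≤ #(primesLow m) * Real.log ((4 * y : ℕ) : ℝ) := by
    refine le_trans ?_ h5
    rw [h3] at h1
    have e1 : 2 * (2 * (m : ℝ) ^ 6) * Real.log ((4 * y : ℕ) : ℝ) ≤ (m : ℝ) ^ 7 / 3 := by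
      have : (m : ℝ) ^ 6 * (12 * Real.log ((4 * y : ℕ) : ℝ)) ≤ (m : ℝ) ^ 6 * m :=
        mul_le_mul_of_nonneg_left hlog (by positivity)
      nlinarith
    have e2 : (m : ℝ) ^ 7 ≤ (m : ℝ) ^ 12 / 100 := by
      have : (100 : ℝ) ≤ (m : ℝ) ^ 5 := by
        calc (100 : ℝ) ≤ m := by linarith
          _ ≤ (m : ℝ) ^ 5 := le_self_pow₀ (by linarith) (by norm_num)
      have : (m : ℝ) ^ 7 * 100 ≤ (m : ℝ) ^ 7 * (m : ℝ) ^ 5 :=
        mul_le_mul_of_nonneg_left this (by positivity)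
      have e : (m : ℝ) ^ 7 * (m : ℝ) ^ 5 = (m : ℝ) ^ 12 := by ring
      linarith
    have e3 : (m : ℝ) ≤ (m : ℝ) ^ 7 := le_self_pow₀ (by linarith) (by norm_num)
    have e4 : (((4 * y : ℕ) : ℝ)) = 4 * (m : ℝ) ^ 12 := by push_cast; rw [hyr]
    have e5 : (0 : ℝ) < (m : ℝ) ^ 12 := by positivity
    have e6 : (((4 * y : ℕ) : ℝ)) * Real.log 2 - Real.log 4 * (y : ℝ) ≥ 1.38 * (m : ℝ) ^ 12 := by
      rw [e4, hlog4, hyr]
      nlinarith
    linarith
  have h7 : (m : ℝ) ^ 12 * 12 ≤ #(primesLow m) * m := by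
    have : (#(primesLow m) : ℝ) * (12 * Real.log ((4 * y : ℕ) : ℝ)) ≤ #(primesLow m) * m :=
      mul_le_mul_of_nonneg_left hlog (Nat.cast_nonneg _)
    linarith
  have h8 : (m : ℝ) ^ 11 ≤ #(primesLow m) := by
    have hm0 : (0 : ℝ) < m := by linarith
    have : (m : ℝ) ^ 11 * m ≤ #(primesLow m) * m := by
      have e : (m : ℝ) ^ 11 * m = (m : ℝ) ^ 12 := by ring
      have e5 : (0 : ℝ) < (m : ℝ) ^ 12 := by positivity
      linarith
    exact le_of_mul_le_mul_right this hm0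
  exact_mod_cast h8

theorem choose_ge (n r B : ℕ) (h : B * r + r ≤ n + 1) : B ^ r ≤ n.choose r := by
  rcases Nat.eq_zero_or_pos r with rfl | hr
  · simp
  have h1 : (B * r) ^ r ≤ (n + 1 - r) ^ r := Nat.pow_le_pow_left (by omega) r
  have h2 : (n + 1 - r) ^ r ≤ r.factorial * n.choose r := by
    have := Nat.pow_le_choose (α := ℚ) r n
    have h3 : (((n + 1 - r : ℕ) : ℚ)) ^ r ≤ r.factorial * n.choose r := by
      rw [div_le_iff₀ (by positivity)] at this
      linarith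
    exact_mod_cast h3
  have h3 : r.factorial ≤ r ^ r := Nat.factorial_le_pow r
  have h4 : B ^ r * r ^ r ≤ n.choose r * r ^ r := by
    calc B ^ r * r ^ r = (B * r) ^ r := (mul_pow _ _ _).symm
      _ ≤ r.factorial * n.choose r := h1.trans h2
      _ ≤ r ^ r * n.choose r := Nat.mul_le_mul_right _ h3
      _ = _ := mul_comm _ _
  exact Nat.le_of_mul_le_mul_right h4 (Nat.pow_pos hr)

end Pool.Agent.Helper2
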