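import Mathlib

namespace Pool.Agent.Helper2

/-- `H` misses a residue class modulo every prime. -/
def Admissible (H : Finset ℕ) : Prop :=
  ∀ p : ℕ, p.Prime → ∃ r : ℕ, r < p ∧ ∀ h ∈ H, h % p ≠ r

/-- Every admissible finite set containing `0` occurs infinitely often as the pattern of a block
of consecutive primes. -/
def ConsecutivePatterns : Prop :=
  ∀ H : Finset ℕ, 0 ∈ H → Admissible H →
    Set.Infinite {n : ℕ | (∀ h ∈ H, (n + h).Prime) ∧
      ∀ m : ℕ, (n + m).Prime → (∃ h ∈ H, m ≤ h) → m ∈ H}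

end Pool.Agent.Helper2
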