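import Pool.Agent.Helper2.PatternDefs

namespace Pool.Agent.Helper2

open Finset

theorem Admissible.mono {H K : Finset ℕ} (h : Admissible K) (hs : H ⊆ K) : Admissible H := by
  intro p hp
  obtain ⟨r, hr, h2⟩ := h p hp
  exact ⟨r, hr, fun x hx => h2 x (hs hx)⟩

theorem exists_missed_of_card_lt (H : Finset ℕ) (p : ℕ) (hp : #H < p) :
    ∃ r : ℕ, r < p ∧ ∀ h ∈ H, h % p ≠ r := by
  have hc : #(H.image (· % p)) < #(range p) := by
    rw [card_range]
    exact lt_of_le_of_lt card_image_le hp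
  obtain ⟨r, hr, hr2⟩ := Finset.exists_mem_notMem_of_card_lt_card hc
  refine ⟨r, mem_range.1 hr, fun h hh e => hr2 ?_⟩
  exact mem_image.2 ⟨h, hh, e⟩

/-- if `p ∣ r + x` fails for all `x ∈ H`, a residue class is missed -/
theorem exists_missed_of_not_dvd (H : Finset ℕ) (p r : ℕ) (hp : 0 < p)
    (h : ∀ x ∈ H, ¬ p ∣ r + x) :
    ∃ s : ℕ, s < p ∧ ∀ x ∈ H, x % p ≠ s := by
  refine ⟨(p - r % p) % p, Nat.mod_lt _ hp, fun x hx e => h x hx ?_⟩
  have h1 : r % p < p := Nat.mod_lt _ hp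
  have h2 : x ≡ p - r % p [MOD p] := e
  have h3 : r + x ≡ r % p + (p - r % p) [MOD p] := (Nat.mod_modEq r p).symm.add h2
  have h4 : r % p + (p - r % p) = p := by omega
  rw [h4] at h3
  exact (Nat.modEq_zero_iff_dvd.1 (h3.trans (by simp [Nat.ModEq])))

theorem not_dvd_of_missed {p s : ℕ} (hs : s < p) (x : ℕ) (h : x % p ≠ s) :
    ¬ p ∣ (p - s) + x := by
  intro hd
  apply h
  have h1 : (p - s) + x ≡ 0 [MOD p] := Nat.modEq_zero_iff_dvd.2 hd
  have h2 : (p - s) + x + s ≡ s [MOD p] := by simpa using h1.add_right s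
  have h3 : (p - s) + x + s = x + p := by omega
  rw [h3] at h2
  have h4 : x ≡ s [MOD p] := by
    have : x + p ≡ x [MOD p] := by simp [Nat.ModEq]
    exact this.symm.trans h2
  have := h4
  unfold Nat.ModEq at this
  rw [Nat.mod_eq_of_lt hs] at this
  exact this

theorem modEq_dvd_add {p a x y : ℕ} (h : x ≡ y [MOD p]) : p ∣ a + x ↔ p ∣ a + y := by
  constructor
  · intro hd
    exact Nat.modEq_zero_iff_dvd.1 ((Nat.ModEq.add_left a h).symm.trans
      (Nat.modEq_zero_iff_dvd.2 hd))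
  · intro hd
    exact Nat.modEq_zero_iff_dvd.1 ((Nat.ModEq.add_left a h).trans
      (Nat.modEq_zero_iff_dvd.2 hd))

/-- solve `n + j * P ≡ c mod M` -/
theorem exists_shift (P M n c : ℕ) (hM : 0 < M) (hP : Squarefree P)
    (h : ∀ p : ℕ, p.Prime → p ∣ M → n ≡ c [MOD p]) :
    ∃ j < M, n + j * P ≡ c [MOD M] := by
  have hg : ((P.gcd M : ℕ) : ℤ) ∣ (c : ℤ) - n := by
    have hsq : Squarefree (P.gcd M) := hP.squarefree_of_dvd (Nat.gcd_dvd_left _ _)
    rw [← Nat.prod_primeFactors_of_squarefree hsq]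
    push_cast
    refine Finset.prod_dvd_of_coprime ?_ ?_
    · intro a ha b hb hab
      have ha' := Nat.prime_of_mem_primeFactors ha
      have hb' := Nat.prime_of_mem_primeFactors hb
      exact Nat.isCoprime_iff_coprime.2 ((Nat.coprime_primes ha' hb').2 hab)
    · intro p hp
      have hp' := Nat.prime_of_mem_primeFactors hp
      have hpM : p ∣ M := (Nat.dvd_of_mem_primeFactors hp).trans (Nat.gcd_dvd_right _ _)
      exact (Nat.modEq_iff_dvd.1 (h p hp' hpM))
  obtain ⟨t, ht⟩ := hg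
  have hb := Nat.gcd_eq_gcd_ab P M
  set u : ℤ := t * P.gcdA M with hu
  have hMz : (0 : ℤ) < M := by exact_mod_cast hM
  refine ⟨(u % M).toNat, ?_, ?_⟩
  · have h1 := Int.emod_lt_of_pos u hMz
    have h2 := Int.emod_nonneg u hMz.ne'
    omega
  · rw [Nat.modEq_iff_dvd]
    have h2 := Int.emod_nonneg u hMz.ne'
    push_cast
    rw [Int.toNat_of_nonneg h2]
    have h3 : u % M = u - M * (u / M) := Int.emod_def u M
    rw [h3]
    have h4 : (c : ℤ) - (n + (u - M * (u / M)) * P) =
        ((c : ℤ) - n) - u * P + M * (u / M) * P := by ring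
    rw [h4, ht, hb, hu]
    refine ⟨t * P.gcdB M + (t * P.gcdA M / M) * P, ?_⟩
    ring

/-- forcing lemma -/
theorem force (W : ∀ H : Finset ℕ, Admissible H → ∃ n : ℕ, ∀ h ∈ H, (n + h).Prime)
    (H : Finset ℕ) (hne : H.Nonempty) (hH : Admissible H)
    (S : Finset ℕ) (hS : ∀ p ∈ S, p.Prime) (r : ℕ → ℕ) (hr : ∀ p ∈ S, ∀ h ∈ H, ¬ p ∣ r p + h)
    (M c : ℕ) (hM : 0 < M) (hMS : ∀ p : ℕ, p.Prime → p ∣ M → p ∈ S ∧ r p ≡ c [MOD p]) (N : ℕ) :
    ∃ n > N, (∀ h ∈ H, (n + h).Prime) ∧ n ≡ c [MOD M] ∧ ∀ p ∈ S, n ≡ r p [MOD p] := by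
  classical
  obtain ⟨h0, hh0⟩ := hne
  set N' : ℕ := N + ∑ p ∈ S, p with hN'
  have hSle : ∀ p ∈ S, p ≤ N' := by
    intro p hp
    have : p ≤ ∑ p ∈ S, p := Finset.single_le_sum (f := fun x => x) (fun _ _ => Nat.zero_le _) hp
    omega
  set T : ℕ := M * (#H + ∑ p ∈ S, p + (N' + 1)) with hT
  set B : ℕ := T + ∑ p ∈ S, p + M + 1 with hB
  set P : ℕ := primorial B with hP
  have hPsq : Squarefree P := by
    rw [hP]
    exact squarefree_primorial B
  have hPdvd : ∀ p : ℕ, p.Prime → p ≤ B → p ∣ P := by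
    intro p hp hpB
    rw [hP]
    exact hp.dvd_primorial_iff.2 hpB
  have hSB : ∀ p ∈ S, p ≤ B := by
    intro p hp
    have : p ≤ ∑ p ∈ S, p := Finset.single_le_sum (f := fun x => x) (fun _ _ => Nat.zero_le _) hp
    omega
  have hcop : ∀ p ∈ S, p.Coprime (P / p) := by
    intro p hp
    obtain ⟨k, hk⟩ := hPdvd p (hS p hp) (hSB p hp)
    have hp0 := (hS p hp).pos
    rw [hk, Nat.mul_div_cancel_left k hp0]
    have : Squarefree (p * k) := hk ▸ hPsq
    exact (Nat.squarefree_mul_iff.1 this).1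
  -- the forcing elements
  have hz : ∀ p b : ℕ, ∃ z : ℕ, p ∈ S → z ≡ b [MOD p] ∧ z ≡ h0 [MOD P / p] := by
    intro p b
    by_cases hp : p ∈ S
    · exact ⟨(Nat.chineseRemainder (hcop p hp) b h0 : ℕ), fun _ =>
        (Nat.chineseRemainder (hcop p hp) b h0).2⟩
    · exact ⟨0, fun h => absurd h hp⟩
  choose z hz using hz
  set w : ℕ → ℕ := fun n => h0 + P * (n + h0) with hw
  set H' : Finset ℕ := H ∪ (S.biUnion fun p =>
    ((range p).filter (fun b => ¬ p ∣ r p + b)).image (z p)) ∪ (range (N' + 1)).image w with hH'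
  set H'' : Finset ℕ := (range M).biUnion fun j => H'.image (· + j * P) with hH''
  have hcard' : #H' ≤ #H + ∑ p ∈ S, p + (N' + 1) := by
    rw [hH']
    refine (card_union_le _ _).trans (Nat.add_le_add ((card_union_le _ _).trans
      (Nat.add_le_add_left ?_ _)) ?_)
    · refine card_biUnion_le.trans (Finset.sum_le_sum fun p _ => ?_)
      refine card_image_le.trans ((card_filter_le _ _).trans ?_)
      rw [card_range]
    · refine card_image_le.trans ?_
      rw [card_range]
  have hcard : #H'' ≤ T := by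
    rw [hH'', hT]
    refine card_biUnion_le.trans ?_
    refine (Finset.sum_le_sum (g := fun _ => #H + ∑ p ∈ S, p + (N' + 1))
      fun j _ => card_image_le.trans hcard').trans ?_
    rw [sum_const, card_range, smul_eq_mul]
  -- residues of elements of H'
  have hres : ∀ p : ℕ, p.Prime → p ≤ B → ∀ x ∈ H', (∃ h ∈ H, x ≡ h [MOD p]) ∨
      (p ∈ S ∧ ∃ b, ¬ p ∣ r p + b ∧ x ≡ b [MOD p]) := by
    intro p hp hpB x hx
    rw [hH', mem_union, mem_union] at hx
    rcases hx with (hx | hx) | hx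
    · exact Or.inl ⟨x, hx, rfl⟩
    · rw [mem_biUnion] at hx
      obtain ⟨q, hq, hx⟩ := hx
      rw [mem_image] at hx
      obtain ⟨b, hb, rfl⟩ := hx
      rw [mem_filter] at hb
      by_cases hqp : q = p
      · subst hqp
        exact Or.inr ⟨hq, b, hb.2, (hz q b hq).1⟩
      · left
        refine ⟨h0, hh0, (hz q b hq).2.of_dvd ?_⟩
        obtain ⟨k, hk⟩ := hPdvd q (hS q hq) (hSB q hq)
        have hq0 := (hS q hq).pos
        rw [hk, Nat.mul_div_cancel_left k hq0]
        have h1 : p ∣ q * k := hk ▸ hPdvd p hp hpB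
        exact (Nat.Coprime.dvd_of_dvd_mul_left
          ((Nat.coprime_primes hp (hS q hq)).2 (Ne.symm hqp)) h1)
    · rw [mem_image] at hx
      obtain ⟨n, _, rfl⟩ := hx
      left
      refine ⟨h0, hh0, ?_⟩
      have : P * (n + h0) ≡ 0 [MOD p] :=
        Nat.modEq_zero_iff_dvd.2 ((hPdvd p hp hpB).mul_right _)
      simpa [hw] using (Nat.ModEq.add_left h0 this)
  have hshift : ∀ p : ℕ, p.Prime → p ≤ B → ∀ x j : ℕ, x + j * P ≡ x [MOD p] := by
    intro p hp hpB x j
    have : j * P ≡ 0 [MOD p] := Nat.modEq_zero_iff_dvd.2 ((hPdvd p hp hpB).mul_left _)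
    simpa using (Nat.ModEq.add_left x this)
  have hadm : Admissible H'' := by
    intro p hp
    by_cases hpB : p ≤ B
    · by_cases hpS : p ∈ S
      · refine exists_missed_of_not_dvd H'' p (r p) hp.pos ?_
        intro y hy
        rw [hH'', mem_biUnion] at hy
        obtain ⟨j, _, hy⟩ := hy
        rw [mem_image] at hy
        obtain ⟨x, hx, rfl⟩ := hy
        rw [modEq_dvd_add (hshift p hp hpB x j)]
        rcases hres p hp hpB x hx with ⟨h, hh, e⟩ | ⟨_, b, hb, e⟩
        · rw [modEq_dvd_add e]; exact hr p hpS h hh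
        · rw [modEq_dvd_add e]; exact hb
      · obtain ⟨s, hs, h2⟩ := hH p hp
        refine exists_missed_of_not_dvd H'' p (p - s) hp.pos ?_
        intro y hy
        rw [hH'', mem_biUnion] at hy
        obtain ⟨j, _, hy⟩ := hy
        rw [mem_image] at hy
        obtain ⟨x, hx, rfl⟩ := hy
        rw [modEq_dvd_add (hshift p hp hpB x j)]
        rcases hres p hp hpB x hx with ⟨h, hh, e⟩ | ⟨h, _⟩
        · rw [modEq_dvd_add e]
          exact not_dvd_of_missed hs h (h2 h hh)
        · exact absurd h hpS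
    · exact exists_missed_of_card_lt H'' p (by omega)
  obtain ⟨n', hn'⟩ := W H'' hadm
  have hmem : ∀ x ∈ H', ∀ j < M, (n' + (x + j * P)).Prime := by
    intro x hx j hj
    refine hn' _ ?_
    rw [hH'', mem_biUnion]
    exact ⟨j, mem_range.2 hj, mem_image.2 ⟨x, hx, rfl⟩⟩
  have hmem0 : ∀ x ∈ H', (n' + x).Prime := by
    intro x hx
    simpa using hmem x hx 0 hM
  have hHsub : ∀ h ∈ H, h ∈ H' := by
    intro h hh
    rw [hH', mem_union, mem_union]
    exact Or.inl (Or.inl hh)
  have hPpos : 0 < P := primorial_pos B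
  have hbig : N' < n' := by
    by_contra hle
    push Not at hle
    have h1 : w n' ∈ H' := by
      rw [hH', mem_union]
      exact Or.inr (mem_image.2 ⟨n', mem_range.2 (by omega), rfl⟩)
    have h2 := hmem0 _ h1
    have h3 := hmem0 _ (hHsub h0 hh0)
    have h4 : n' + w n' = (n' + h0) * (P + 1) := by simp only [hw]; ring
    rw [h4] at h2
    exact Nat.not_prime_mul h3.one_lt.ne' (by omega) h2
  have hforce : ∀ p ∈ S, n' ≡ r p [MOD p] := by
    intro p hp
    have hp' := hS p hp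
    set b : ℕ := (p - n' % p) % p with hb
    have hblt : b < p := Nat.mod_lt _ hp'.pos
    have hdv : p ∣ n' + b := by
      have h1 : n' % p < p := Nat.mod_lt _ hp'.pos
      have h3 : n' + b ≡ n' % p + (p - n' % p) [MOD p] :=
        (Nat.mod_modEq n' p).symm.add (Nat.mod_modEq _ _)
      have h4 : n' % p + (p - n' % p) = p := by omega
      rw [h4] at h3
      exact (Nat.modEq_zero_iff_dvd.1 (h3.trans (by simp [Nat.ModEq])))
    by_cases hd : p ∣ r p + b
    · have h1 : n' + b ≡ r p + b [MOD p] :=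
        (Nat.modEq_zero_iff_dvd.2 hdv).trans (Nat.modEq_zero_iff_dvd.2 hd).symm
      exact Nat.ModEq.add_right_cancel' b h1
    · exfalso
      have h1 : z p b ∈ H' := by
        rw [hH', mem_union, mem_union]
        refine Or.inl (Or.inr ?_)
        rw [mem_biUnion]
        exact ⟨p, hp, mem_image.2 ⟨b, mem_filter.2 ⟨mem_range.2 hblt, hd⟩, rfl⟩⟩
      have h2 := hmem0 _ h1
      have h3 : p ∣ n' + z p b := (modEq_dvd_add (hz p b hp).1).2 hdv
      have h4 := (Nat.prime_dvd_prime_iff_eq hp' h2).1 h3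
      have := hSle p hp
      omega
  obtain ⟨j, hj, hjc⟩ := exists_shift P M n' c hM hPsq (by
    intro p hp hpM
    obtain ⟨h1, h2⟩ := hMS p hp hpM
    exact (hforce p h1).trans h2)
  refine ⟨n' + j * P, ?_, ?_, hjc, ?_⟩
  · have : 0 ≤ j * P := Nat.zero_le _
    omega
  · intro h hh
    have := hmem h (hHsub h hh) j hj
    have e : n' + j * P + h = n' + (h + j * P) := by ring
    rw [e]; exact this
  · intro p hp
    exact (hshift p (hS p hp) (hSB p hp) n' j).trans (hforce p hp)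

end Pool.Agent.Helper2
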