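import Pool.Agent.Helper2.PatternForce

namespace Pool.Agent.Helper2

open Finset

theorem admissible_sub {H : Finset ℕ} (hH : Admissible H) (a : ℕ) (ha : ∀ h ∈ H, a ≤ h) :
    Admissible (H.image (· - a)) := by
  intro p hp
  obtain ⟨s, hs, h2⟩ := hH p hp
  refine exists_missed_of_not_dvd _ p (p - s + a) hp.pos ?_
  intro x hx
  rw [mem_image] at hx
  obtain ⟨h, hh, rfl⟩ := hx
  have h3 := not_dvd_of_missed hs h (h2 h hh)
  have h4 := ha h hh
  have e : p - s + a + (h - a) = p - s + h := by omega
  rwa [e]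

theorem one_translate_of_consecutive (Q : ConsecutivePatterns) (H : Finset ℕ)
    (hH : Admissible H) : ∃ n : ℕ, ∀ h ∈ H, (n + h).Prime := by
  classical
  rcases H.eq_empty_or_nonempty with rfl | hne
  · exact ⟨0, by simp⟩
  · set a := H.min' hne with ha
    have hle : ∀ h ∈ H, a ≤ h := fun h hh => H.min'_le h hh
    have h0 : 0 ∈ H.image (· - a) := mem_image.2 ⟨a, H.min'_mem hne, by simp⟩
    have hinf := Q _ h0 (admissible_sub hH a hle)
    obtain ⟨n, hn, hna⟩ := hinf.exists_gt a
    refine ⟨n - a, fun h hh => ?_⟩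
    have h1 := hn.1 (h - a) (mem_image.2 ⟨h, hh, rfl⟩)
    have h2 := hle h hh
    have e : n - a + h = n + (h - a) := by omega
    rwa [e]

theorem lt_nth_prime_add (K : ℕ) (m : ℕ) : K < Nat.nth Nat.Prime (K + m) := by
  have h := Nat.add_two_le_nth_prime (K + m)
  omega

theorem strong_of_one (W : ∀ H : Finset ℕ, Admissible H → ∃ n : ℕ, ∀ h ∈ H, (n + h).Prime)
    (H C : Finset ℕ) (M c : ℕ) (hH : Admissible H) (hdis : Disjoint H C) (hM : 0 < M)
    (hc : ∀ h ∈ H, (c + h).Coprime M) :
    Set.Infinite {n : ℕ | n ≡ c [MOD M] ∧ (∀ h ∈ H, (n + h).Prime) ∧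
      ∀ m ∈ C, ¬ (n + m).Prime} := by
  classical
  -- reduce to nonempty `H`
  wlog hne : H.Nonempty generalizing H with hw
  · have hH0 : H = ∅ := Finset.not_nonempty_iff_eq_empty.1 hne
    set K : ℕ := C.sup id + 1 + c with hK
    set h : ℕ := K * M + (K * M - c) + 1 - K * M with hh
    have hKM : K ≤ K * M := Nat.le_mul_of_pos_right K hM
    have hh' : h = K * M - c + 1 := by omega
    have hch : c + h = K * M + 1 := by omega
    have hsing : Admissible {h} := by
      intro p hp
      refine ⟨(h + 1) % p, Nat.mod_lt _ hp.pos, ?_⟩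
      intro x hx e
      rw [mem_singleton] at hx
      rw [hx] at e
      have h2 : h + 0 ≡ h + 1 [MOD p] := by simpa [Nat.ModEq] using e
      have h3 : 0 ≡ 1 [MOD p] := Nat.ModEq.add_left_cancel' h h2
      have := (Nat.modEq_iff_dvd' (by omega)).1 h3
      exact hp.one_lt.ne' (Nat.dvd_one.1 (by simpa using this))
    have hnot : h ∉ C := by
      intro hC
      have h1 : h ≤ C.sup id := Finset.le_sup (f := id) hC
      have h2 : C.sup id + 1 ≤ K * M - c := by omega
      omega
    have hd : Disjoint ({h} : Finset ℕ) C := by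
      rw [Finset.disjoint_singleton_left]; exact hnot
    refine (hw {h} hsing hd ?_ (singleton_nonempty h)).mono ?_
    · intro x hx
      rw [mem_singleton] at hx
      subst hx
      rw [hch]
      simp
    · rintro n ⟨h1, _, h3⟩
      exact ⟨h1, by simp [hH0], h3⟩
  rw [Set.infinite_iff_exists_gt]
  intro N
  set K : ℕ := M + H.sup id + C.sup id + 1 with hK
  set q : ℕ → ℕ := fun m => Nat.nth Nat.Prime (K + m) with hq
  have hqprime : ∀ m, (q m).Prime := fun m => Nat.prime_nth_prime _
  have hqK : ∀ m, K < q m := fun m => lt_nth_prime_add K m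
  have hqinj : Function.Injective q := by
    intro a b hab
    have := Nat.nth_injective Nat.infinite_setOfPred_prime hab
    omega
  have hHK : ∀ h ∈ H, h < K := by
    intro h hh
    have : h ≤ H.sup id := Finset.le_sup (f := id) hh
    omega
  have hCK : ∀ m ∈ C, m < K := by
    intro h hh
    have : h ≤ C.sup id := Finset.le_sup (f := id) hh
    omega
  have hMK : M < K := by omega
  -- residues
  have hr : ∀ p : ℕ, ∃ r : ℕ, (p.Prime → p ∣ M → r = c) ∧ (∀ m ∈ C, p = q m → p ∣ r + m) := by
    intro p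
    by_cases hp : ∃ m ∈ C, p = q m
    · obtain ⟨m, hm, rfl⟩ := hp
      refine ⟨q m - m, ?_, ?_⟩
      · intro _ hd
        exact absurd (Nat.le_of_dvd hM hd) (by have := hqK m; omega)
      · intro m' _ e
        have := hqinj e
        subst this
        have h1 := hqK m
        have h2 := hCK m hm
        have e2 : q m - m + m = q m := by omega
        rw [e2]
    · exact ⟨c, fun _ _ => rfl, fun m hm e => absurd ⟨m, hm, e⟩ hp⟩
  choose r hr1 hr2 using hr
  set S : Finset ℕ := M.primeFactors ∪ C.image q with hS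
  obtain ⟨n, hnN, hn1, hn2, hn3⟩ := force W H hne hH S (by
      intro p hp
      rw [hS, mem_union] at hp
      rcases hp with hp | hp
      · exact Nat.prime_of_mem_primeFactors hp
      · obtain ⟨m, _, rfl⟩ := mem_image.1 hp
        exact hqprime m) r (by
      intro p hp h hh
      rw [hS, mem_union] at hp
      rcases hp with hp | hp
      · have hp' := Nat.prime_of_mem_primeFactors hp
        have hd := Nat.dvd_of_mem_primeFactors hp
        rw [hr1 p hp' hd]
        intro hdv
        have := Nat.dvd_gcd hdv hd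
        rw [hc h hh] at this
        exact hp'.one_lt.ne' (Nat.dvd_one.1 this)
      · obtain ⟨m, hm, rfl⟩ := mem_image.1 hp
        intro hdv
        have h2 := hr2 (q m) m hm rfl
        have h3 : h ≡ m [MOD q m] := by
          have : r (q m) + h ≡ r (q m) + m [MOD q m] :=
            (Nat.modEq_zero_iff_dvd.2 hdv).trans (Nat.modEq_zero_iff_dvd.2 h2).symm
          exact Nat.ModEq.add_left_cancel' _ this
        have h4 : h = m := by
          have a1 := hHK h hh
          have a2 := hCK m hm
          have a3 := hqK m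
          exact Nat.ModEq.eq_of_lt_of_lt h3 (by omega) (by omega)
        subst h4
        exact Finset.disjoint_left.1 hdis hh hm) M c hM (by
      intro p hp hd
      refine ⟨?_, ?_⟩
      · rw [hS, mem_union]
        exact Or.inl (Nat.mem_primeFactors.2 ⟨hp, hd, hM.ne'⟩)
      · rw [hr1 p hp hd]) (N + ∑ m ∈ C, q m)
  refine ⟨n, ⟨hn2, hn1, ?_⟩, by omega⟩
  intro m hm hprime
  have h1 : q m ∣ n + m := by
    have h2 := hn3 (q m) (by
      rw [hS, mem_union]
      exact Or.inr (mem_image.2 ⟨m, hm, rfl⟩))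
    have h3 := hr2 (q m) m hm rfl
    exact Nat.modEq_zero_iff_dvd.1 ((h2.add_right m).trans (Nat.modEq_zero_iff_dvd.2 h3))
  have h4 := (Nat.prime_dvd_prime_iff_eq (hqprime m) hprime).1 h1
  have h5 : q m ≤ ∑ m ∈ C, q m := Finset.single_le_sum (f := q) (fun _ _ => Nat.zero_le _) hm
  omega

theorem consecutive_of_strong (h : ∀ (H C : Finset ℕ) (M c : ℕ), Admissible H → Disjoint H C →
      0 < M → (∀ h ∈ H, (c + h).Coprime M) →
      Set.Infinite {n : ℕ | n ≡ c [MOD M] ∧ (∀ h ∈ H, (n + h).Prime) ∧
        ∀ m ∈ C, ¬ (n + m).Prime}) : ConsecutivePatterns := by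
  classical
  intro H h0 hH
  have := h H ((range (H.sup id + 1)) \ H) 1 0 hH Finset.disjoint_sdiff one_pos
    (fun _ _ => by simp)
  refine this.mono ?_
  rintro n ⟨_, h1, h2⟩
  refine ⟨h1, fun m hm hle => ?_⟩
  by_contra hmH
  obtain ⟨h', hh', hle⟩ := hle
  have h3 : h' ≤ H.sup id := Finset.le_sup (f := id) hh'
  exact h2 m (mem_sdiff.2 ⟨mem_range.2 (by omega), hmH⟩) hm

end Pool.Agent.Helper2
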