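import Pool.Agent.Helper2.AverageFamily

namespace Pool.Agent.Helper2

open Finset ArithmeticFunction
open scoped BigOperators

theorem total_ge (N : ℕ) (hN : 10000 ≤ N) : (N : ℝ) / 5 ≤ total N := by
  set M : ℕ := N / 2 with hM
  have hM1 : 1 ≤ M := by omega
  have hMN : M ≤ N := Nat.div_le_self N 2
  have hlog2 : 0.6931 ≤ Real.log 2 := by linarith [Real.log_two_gt_d9]
  have hlog2' : Real.log 2 ≤ 0.6932 := by linarith [Real.log_two_lt_d9]
  have h1 : Chebyshev.psi M * Real.log 2 ≤ total N := by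
    unfold Chebyshev.psi total
    rw [Nat.floor_natCast, Finset.sum_mul]
    calc ∑ n ∈ Ioc 0 M, vonMangoldt n * Real.log 2 ≤ ∑ n ∈ Ioc 0 M, wt N n := by
          refine Finset.sum_le_sum fun n hn => ?_
          have hn1 := (mem_Ioc.1 hn).1
          have hn2 := (mem_Ioc.1 hn).2
          have hn' : (0 : ℝ) < n := by exact_mod_cast hn1
          refine mul_le_mul_of_nonneg_left ?_ vonMangoldt_nonneg
          have h3 : (2 : ℝ) ≤ (N : ℝ) / n := by
            rw [le_div_iff₀ hn']
            have : 2 * n ≤ N := by omega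
            exact_mod_cast this
          rw [Real.posLog_eq_log (by rw [abs_of_nonneg (by positivity)]; linarith)]
          exact Real.log_le_log (by norm_num) h3
      _ ≤ ∑ n ∈ Ioc 0 N, wt N n := by
          refine Finset.sum_le_sum_of_subset_of_nonneg ?_ fun _ _ _ => wt_nonneg _ _
          exact Finset.Ioc_subset_Ioc_right hMN
  have h2 := Chebyshev.psi_ge M
  have hMr : ((N : ℝ) - 1) / 2 ≤ M := by
    have : N ≤ 2 * M + 1 := by omega
    have h : (N : ℝ) ≤ 2 * M + 1 := by exact_mod_cast this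
    linarith
  have hMr' : (M : ℝ) ≤ N / 2 := by
    have : 2 * M ≤ N := by omega
    have h : (2 : ℝ) * M ≤ N := by exact_mod_cast this
    linarith
  have hNr : (10000 : ℝ) ≤ N := by exact_mod_cast hN
  have hlogM : Real.log (M + 1) ≤ 0.02 * N := by
    have hs : 0 < Real.sqrt ((M : ℝ) + 1) := Real.sqrt_pos.2 (by positivity)
    have h3 : Real.log ((M : ℝ) + 1) = 2 * Real.log (Real.sqrt ((M : ℝ) + 1)) := by
      rw [Real.log_sqrt (by positivity)]; ring
    have h4 : Real.log (Real.sqrt ((M : ℝ) + 1)) ≤ Real.sqrt ((M : ℝ) + 1) - 1 :=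
      Real.log_le_sub_one_of_pos hs
    have h5 : Real.sqrt ((M : ℝ) + 1) ≤ 0.01 * N + 1 := by
      rw [Real.sqrt_le_left (by positivity)]
      nlinarith
    linarith
  have h6 : (M : ℝ) * Real.log 2 - Real.log (M + 1) ≥ 0.31 * N := by
    have : ((N : ℝ) - 1) / 2 * 0.6931 ≤ M * Real.log 2 := by
      have h0 : 0 ≤ ((N : ℝ) - 1) / 2 := by linarith
      exact mul_le_mul hMr hlog2 (by norm_num) (by positivity)
    linarith
  have h7 : (0.31 * N) * 0.6931 ≤ Chebyshev.psi M * Real.log 2 :=
    mul_le_mul (by linarith) hlog2 (by norm_num) (Chebyshev.psi_nonneg _)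
  linarith

/-- primes counted -/
def Good (N d : ℕ) : Finset ℕ :=
  (Ioc 0 N).filter (fun p => p.Prime ∧ p ≡ 1 [MOD d] ∧ ((p - 1) / d).Coprime d)

theorem wt_le (N n : ℕ) (hn : n ∈ Ioc 0 N) (hN : 1 ≤ N) : wt N n ≤ Real.log N ^ 2 := by
  have hn1 := (mem_Ioc.1 hn).1
  have hn2 := (mem_Ioc.1 hn).2
  have hlogN : 0 ≤ Real.log N := Real.log_natCast_nonneg N
  unfold wt
  rw [sq]
  refine mul_le_mul ?_ (posLog_div_le N hN n hn1) (posLog_nonneg' _) hlogN
  refine vonMangoldt_le_log.trans (Real.log_le_log (by exact_mod_cast hn1) ?_)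
  exact_mod_cast hn2

theorem card_class_le (N m : ℕ) (hm : 1 ≤ m) :
    (#((Ioc 0 N).filter (fun n => 1 < n ∧ m ∣ n - 1)) : ℝ) ≤ (N : ℝ) / m := by
  have h1 : (Ioc 0 N).filter (fun n => 1 < n ∧ m ∣ n - 1) ⊆
      (Ioc 0 (N / m)).image (fun k => m * k + 1) := by
    intro n hn
    rw [mem_filter, mem_Ioc] at hn
    obtain ⟨⟨_, h2⟩, h3, k, hk⟩ := hn
    rw [mem_image]
    refine ⟨k, ?_, by omega⟩
    rw [mem_Ioc]
    constructor
    · rcases Nat.eq_zero_or_pos k with rfl | h
      · omega
      · exact h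
    · rw [Nat.le_div_iff_mul_le hm, mul_comm]; omega
  have h2 : #((Ioc 0 N).filter (fun n => 1 < n ∧ m ∣ n - 1)) ≤ N / m := by
    calc _ ≤ #((Ioc 0 (N / m)).image (fun k => m * k + 1)) := card_le_card h1
      _ ≤ #(Ioc 0 (N / m)) := card_image_le
      _ = N / m := by simp
  calc (#((Ioc 0 N).filter (fun n => 1 < n ∧ m ∣ n - 1)) : ℝ) ≤ ((N / m : ℕ) : ℝ) := by
        exact_mod_cast h2
    _ ≤ (N : ℝ) / m := Nat.cast_div_le

/-- from the weighted sum to the number of good primes -/
theorem wsum_le (N d w y : ℕ) (hN : 1 ≤ N) (hd : 1 ≤ d) (hw : #d.primeFactors ≤ w) (hy : 1 ≤ y)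
    (hdy : ∀ q ∈ d.primeFactors, y ≤ q) :
    wsum N d ≤ Real.log N ^ 2 * #(Good N d) + Real.log N ^ 2 * (w * ((N : ℝ) / (d * y))) +
      2 * Real.sqrt N * Real.log N ^ 2 := by
  classical
  have hlogN : 0 ≤ Real.log N := Real.log_natCast_nonneg N
  set A := (Ioc 0 N).filter (fun n => n ≡ 1 [MOD d]) with hA
  have hsplit : wsum N d = ∑ n ∈ A.filter (fun n => ¬ n.Prime), wt N n +
      (∑ n ∈ (A.filter (fun n => n.Prime)).filter (fun n => ((n - 1) / d).Coprime d), wt N n +
      ∑ n ∈ (A.filter (fun n => n.Prime)).filter (fun n => ¬ ((n - 1) / d).Coprime d), wt N n) := by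
    rw [Finset.sum_filter_add_sum_filter_not, add_comm, Finset.sum_filter_add_sum_filter_not]
    rfl
  have hsubA : ∀ n ∈ A, n ∈ Ioc 0 N := fun n hn => (mem_filter.1 hn).1
  have b1 : ∑ n ∈ A.filter (fun n => ¬ n.Prime), wt N n ≤ 2 * Real.sqrt N * Real.log N ^ 2 := by
    have hNr : (1 : ℝ) ≤ N := by exact_mod_cast hN
    have h1 := Chebyshev.psi_sub_theta_le hNr
    rw [Chebyshev.psi_sub_theta_eq_sum_not_prime, Nat.floor_natCast] at h1
    calc ∑ n ∈ A.filter (fun n => ¬ n.Prime), wt N n
        ≤ ∑ n ∈ A.filter (fun n => ¬ n.Prime), vonMangoldt n * Real.log N := by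
          refine Finset.sum_le_sum fun n hn => ?_
          have := mem_Ioc.1 (hsubA n (mem_filter.1 hn).1)
          exact mul_le_mul_of_nonneg_left (posLog_div_le N hN n this.1) vonMangoldt_nonneg
      _ ≤ ∑ n ∈ (Ioc 0 N).filter (fun n => ¬ n.Prime), vonMangoldt n * Real.log N := by
          refine Finset.sum_le_sum_of_subset_of_nonneg ?_ fun _ _ _ =>
            mul_nonneg vonMangoldt_nonneg hlogN
          exact Finset.filter_subset_filter _ (Finset.filter_subset _ _)
      _ = (∑ n ∈ (Ioc 0 N).filter (fun n => ¬ n.Prime), vonMangoldt n) * Real.log N := by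
          rw [Finset.sum_mul]
      _ ≤ (2 * Real.sqrt N * Real.log N) * Real.log N := mul_le_mul_of_nonneg_right h1 hlogN
      _ = 2 * Real.sqrt N * Real.log N ^ 2 := by ring
  have b2 : ∑ n ∈ (A.filter (fun n => n.Prime)).filter (fun n => ((n - 1) / d).Coprime d),
      wt N n ≤ Real.log N ^ 2 * #(Good N d) := by
    have e : (A.filter (fun n => n.Prime)).filter (fun n => ((n - 1) / d).Coprime d) =
        Good N d := by
      ext n
      simp only [hA, Good, mem_filter]
      tauto
    rw [e]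
    calc ∑ n ∈ Good N d, wt N n ≤ ∑ n ∈ Good N d, Real.log N ^ 2 :=
          Finset.sum_le_sum fun n hn => wt_le N n (mem_filter.1 hn).1 hN
      _ = Real.log N ^ 2 * #(Good N d) := by rw [Finset.sum_const, nsmul_eq_mul]; ring
  have b3 : ∑ n ∈ (A.filter (fun n => n.Prime)).filter (fun n => ¬ ((n - 1) / d).Coprime d),
      wt N n ≤ Real.log N ^ 2 * (w * ((N : ℝ) / (d * y))) := by
    have hsub : (A.filter (fun n => n.Prime)).filter (fun n => ¬ ((n - 1) / d).Coprime d) ⊆
        d.primeFactors.biUnion (fun q => (Ioc 0 N).filter (fun n => 1 < n ∧ (d * q) ∣ n - 1)) := by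
      intro n hn
      simp only [hA, mem_filter] at hn
      obtain ⟨⟨⟨h1, h2⟩, h3⟩, h4⟩ := hn
      obtain ⟨q, hq, hq1, hq2⟩ := Nat.Prime.not_coprime_iff_dvd.1 h4
      rw [mem_biUnion]
      refine ⟨q, Nat.mem_primeFactors.2 ⟨hq, hq2, by omega⟩, ?_⟩
      rw [mem_filter]
      refine ⟨h1, h3.one_lt, ?_⟩
      have h5 : d ∣ n - 1 := (Nat.modEq_iff_dvd' h3.one_lt.le).1 h2.symm
      obtain ⟨k, hk⟩ := h5
      rw [hk, Nat.mul_div_cancel_left k (by omega)] at hq1
      rw [hk]
      exact Nat.mul_dvd_mul_left d hq1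
    calc ∑ n ∈ (A.filter (fun n => n.Prime)).filter (fun n => ¬ ((n - 1) / d).Coprime d), wt N n
        ≤ ∑ n ∈ (A.filter (fun n => n.Prime)).filter (fun n => ¬ ((n - 1) / d).Coprime d),
            Real.log N ^ 2 := by
          refine Finset.sum_le_sum fun n hn => wt_le N n ?_ hN
          exact hsubA n (mem_filter.1 (mem_filter.1 hn).1).1
      _ = (#((A.filter (fun n => n.Prime)).filter (fun n => ¬ ((n - 1) / d).Coprime d)) : ℝ) *
            Real.log N ^ 2 := by rw [Finset.sum_const, nsmul_eq_mul]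
      _ ≤ (w * ((N : ℝ) / (d * y))) * Real.log N ^ 2 := by
          refine mul_le_mul_of_nonneg_right ?_ (sq_nonneg _)
          have hdr : (0 : ℝ) < d := by exact_mod_cast hd
          have hyr : (0 : ℝ) < y := by exact_mod_cast hy
          calc (#((A.filter (fun n => n.Prime)).filter
                  (fun n => ¬ ((n - 1) / d).Coprime d)) : ℝ)
              ≤ #(d.primeFactors.biUnion (fun q =>
                  (Ioc 0 N).filter (fun n => 1 < n ∧ (d * q) ∣ n - 1))) := by
                exact_mod_cast card_le_card hsub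
            _ ≤ ∑ q ∈ d.primeFactors, (#((Ioc 0 N).filter
                  (fun n => 1 < n ∧ (d * q) ∣ n - 1)) : ℝ) := by
                exact_mod_cast card_biUnion_le
            _ ≤ ∑ q ∈ d.primeFactors, ((N : ℝ) / (d * y)) := by
                refine Finset.sum_le_sum fun q hq => ?_
                have hq1 := (Nat.prime_of_mem_primeFactors hq).pos
                refine (card_class_le N (d * q) (Nat.mul_pos hd hq1)).trans ?_
                have h6 : (y : ℝ) ≤ q := by exact_mod_cast hdy q hq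
                push_cast
                refine div_le_div_of_nonneg_left (Nat.cast_nonneg N) (by positivity) ?_
                exact mul_le_mul_of_nonneg_left h6 hdr.le
            _ = #d.primeFactors * ((N : ℝ) / (d * y)) := by rw [Finset.sum_const, nsmul_eq_mul]
            _ ≤ w * ((N : ℝ) / (d * y)) := by
                refine mul_le_mul_of_nonneg_right ?_ (by positivity)
                exact_mod_cast hw
      _ = Real.log N ^ 2 * (w * ((N : ℝ) / (d * y))) := by ring
  rw [hsplit]
  linarith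

end Pool.Agent.Helper2
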