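import Pool.Agent.Helper2.QuantParams

namespace Pool.Agent.Helper2

open Finset
open scoped BigOperators

/-- Quantitative form: for large `s` there is a Carmichael number `n > s` with
`log log n ≤ s^12` and `1 - F(n)/n ≤ exp (-exp (s^2))`. -/
theorem quant_liars (s : ℕ) (hs : 10 ^ 6 ≤ s) (hsl : 4 * 10 ^ 12 * Real.log s ^ 5 ≤ s) :
    ∃ n : ℕ, s < n ∧ ¬ n.Prime ∧ (∀ a : ℕ, a.Coprime n → a ^ (n - 1) ≡ 1 [MOD n]) ∧
      Real.log (Real.log n) ≤ (s : ℝ) ^ 12 ∧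
      (n : ℝ) * (1 - Real.exp (-Real.exp ((s : ℝ) ^ 2))) ≤
        (#((range n).filter (fun a => a ^ (n - 1) ≡ 1 [MOD n])) : ℝ) := by
  classical
  have hsr : (10 : ℝ) ^ 6 ≤ s := by exact_mod_cast hs
  have hs0 : (0 : ℝ) < s := by linarith
  have hs1 : (1 : ℝ) ≤ s := by linarith
  set l : ℝ := Real.log s with hl
  have hl1 : 1 ≤ l := by
    rw [hl, Real.le_log_iff_exp_le hs0]
    linarith [Real.exp_one_lt_d9]
  have hl5 : l ≤ l ^ 5 := le_self_pow₀ hl1 (by norm_num)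
  have hls : 10 ^ 12 * l ≤ s := by
    have : (0 : ℝ) ≤ l ^ 5 := by positivity
    linarith
  have hs12 : (10 : ℝ) ^ 12 ≤ s := by linarith
  have hs12n : 10 ^ 12 ≤ s := by exact_mod_cast hs12
  obtain ⟨Q, M, y, hM1, hM2, hQ, hS, hSy, hlogy⟩ := quant_level_one s hs hsl
  set u : ℕ := s ^ (s ^ 2) with hu
  have hss : s ≤ s ^ 2 := Nat.le_self_pow (by norm_num) s
  have hu12 : s ^ 100 ≤ u := Nat.pow_le_pow_right (by omega) (by omega)
  have hu1 : s ≤ u := (Nat.le_self_pow (by norm_num) s).trans hu12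
  have hur : (u : ℝ) = (s : ℝ) ^ (s ^ 2) := by rw [hu]; push_cast; ring
  have hexps : ∀ a : ℕ, Real.exp (a : ℝ) ≤ (s : ℝ) ^ a := by
    intro a
    have h1 : Real.exp (a : ℝ) = Real.exp 1 ^ a := by
      rw [← Real.exp_nat_mul, mul_one]
    rw [h1]
    refine pow_le_pow_left₀ (Real.exp_pos 1).le ?_ a
    linarith [Real.exp_one_lt_d9]
  have huexp : Real.exp ((s : ℝ) ^ 2) ≤ u := by
    have := hexps (s ^ 2)
    push_cast at this
    rw [hur]; exact this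
  have hQ' : ∀ q ∈ Q, q.Prime ∧ y ≤ q ∧ q ≤ 4 * y := fun q hq =>
    ⟨(hQ q hq).1, (hQ q hq).2.1, (hQ q hq).2.2.1⟩
  have hS100 : s ^ 100 ≤ #Q := le_trans (Nat.pow_le_pow_right (by omega) (by omega)) hS
  have hs100 : s ≤ s ^ 100 := Nat.le_self_pow (by norm_num) s
  have hy1 : 1 ≤ y := by omega
  have hur1 : (1 : ℝ) ≤ u := by exact_mod_cast (by omega : 1 ≤ u)
  have hlogN : Real.log ((((4 * y) ^ u) ^ 12 : ℕ) : ℝ) ≤ 24 * ((u : ℝ) * (s : ℝ) ^ 3) := by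
    have : Real.log ((((4 * y) ^ u) ^ 12 : ℕ) : ℝ) = 12 * (u * Real.log ((4 * y : ℕ) : ℝ)) := by
      rw [Nat.cast_pow, Nat.cast_pow, Real.log_pow, Real.log_pow]
      norm_num
    rw [this]
    calc 12 * ((u : ℝ) * Real.log ((4 * y : ℕ) : ℝ)) ≤ 12 * ((u : ℝ) * (2 * (s : ℝ) ^ 3)) := by
          gcongr
      _ = 24 * ((u : ℝ) * (s : ℝ) ^ 3) := by ring
  have hs3 : (1 : ℝ) ≤ (s : ℝ) ^ 3 := one_le_pow₀ hs1
  have hus3 : (1 : ℝ) ≤ (u : ℝ) * (s : ℝ) ^ 3 := by nlinarith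
  have hlogN' : 1 + Real.log ((((4 * y) ^ u) ^ 12 : ℕ) : ℝ) ≤ (u : ℝ) * (s : ℝ) ^ 4 := by
    have e2 : 25 * ((u : ℝ) * (s : ℝ) ^ 3) ≤ s * ((u : ℝ) * (s : ℝ) ^ 3) :=
      mul_le_mul_of_nonneg_right (by linarith) (by positivity)
    have e3 : (s : ℝ) * ((u : ℝ) * (s : ℝ) ^ 3) = (u : ℝ) * (s : ℝ) ^ 4 := by ring
    linarith
  have hlogN0 : 0 ≤ 1 + Real.log ((((4 * y) ^ u) ^ 12 : ℕ) : ℝ) := by
    have := Real.log_natCast_nonneg (((4 * y) ^ u) ^ 12)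
    linarith
  have hSr : (s : ℝ) ^ (7 * s ^ 2) ≤ (#Q : ℝ) := by exact_mod_cast hS
  have hSyr : (#Q : ℝ) ≤ y := by exact_mod_cast hSy
  have hyr : (s : ℝ) ^ (7 * s ^ 2) ≤ (y : ℝ) := hSr.trans hSyr
  have c1 : 60 ≤ (4 * y) ^ u := by
    calc 60 ≤ 4 * y := by omega
      _ ≤ (4 * y) ^ u := Nat.le_self_pow (by omega) _
  have c3 : 600 * (u : ℝ) * (1 + Real.log ((((4 * y) ^ u) ^ 12 : ℕ) : ℝ)) ^ 4 ≤ (#Q : ℝ) := by
    have h1 : (1 + Real.log ((((4 * y) ^ u) ^ 12 : ℕ) : ℝ)) ^ 4 ≤ ((u : ℝ) * (s : ℝ) ^ 4) ^ 4 :=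
      pow_le_pow_left₀ hlogN0 hlogN' 4
    calc 600 * (u : ℝ) * (1 + Real.log ((((4 * y) ^ u) ^ 12 : ℕ) : ℝ)) ^ 4
        ≤ 600 * (u : ℝ) * ((u : ℝ) * (s : ℝ) ^ 4) ^ 4 := mul_le_mul_of_nonneg_left h1 (by positivity)
      _ = 600 * ((u : ℝ) ^ 5 * (s : ℝ) ^ 16) := by ring
      _ ≤ s * ((u : ℝ) ^ 5 * (s : ℝ) ^ 16) :=
          mul_le_mul_of_nonneg_right (by linarith) (by positivity)
      _ = (s : ℝ) ^ (5 * s ^ 2 + 17) := by rw [hur]; ring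
      _ ≤ (s : ℝ) ^ (7 * s ^ 2) := pow_le_pow_right₀ hs1 (by omega)
      _ ≤ (#Q : ℝ) := hSr
  have c2 : 100 * (u : ℝ) * (1 + Real.log ((((4 * y) ^ u) ^ 12 : ℕ) : ℝ)) ^ 2 ≤ (y : ℝ) := by
    refine le_trans ?_ (c3.trans hSyr)
    have h0 : 1 ≤ 1 + Real.log ((((4 * y) ^ u) ^ 12 : ℕ) : ℝ) := by
      have := Real.log_natCast_nonneg (((4 * y) ^ u) ^ 12)
      linarith
    have h1 : (1 + Real.log ((((4 * y) ^ u) ^ 12 : ℕ) : ℝ)) ^ 2 ≤
        (1 + Real.log ((((4 * y) ^ u) ^ 12 : ℕ) : ℝ)) ^ 4 := pow_le_pow_right₀ h0 (by norm_num)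
    have h2 : 0 ≤ (1 + Real.log ((((4 * y) ^ u) ^ 12 : ℕ) : ℝ)) ^ 2 := by positivity
    calc 100 * (u : ℝ) * (1 + Real.log ((((4 * y) ^ u) ^ 12 : ℕ) : ℝ)) ^ 2
        ≤ 600 * (u : ℝ) * (1 + Real.log ((((4 * y) ^ u) ^ 12 : ℕ) : ℝ)) ^ 2 :=
          mul_le_mul_of_nonneg_right (by linarith) h2
      _ ≤ _ := mul_le_mul_of_nonneg_left h1 (by positivity)
  obtain ⟨k, j, hk1, hk2, hkj⟩ := key_products Q y u hy1 (by omega) hQ' c1 c2 c3
  set N : ℕ := ((4 * y) ^ u) ^ 12 with hN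
  set L : ℕ := ∏ q ∈ Q, q with hL
  -- log L
  have hlogL : Real.log (L : ℝ) ≤ Real.exp (2 * (s : ℝ) ^ 3) * (2 * (s : ℝ) ^ 3) := by
    have e1 : Real.log (L : ℝ) = ∑ q ∈ Q, Real.log (q : ℝ) := by
      rw [hL]; push_cast
      rw [Real.log_prod]
      intro q hq
      have := (hQ q hq).1.pos
      positivity
    have e2 : (#Q : ℝ) ≤ Real.exp (2 * (s : ℝ) ^ 3) := by
      have h4y : (0 : ℝ) < ((4 * y : ℕ) : ℝ) := by exact_mod_cast (by omega : 0 < 4 * y)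
      have h5 : ((4 * y : ℕ) : ℝ) ≤ Real.exp (2 * (s : ℝ) ^ 3) :=
        (Real.log_le_iff_le_exp h4y).1 hlogy
      refine le_trans ?_ h5
      exact_mod_cast (by omega : #Q ≤ 4 * y)
    rw [e1]
    calc ∑ q ∈ Q, Real.log (q : ℝ) ≤ ∑ _q ∈ Q, (2 * (s : ℝ) ^ 3) := by
          refine sum_le_sum fun q hq => le_trans (Real.log_le_log ?_ ?_) hlogy
          · exact_mod_cast (hQ q hq).1.pos
          · exact_mod_cast (hQ q hq).2.2.1
      _ = #Q * (2 * (s : ℝ) ^ 3) := by rw [sum_const, nsmul_eq_mul]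
      _ ≤ _ := mul_le_mul_of_nonneg_right e2 (by positivity)
  -- X is at most exp (s^12 / 4)
  have hX : (M : ℝ) * Real.log (L : ℝ) + 1 ≤ Real.exp ((s : ℝ) ^ 12 / 4) := by
    have e0 : 2 * (s : ℝ) ^ 3 ≤ Real.exp (2 * (s : ℝ) ^ 3) := by
      have := Real.add_one_le_exp (2 * (s : ℝ) ^ 3)
      linarith
    have e1 : Real.log (L : ℝ) ≤ Real.exp (4 * (s : ℝ) ^ 3) := by
      refine hlogL.trans ?_
      calc Real.exp (2 * (s : ℝ) ^ 3) * (2 * (s : ℝ) ^ 3) ≤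
            Real.exp (2 * (s : ℝ) ^ 3) * Real.exp (2 * (s : ℝ) ^ 3) :=
            mul_le_mul_of_nonneg_left e0 (Real.exp_pos _).le
        _ = Real.exp (4 * (s : ℝ) ^ 3) := by rw [← Real.exp_add]; congr 1; ring
    have e2 : (M : ℝ) * Real.log (L : ℝ) ≤ Real.exp ((s : ℝ) ^ 12 / 8 + 4 * (s : ℝ) ^ 3) := by
      rw [Real.exp_add]
      exact mul_le_mul hM2 e1 (Real.log_natCast_nonneg _) (Real.exp_pos _).le
    have e3 : 1 ≤ Real.exp ((s : ℝ) ^ 12 / 8 + 4 * (s : ℝ) ^ 3) := Real.one_le_exp (by positivity)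
    have e4 : 2 * Real.exp ((s : ℝ) ^ 12 / 8 + 4 * (s : ℝ) ^ 3) ≤
        Real.exp ((s : ℝ) ^ 12 / 8 + 4 * (s : ℝ) ^ 3 + 1) := by
      rw [Real.exp_add _ 1]
      have := Real.exp_pos ((s : ℝ) ^ 12 / 8 + 4 * (s : ℝ) ^ 3)
      nlinarith [Real.exp_one_gt_d9]
    have e5 : Real.exp ((s : ℝ) ^ 12 / 8 + 4 * (s : ℝ) ^ 3 + 1) ≤ Real.exp ((s : ℝ) ^ 12 / 4) := by
      refine Real.exp_le_exp.2 ?_
      have h1 : 100 * (s : ℝ) ^ 3 ≤ (s : ℝ) ^ 9 * (s : ℝ) ^ 3 := by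
        refine mul_le_mul_of_nonneg_right ?_ (by positivity)
        have : (s : ℝ) ≤ (s : ℝ) ^ 9 := le_self_pow₀ hs1 (by norm_num)
        linarith
      have h2 : (s : ℝ) ^ 9 * (s : ℝ) ^ 3 = (s : ℝ) ^ 12 := by ring
      linarith
    linarith
  have hXu : Real.exp ((s : ℝ) ^ 12 / 4) ≤ Real.exp (u : ℝ) := by
    refine Real.exp_le_exp.2 ?_
    have h1 : (s : ℝ) ^ 12 ≤ (s : ℝ) ^ 100 := pow_le_pow_right₀ hs1 (by norm_num)
    have h2 : (s : ℝ) ^ 100 ≤ u := by exact_mod_cast hu12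
    have h3 : (0 : ℝ) ≤ (s : ℝ) ^ 12 := by positivity
    linarith
  -- the fibre is large
  have hFib : (M : ℝ) * Real.log (L : ℝ) < (#(Fib (prods Q u) N k j) : ℝ) := by
    by_contra hcon
    push Not at hcon
    have hcon' : (#(Fib (prods Q u) N k j) : ℝ) ≤ (s : ℝ) ^ u := by
      have := hexps u
      linarith
    have h1 : (s ^ (5 * s ^ 2)) ^ u ≤ (#Q).choose u := by
      refine choose_ge _ _ _ ?_
      have e0 : u ≤ s ^ (5 * s ^ 2) * u := Nat.le_mul_of_pos_left u (by positivity)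
      have : s ^ (5 * s ^ 2) * u + u ≤ s ^ (7 * s ^ 2) := by
        calc s ^ (5 * s ^ 2) * u + u ≤ 2 * (s ^ (5 * s ^ 2) * u) := by omega
          _ ≤ s * (s ^ (5 * s ^ 2) * u) := Nat.mul_le_mul_right _ (by omega)
          _ = s ^ (6 * s ^ 2 + 1) := by rw [hu]; ring
          _ ≤ s ^ (7 * s ^ 2) := Nat.pow_le_pow_right (by omega) (by omega)
      omega
    have h2 : (s : ℝ) ^ (5 * s ^ 2 * u) ≤ ((#Q).choose u : ℝ) := by
      rw [pow_mul]; exact_mod_cast h1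
    have h3 : (1 + Real.log (N : ℝ)) ^ 3 ≤ ((u : ℝ) * (s : ℝ) ^ 4) ^ 3 :=
      pow_le_pow_left₀ hlogN0 hlogN' 3
    have h4 : (4 : ℝ) ^ u ≤ (s : ℝ) ^ u := pow_le_pow_left₀ (by norm_num) (by linarith) u
    have h5 : (s : ℝ) ^ (5 * s ^ 2 * u) ≤ (s : ℝ) ^ (1 + u + (3 * s ^ 2 + 12) + u) := by
      calc (s : ℝ) ^ (5 * s ^ 2 * u) ≤ ((#Q).choose u : ℝ) := h2
        _ ≤ 20 * 4 ^ u * (1 + Real.log (N : ℝ)) ^ 3 * (#(Fib (prods Q u) N k j) : ℝ) := hkj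
        _ ≤ s * (s : ℝ) ^ u * ((u : ℝ) * (s : ℝ) ^ 4) ^ 3 * (s : ℝ) ^ u := by
            gcongr
            linarith
        _ = (s : ℝ) ^ (1 + u + (3 * s ^ 2 + 12) + u) := by
            rw [show ((u : ℝ) * (s : ℝ) ^ 4) ^ 3 = (s : ℝ) ^ (3 * s ^ 2 + 12) by rw [hur]; ring]
            rw [pow_add (s : ℝ) (1 + u + (3 * s ^ 2 + 12)) u, pow_add (s : ℝ) (1 + u) (3 * s ^ 2 + 12),
              pow_add (s : ℝ) 1 u, pow_one]
    have hexpo : 1 + u + (3 * s ^ 2 + 12) + u < 5 * s ^ 2 * u := by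
      have e1 : s ^ 2 ≤ u := (Nat.pow_le_pow_right (by omega) (by norm_num)).trans hu12
      have e2 : 10 * u ≤ 5 * s ^ 2 * u := Nat.mul_le_mul_right u (by omega)
      omega
    have h6 : (s : ℝ) ^ (1 + u + (3 * s ^ 2 + 12) + u) < (s : ℝ) ^ (5 * s ^ 2 * u) :=
      pow_lt_pow_right₀ (by linarith) hexpo
    linarith
  -- the modulus exceeds N
  have hNL : N < L := by
    have e1 : N ≤ y ^ (24 * u) := by
      calc N ≤ ((y ^ 2) ^ u) ^ 12 := by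
            rw [hN]
            refine Nat.pow_le_pow_left (Nat.pow_le_pow_left ?_ u) 12
            have : 4 ≤ y := by omega
            nlinarith
        _ = y ^ (24 * u) := by rw [← pow_mul, ← pow_mul]; congr 1; ring
    have e2 : 24 * u < #Q := by
      calc 24 * u < s * u := Nat.mul_lt_mul_of_pos_right (by omega) (by omega)
        _ = s ^ (s ^ 2 + 1) := by rw [hu]; ring
        _ ≤ s ^ (7 * s ^ 2) := Nat.pow_le_pow_right (by omega) (by omega)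
        _ ≤ #Q := hS
    have e3 : y ^ #Q ≤ L := by
      calc y ^ #Q = ∏ _q ∈ Q, y := by rw [prod_const]
        _ ≤ ∏ q ∈ Q, q := prod_le_prod' fun q hq => (hQ q hq).2.1
    calc N ≤ y ^ (24 * u) := e1
      _ < y ^ #Q := Nat.pow_lt_pow_right (by omega) e2
      _ ≤ L := e3
  obtain ⟨n, hn1, hn2, hn3, hn4, hn5⟩ := assembly_full M hM1 Q y u k j N (by omega) (by omega) hQ'
    (fun q hq => (hQ q hq).2.2.2) hk1 hNL hFib
  have hyyu : y ≤ y ^ u := Nat.le_self_pow (by omega) y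
  refine ⟨n, ?_, hn2, hn3, ?_, le_trans ?_ hn5⟩
  · omega
  · -- size of n
    have hnpos : (0 : ℝ) < n := by exact_mod_cast (by omega : 0 < n)
    have hlogn : 0 < Real.log (n : ℝ) := Real.log_pos (by exact_mod_cast (by omega : 1 < n))
    have h1 : Real.log (n : ℝ) ≤ Real.exp ((s : ℝ) ^ 12 / 4) * ((u : ℝ) * (s : ℝ) ^ 4) := by
      refine hn4.trans (mul_le_mul hX (by linarith) (Real.log_natCast_nonneg _) (Real.exp_pos _).le)
    have h2 : (u : ℝ) * (s : ℝ) ^ 4 ≤ Real.exp ((s : ℝ) ^ 4) := by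
      have e1 : (u : ℝ) * (s : ℝ) ^ 4 = (s : ℝ) ^ (s ^ 2 + 4) := by rw [hur]; ring
      have e2 : (s : ℝ) ^ (s ^ 2 + 4) = Real.exp (((s ^ 2 + 4 : ℕ) : ℝ) * l) := by
        rw [Real.exp_nat_mul, hl, Real.exp_log hs0]
      rw [e1, e2]
      refine Real.exp_le_exp.2 ?_
      push_cast
      have e3 : l ≤ s := by linarith
      have e4 : ((s : ℝ) ^ 2 + 4) * l ≤ ((s : ℝ) ^ 2 + 4) * s :=
        mul_le_mul_of_nonneg_left e3 (by positivity)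
      have e5 : ((s : ℝ) ^ 2 + 4) * s ≤ (s : ℝ) ^ 4 := by nlinarith [pow_pos hs0 3, pow_pos hs0 2]
      linarith
    have h3 : Real.log (n : ℝ) ≤ Real.exp ((s : ℝ) ^ 12 / 4 + (s : ℝ) ^ 4) := by
      rw [Real.exp_add]
      exact h1.trans (mul_le_mul_of_nonneg_left h2 (Real.exp_pos _).le)
    have h4 : Real.log (Real.log (n : ℝ)) ≤ (s : ℝ) ^ 12 / 4 + (s : ℝ) ^ 4 :=
      (Real.log_le_iff_le_exp hlogn).2 h3
    have h5 : (s : ℝ) ^ 4 ≤ (s : ℝ) ^ 12 / 4 := by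
      have e1 : 4 * (s : ℝ) ^ 4 ≤ (s : ℝ) ^ 8 * (s : ℝ) ^ 4 := by
        refine mul_le_mul_of_nonneg_right ?_ (by positivity)
        have : (s : ℝ) ≤ (s : ℝ) ^ 8 := le_self_pow₀ hs1 (by norm_num)
        linarith
      have e2 : (s : ℝ) ^ 8 * (s : ℝ) ^ 4 = (s : ℝ) ^ 12 := by ring
      linarith
    have h6 : (0 : ℝ) ≤ (s : ℝ) ^ 12 := by positivity
    linarith
  · refine mul_le_mul_of_nonneg_left ?_ (Nat.cast_nonneg n)
    have hypos : (0 : ℝ) < (y : ℝ) ^ u := by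
      have : (0 : ℝ) < y := by exact_mod_cast hy1
      positivity
    have : ((M : ℝ) * Real.log (L : ℝ) + 1) / (y : ℝ) ^ u ≤ Real.exp (-Real.exp ((s : ℝ) ^ 2)) := by
      rw [div_le_iff₀ hypos]
      have e1 : Real.exp (2 * (u : ℝ)) ≤ (y : ℝ) ^ u := by
        have h1 : Real.exp (2 * (u : ℝ)) = Real.exp 2 ^ u := by
          rw [← Real.exp_nat_mul]; congr 1; ring
        rw [h1]
        refine pow_le_pow_left₀ (Real.exp_pos _).le ?_ u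
        have h2 := hexps 2
        push_cast at h2
        refine h2.trans (le_trans ?_ hyr)
        exact pow_le_pow_right₀ hs1 (by omega)
      have e2 : Real.exp (-Real.exp ((s : ℝ) ^ 2)) ≥ Real.exp (-(u : ℝ)) :=
        Real.exp_le_exp.2 (by linarith)
      calc (M : ℝ) * Real.log (L : ℝ) + 1 ≤ Real.exp (u : ℝ) := hX.trans hXu
        _ = Real.exp (-(u : ℝ)) * Real.exp (2 * (u : ℝ)) := by rw [← Real.exp_add]; congr 1; ring
        _ ≤ Real.exp (-Real.exp ((s : ℝ) ^ 2)) * (y : ℝ) ^ u := by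
            exact mul_le_mul e2 e1 (Real.exp_pos _).le (Real.exp_pos _).le
    linarith

end Pool.Agent.Helper2
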