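import Pool.Agent.Helper2.Levels

namespace Pool.Agent.Helper2

open Finset
open scoped BigOperators

/-- Chebyshev: many primes in `[y, 4y]` -/
theorem primes_four_ge (y : ℕ) (hy : 10 ^ 11 ≤ y) :
    (y : ℝ) ≤ #((Icc y (4 * y)).filter Nat.Prime) * Real.log ((4 * y : ℕ) : ℝ) := by
  have hyr : (10 : ℝ) ^ 11 ≤ y := by exact_mod_cast hy
  have hlog2 : 0.6931 ≤ Real.log 2 := by linarith [Real.log_two_gt_d9]
  have hlog4 : Real.log 4 = 2 * Real.log 2 := by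
    rw [show (4 : ℝ) = 2 ^ 2 by norm_num, Real.log_pow]; norm_num
  have h1 := Chebyshev.theta_ge (4 * y)
  have h2 := Chebyshev.theta_le_log4_mul_x (x := (y : ℝ)) (Nat.cast_nonneg _)
  set x : ℝ := ((4 * y : ℕ) : ℝ) with hx
  have hxy : x = 4 * (y : ℝ) := by rw [hx]; push_cast; ring
  have hx0 : (0 : ℝ) < x := by linarith
  set r : ℝ := Real.sqrt (Real.sqrt x) with hr
  have hs0 : 0 < Real.sqrt x := Real.sqrt_pos.2 hx0
  have hr0 : 0 < r := Real.sqrt_pos.2 hs0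
  have hr2 : r ^ 2 = Real.sqrt x := Real.sq_sqrt hs0.le
  have hr4 : r ^ 4 = x := by
    rw [show r ^ 4 = (r ^ 2) ^ 2 by ring, hr2]; exact Real.sq_sqrt hx0.le
  have hlogx : Real.log x ≤ 4 * r := by
    rw [← hr4, Real.log_pow]
    have := Real.log_le_sub_one_of_pos hr0
    push_cast
    linarith
  have hr400 : 700 ≤ r := by
    by_contra hcon
    push Not at hcon
    have : r ^ 4 < 700 ^ 4 := pow_lt_pow_left₀ hcon hr0.le (by norm_num)
    rw [hr4] at this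
    norm_num at this
    linarith
  have h4 : Real.log (x + 1) ≤ 1 + Real.log x := by
    have e1 : Real.log (x + 1) ≤ Real.log (2 * x) := by
      refine Real.log_le_log (by positivity) ?_
      linarith
    rw [Real.log_mul (by norm_num) hx0.ne'] at e1
    have : Real.log 2 ≤ 1 := by linarith [Real.log_two_lt_d9]
    linarith
  have h5 : Chebyshev.theta x - Chebyshev.theta (y : ℝ) ≤
      #((Icc y (4 * y)).filter Nat.Prime) * Real.log x := by
    unfold Chebyshev.theta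
    rw [hx, Nat.floor_natCast, Nat.floor_natCast]
    have hsub : (Ioc 0 y).filter Nat.Prime ⊆ (Ioc 0 (4 * y)).filter Nat.Prime :=
      filter_subset_filter _ (Ioc_subset_Ioc_right (by omega))
    have hsplit := sum_sdiff (f := fun p : ℕ => Real.log (p : ℝ)) hsub
    have hrest : ∑ p ∈ (Ioc 0 (4 * y)).filter Nat.Prime \ (Ioc 0 y).filter Nat.Prime,
        Real.log (p : ℝ) ≤ #((Icc y (4 * y)).filter Nat.Prime) * Real.log ((4 * y : ℕ) : ℝ) := by
      have hs : (Ioc 0 (4 * y)).filter Nat.Prime \ (Ioc 0 y).filter Nat.Prime ⊆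
          (Icc y (4 * y)).filter Nat.Prime := by
        intro p hp
        rw [mem_sdiff, mem_filter, mem_filter, mem_Ioc, mem_Ioc] at hp
        obtain ⟨⟨⟨a1, a2⟩, a3⟩, a4⟩ := hp
        rw [mem_filter, mem_Icc]
        refine ⟨⟨?_, a2⟩, a3⟩
        by_contra hcon
        exact a4 ⟨⟨a1, by omega⟩, a3⟩
      calc _ ≤ ∑ p ∈ (Ioc 0 (4 * y)).filter Nat.Prime \ (Ioc 0 y).filter Nat.Prime,
            Real.log ((4 * y : ℕ) : ℝ) := by
            refine sum_le_sum fun p hp => ?_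
            have := hs hp
            rw [mem_filter, mem_Icc] at this
            refine Real.log_le_log ?_ ?_
            · exact_mod_cast this.2.pos
            · exact_mod_cast this.1.2
        _ = #((Ioc 0 (4 * y)).filter Nat.Prime \ (Ioc 0 y).filter Nat.Prime) *
            Real.log ((4 * y : ℕ) : ℝ) := by rw [sum_const, nsmul_eq_mul]
        _ ≤ _ := by
            refine mul_le_mul_of_nonneg_right ?_ (Real.log_natCast_nonneg _)
            exact_mod_cast card_le_card hs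
    linarith
  refine le_trans ?_ h5
  have e1 : 2 * Real.sqrt x * Real.log x ≤ 8 * r ^ 3 := by
    rw [← hr2]
    have : 2 * r ^ 2 * Real.log x ≤ 2 * r ^ 2 * (4 * r) :=
      mul_le_mul_of_nonneg_left hlogx (by positivity)
    linarith
  have e2 : 700 * r ^ 3 ≤ x := by
    rw [← hr4]
    have : 700 * r ^ 3 ≤ r * r ^ 3 := mul_le_mul_of_nonneg_right hr400 (by positivity)
    linarith
  have e3 : r ≤ r ^ 3 / 1000 := by nlinarith [mul_pos hr0 hr0]
  have e6 : x * Real.log 2 - Real.log 4 * (y : ℝ) ≥ 1.38 * (y : ℝ) := by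
    rw [hlog4, hxy]
    nlinarith
  linarith

theorem quant_level_one (s : ℕ) (hs : 10 ^ 6 ≤ s) (hsl : 4 * 10 ^ 12 * Real.log s ^ 5 ≤ s) :
    ∃ (Q : Finset ℕ) (M y : ℕ),
    1 ≤ M ∧ (M : ℝ) ≤ Real.exp ((s : ℝ) ^ 12 / 8) ∧
    (∀ q ∈ Q, q.Prime ∧ y ≤ q ∧ q ≤ 4 * y ∧ q - 1 ∣ M) ∧
    s ^ (7 * s ^ 2) ≤ #Q ∧ #Q ≤ y ∧ Real.log ((4 * y : ℕ) : ℝ) ≤ 2 * (s : ℝ) ^ 3 := by
  classical
  have hsr : (10 : ℝ) ^ 6 ≤ s := by exact_mod_cast hs
  have hs0 : (0 : ℝ) < s := by linarith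
  set l : ℝ := Real.log s with hl
  have hl1 : 1 ≤ l := by
    rw [hl, Real.le_log_iff_exp_le hs0]
    linarith [Real.exp_one_lt_d9]
  have hl5 : l ≤ l ^ 5 := le_self_pow₀ hl1 (by norm_num)
  set u : ℕ := s ^ 2 with hu
  set y₁ : ℕ := s ^ 11 with hy₁
  have hur : (u : ℝ) = (s : ℝ) ^ 2 := by rw [hu]; push_cast; ring
  have hy₁r : (y₁ : ℝ) = (s : ℝ) ^ 11 := by rw [hy₁]; push_cast; ring
  have hlogy : Real.log ((4 * y₁ : ℕ) : ℝ) ≤ 12 * l := by
    have h2 : 4 * s ^ 11 ≤ s ^ 12 := by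
      calc 4 * s ^ 11 ≤ s * s ^ 11 := Nat.mul_le_mul_right _ (by omega)
        _ = s ^ 12 := by ring
    have h3 : Real.log ((4 * s ^ 11 : ℕ) : ℝ) ≤ Real.log ((s ^ 12 : ℕ) : ℝ) := by
      refine Real.log_le_log ?_ (by exact_mod_cast h2)
      have : 0 < 4 * s ^ 11 := by positivity
      exact_mod_cast this
    have h4 : Real.log ((s ^ 12 : ℕ) : ℝ) = 12 * Real.log s := by
      push_cast
      rw [Real.log_pow]
      norm_num
    linarith
  set P := (Icc y₁ (4 * y₁)).filter Nat.Prime with hP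
  have hcard : (s : ℝ) ^ 11 ≤ #P * (12 * l) := by
    have h1 := primes_four_ge y₁ (by
      calc 10 ^ 11 ≤ 10 ^ 66 := by norm_num
        _ = (10 ^ 6) ^ 11 := by norm_num
        _ ≤ s ^ 11 := Nat.pow_le_pow_left hs 11)
    rw [hy₁r] at h1
    refine h1.trans (mul_le_mul_of_nonneg_left hlogy (Nat.cast_nonneg _))
  have hcardle : #P ≤ 4 * y₁ := by
    have h1 : 1 ≤ y₁ := Nat.one_le_pow _ _ (by omega)
    calc #P ≤ #(Icc y₁ (4 * y₁)) := card_filter_le _ _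
      _ = 4 * y₁ + 1 - y₁ := Nat.card_Icc _ _
      _ ≤ 4 * y₁ := by omega
  have hlogN1 : Real.log ((((4 * y₁) ^ u) ^ 12 : ℕ) : ℝ) ≤ 144 * (s : ℝ) ^ 2 * l := by
    have : Real.log ((((4 * y₁) ^ u) ^ 12 : ℕ) : ℝ) = 12 * (u * Real.log ((4 * y₁ : ℕ) : ℝ)) := by
      rw [Nat.cast_pow, Nat.cast_pow, Real.log_pow, Real.log_pow]
      norm_num
    rw [this, hur]
    have : (s : ℝ) ^ 2 * Real.log ((4 * y₁ : ℕ) : ℝ) ≤ (s : ℝ) ^ 2 * (12 * l) :=
      mul_le_mul_of_nonneg_left hlogy (by positivity)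
    linarith
  have hs2 : (1 : ℝ) ≤ (s : ℝ) ^ 2 := one_le_pow₀ (by linarith)
  have hlogN2 : 1 + Real.log ((((4 * y₁) ^ u) ^ 12 : ℕ) : ℝ) ≤ 145 * (s : ℝ) ^ 2 * l := by
    have : 1 ≤ (s : ℝ) ^ 2 * l := by nlinarith
    linarith
  have hlogN0 : 0 ≤ 1 + Real.log ((((4 * y₁) ^ u) ^ 12 : ℕ) : ℝ) := by
    have := Real.log_natCast_nonneg (((4 * y₁) ^ u) ^ 12)
    linarith
  have hls : 10 ^ 12 * l ≤ s := by
    have : (0 : ℝ) ≤ l ^ 5 := by positivity
    linarith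
  have hlogN3 : Real.log ((((4 * y₁) ^ u) ^ 12 : ℕ) : ℝ) ≤ (s : ℝ) ^ 3 := by
    have : (s : ℝ) ^ 2 * (144 * l) ≤ (s : ℝ) ^ 2 * s := mul_le_mul_of_nonneg_left (by linarith)
      (by positivity)
    have e : (s : ℝ) ^ 2 * s = (s : ℝ) ^ 3 := by ring
    linarith
  have hPprime : ∀ p ∈ P, p.Prime ∧ y₁ ≤ p ∧ p ≤ 4 * y₁ := by
    intro p hp
    rw [hP, mem_filter, mem_Icc] at hp
    exact ⟨hp.2, hp.1.1, hp.1.2⟩
  have hy1 : 1 ≤ y₁ := Nat.one_le_pow _ _ (by omega)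
  have hu1 : 1 ≤ u := Nat.one_le_pow _ _ (by omega)
  have c1 : 60 ≤ (4 * y₁) ^ u := by
    have h1 : s ≤ y₁ := Nat.le_self_pow (by norm_num) s
    calc 60 ≤ 4 * y₁ := by omega
      _ ≤ (4 * y₁) ^ u := Nat.le_self_pow (by omega) _
  have c3 : 600 * (u : ℝ) * (1 + Real.log ((((4 * y₁) ^ u) ^ 12 : ℕ) : ℝ)) ^ 4 ≤ (#P : ℝ) := by
    have h1 : (1 + Real.log ((((4 * y₁) ^ u) ^ 12 : ℕ) : ℝ)) ^ 4 ≤ (145 * (s : ℝ) ^ 2 * l) ^ 4 :=
      pow_le_pow_left₀ hlogN0 hlogN2 4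
    have h2 : (600 * (u : ℝ) * (1 + Real.log ((((4 * y₁) ^ u) ^ 12 : ℕ) : ℝ)) ^ 4) * (12 * l) ≤
        (#P : ℝ) * (12 * l) := by
      refine le_trans ?_ hcard
      rw [hur]
      calc (600 * (s : ℝ) ^ 2 * (1 + Real.log ((((4 * y₁) ^ u) ^ 12 : ℕ) : ℝ)) ^ 4) * (12 * l)
          ≤ (600 * (s : ℝ) ^ 2 * (145 * (s : ℝ) ^ 2 * l) ^ 4) * (12 * l) := by gcongr
        _ = (s : ℝ) ^ 10 * ((600 * 145 ^ 4 * 12) * l ^ 5) := by ring
        _ ≤ (s : ℝ) ^ 10 * s := by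
            refine mul_le_mul_of_nonneg_left ?_ (by positivity)
            refine le_trans ?_ hsl
            refine mul_le_mul_of_nonneg_right (by norm_num) (by positivity)
        _ = (s : ℝ) ^ 11 := by ring
    exact le_of_mul_le_mul_right h2 (by positivity)
  have c2 : 100 * (u : ℝ) * (1 + Real.log ((((4 * y₁) ^ u) ^ 12 : ℕ) : ℝ)) ^ 2 ≤ (y₁ : ℝ) := by
    have h1 : (1 + Real.log ((((4 * y₁) ^ u) ^ 12 : ℕ) : ℝ)) ^ 2 ≤ (145 * (s : ℝ) ^ 2 * l) ^ 2 :=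
      pow_le_pow_left₀ hlogN0 hlogN2 2
    have hls' : (l : ℝ) ^ 2 ≤ (s : ℝ) ^ 2 := pow_le_pow_left₀ (by linarith) (by linarith) 2
    rw [hur, hy₁r]
    calc 100 * (s : ℝ) ^ 2 * (1 + Real.log ((((4 * y₁) ^ u) ^ 12 : ℕ) : ℝ)) ^ 2
        ≤ 100 * (s : ℝ) ^ 2 * (145 * (s : ℝ) ^ 2 * l) ^ 2 :=
          mul_le_mul_of_nonneg_left h1 (by positivity)
      _ = (s : ℝ) ^ 6 * ((100 * 145 ^ 2) * l ^ 2) := by ring
      _ ≤ (s : ℝ) ^ 6 * (s * s * s ^ 2) := by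
          refine mul_le_mul_of_nonneg_left ?_ (by positivity)
          refine mul_le_mul ?_ hls' (by positivity) (by positivity)
          nlinarith
      _ = (s : ℝ) ^ 10 := by ring
      _ ≤ (s : ℝ) ^ 11 := pow_le_pow_right₀ (by linarith) (by norm_num)
  obtain ⟨k, j, hk1, hk2, hkj⟩ := key_products P y₁ u hy1 hu1 hPprime c1 c2 c3
  set N₁ : ℕ := ((4 * y₁) ^ u) ^ 12 with hN₁def
  set D := Fib (prods P u) N₁ k j with hD
  have hP10 : 2 * s ^ 10 ≤ #P := by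
    have h1 : (2 * (s : ℝ) ^ 10) * (12 * l) ≤ #P * (12 * l) := by
      refine le_trans ?_ hcard
      calc (2 * (s : ℝ) ^ 10) * (12 * l) = (s : ℝ) ^ 10 * (24 * l) := by ring
        _ ≤ (s : ℝ) ^ 10 * s := mul_le_mul_of_nonneg_left (by linarith) (by positivity)
        _ = (s : ℝ) ^ 11 := by ring
    have h2 : 2 * (s : ℝ) ^ 10 ≤ #P := le_of_mul_le_mul_right h1 (by positivity)
    exact_mod_cast h2
  have hDcard : s ^ (7 * s ^ 2) ≤ #D := by
    have h1 : (s ^ 8) ^ u ≤ (#P).choose u := by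
      refine choose_ge _ _ _ ?_
      have e1 : s ^ 8 * u = s ^ 10 := by rw [hu]; ring
      have e2 : u ≤ s ^ 10 := Nat.pow_le_pow_right (by omega) (by norm_num)
      omega
    have h2 : ((s : ℝ) ^ 8) ^ u ≤ ((#P).choose u : ℝ) := by exact_mod_cast h1
    have h3 : (1 + Real.log (N₁ : ℝ)) ^ 3 ≤ (2 * (s : ℝ) ^ 3) ^ 3 := by
      refine pow_le_pow_left₀ hlogN0 ?_ 3
      have : (1 : ℝ) ≤ (s : ℝ) ^ 3 := one_le_pow₀ (by linarith)
      linarith
    have h4 : 20 * 4 ^ u * (2 * (s : ℝ) ^ 3) ^ 3 ≤ (s : ℝ) ^ u := by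
      have hu20 : 20 ≤ u := by rw [hu]; nlinarith
      have e1 : 4 ^ u ≤ s ^ (u - 12) := by
        calc 4 ^ u ≤ 4 ^ (8 * (u - 12)) := by
              refine Nat.pow_le_pow_right (by norm_num) ?_
              omega
          _ = (4 ^ 8) ^ (u - 12) := by rw [pow_mul]
          _ ≤ s ^ (u - 12) := Nat.pow_le_pow_left (by norm_num; omega) _
      have e2 : (4 : ℝ) ^ u ≤ (s : ℝ) ^ (u - 12) := by exact_mod_cast e1
      calc 20 * 4 ^ u * (2 * (s : ℝ) ^ 3) ^ 3 ≤ 20 * (s : ℝ) ^ (u - 12) * (2 * (s : ℝ) ^ 3) ^ 3 := by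
            gcongr
        _ = (s : ℝ) ^ (u - 12) * (160 * (s : ℝ) ^ 9) := by ring
        _ ≤ (s : ℝ) ^ (u - 12) * (s : ℝ) ^ 12 := by
            refine mul_le_mul_of_nonneg_left ?_ (by positivity)
            calc 160 * (s : ℝ) ^ 9 ≤ (s : ℝ) ^ 3 * (s : ℝ) ^ 9 := by
                  refine mul_le_mul_of_nonneg_right ?_ (by positivity)
                  have : (s : ℝ) ≤ (s : ℝ) ^ 3 := le_self_pow₀ (by linarith) (by norm_num)
                  linarith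
              _ = (s : ℝ) ^ 12 := by ring
        _ = (s : ℝ) ^ u := by rw [← pow_add]; congr 1; omega
    have h5 : (s : ℝ) ^ u * (s : ℝ) ^ (7 * s ^ 2) ≤ (s : ℝ) ^ u * (#D : ℝ) := by
      calc (s : ℝ) ^ u * (s : ℝ) ^ (7 * s ^ 2) = ((s : ℝ) ^ 8) ^ u := by
            rw [← pow_mul, ← pow_add, hu]; congr 1; ring
        _ ≤ ((#P).choose u : ℝ) := h2
        _ ≤ 20 * 4 ^ u * (1 + Real.log (N₁ : ℝ)) ^ 3 * (#D : ℝ) := hkj
        _ ≤ 20 * 4 ^ u * (2 * (s : ℝ) ^ 3) ^ 3 * (#D : ℝ) := by gcongr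
        _ ≤ (s : ℝ) ^ u * (#D : ℝ) := mul_le_mul_of_nonneg_right h4 (Nat.cast_nonneg _)
    have h6 : (s : ℝ) ^ (7 * s ^ 2) ≤ (#D : ℝ) := le_of_mul_le_mul_left h5 (by positivity)
    exact_mod_cast h6
  set Q : Finset ℕ := D.image (fun d => d * k + 1) with hQ
  have hQcard : #Q = #D := by
    rw [hQ]
    refine card_image_of_injective _ fun a b h => ?_
    have h' : a * k + 1 = b * k + 1 := h
    exact Nat.eq_of_mul_eq_mul_right hk1 (by omega)
  have hQmem : ∀ q ∈ Q, q.Prime ∧ 2 ^ j ≤ q ∧ q < 2 ^ (j + 1) ∧ q ≤ N₁ ∧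
      q - 1 ∣ k * ∏ p ∈ P, p := by
    intro q hq
    rw [hQ, mem_image] at hq
    obtain ⟨d, hd, rfl⟩ := hq
    obtain ⟨h1, h2, h3, h4, h5⟩ := fib_prime hd
    refine ⟨h1, h2, h3, h4, ?_⟩
    rw [Nat.add_sub_cancel, mul_comm k]
    exact Nat.mul_dvd_mul_right h5 k
  have hQpos : 0 < #Q := by
    rw [hQcard]
    have : 1 ≤ s ^ (7 * s ^ 2) := Nat.one_le_pow _ _ (by omega)
    omega
  refine ⟨Q, k * ∏ p ∈ P, p, 2 ^ j, ?_, ?_, ?_, ?_, ?_, ?_⟩
  · exact Nat.mul_pos hk1 (prod_pos fun p hp => (hPprime p hp).1.pos)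
  · have hkpos : (0 : ℝ) < k := by exact_mod_cast hk1
    have hprod0 : (0 : ℝ) < ((∏ p ∈ P, p : ℕ) : ℝ) := by
      exact_mod_cast prod_pos fun p hp => (hPprime p hp).1.pos
    have hMpos : (0 : ℝ) < ((k * ∏ p ∈ P, p : ℕ) : ℝ) := by
      push_cast at hprod0 ⊢
      positivity
    rw [← Real.log_le_iff_le_exp hMpos, Nat.cast_mul, Real.log_mul hkpos.ne' hprod0.ne']
    have h1 : Real.log (k : ℝ) ≤ (s : ℝ) ^ 3 := by
      refine le_trans (Real.log_le_log hkpos ?_) hlogN3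
      exact_mod_cast hk2
    have h2 : Real.log ((∏ p ∈ P, p : ℕ) : ℝ) ≤ (s : ℝ) ^ 12 / 16 := by
      have e1 : Real.log ((∏ p ∈ P, p : ℕ) : ℝ) = ∑ p ∈ P, Real.log (p : ℝ) := by
        push_cast
        rw [Real.log_prod]
        intro p hp
        have := (hPprime p hp).1.pos
        positivity
      rw [e1]
      calc ∑ p ∈ P, Real.log (p : ℝ) ≤ ∑ _p ∈ P, Real.log ((4 * y₁ : ℕ) : ℝ) := by
            refine sum_le_sum fun p hp => Real.log_le_log ?_ ?_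
            · exact_mod_cast (hPprime p hp).1.pos
            · exact_mod_cast (hPprime p hp).2.2
        _ = #P * Real.log ((4 * y₁ : ℕ) : ℝ) := by rw [sum_const, nsmul_eq_mul]
        _ ≤ (4 * (s : ℝ) ^ 11) * (12 * l) := by
            refine mul_le_mul ?_ hlogy (Real.log_natCast_nonneg _) (by positivity)
            rw [← hy₁r]
            exact_mod_cast hcardle
        _ = (s : ℝ) ^ 11 * (48 * l) := by ring
        _ ≤ (s : ℝ) ^ 11 * (s / 16) := mul_le_mul_of_nonneg_left (by linarith) (by positivity)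
        _ = (s : ℝ) ^ 12 / 16 := by ring
    have h3 : (s : ℝ) ^ 3 ≤ (s : ℝ) ^ 12 / 16 := by
      have e2 : 16 * (s : ℝ) ^ 3 ≤ (s : ℝ) ^ 9 * (s : ℝ) ^ 3 := by
        refine mul_le_mul_of_nonneg_right ?_ (by positivity)
        have : (s : ℝ) ≤ (s : ℝ) ^ 9 := le_self_pow₀ (by linarith) (by norm_num)
        linarith
      have e3 : (s : ℝ) ^ 9 * (s : ℝ) ^ 3 = (s : ℝ) ^ 12 := by ring
      linarith
    linarith
  · intro q hq
    obtain ⟨h1, h2, h3, h4, h5⟩ := hQmem q hq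
    refine ⟨h1, h2, ?_, h5⟩
    rw [pow_succ] at h3
    omega
  · rw [hQcard]; exact hDcard
  · have hsub : Q ⊆ Ico (2 ^ j) (2 ^ (j + 1)) := fun q hq => by
      obtain ⟨h1, h2, h3, h4, h5⟩ := hQmem q hq
      exact mem_Ico.2 ⟨h2, h3⟩
    have := card_le_card hsub
    rw [Nat.card_Ico, pow_succ] at this
    omega
  · obtain ⟨q, hq⟩ := card_pos.1 hQpos
    obtain ⟨h1, h2, h3, h4, h5⟩ := hQmem q hq
    have h6 : Real.log ((2 ^ j : ℕ) : ℝ) ≤ (s : ℝ) ^ 3 := by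
      refine le_trans (Real.log_le_log ?_ ?_) hlogN3
      · exact_mod_cast (by positivity : 0 < 2 ^ j)
      · exact_mod_cast h2.trans h4
    have h7 : Real.log ((4 * 2 ^ j : ℕ) : ℝ) = Real.log 4 + Real.log ((2 ^ j : ℕ) : ℝ) := by
      rw [Nat.cast_mul, Real.log_mul (by norm_num) (by positivity)]
      norm_num
    rw [h7]
    have h8 : Real.log 4 ≤ 3 := by
      have := Real.log_le_sub_one_of_pos (show (0 : ℝ) < 4 by norm_num)
      linarith
    have h9 : (s : ℝ) ≤ (s : ℝ) ^ 3 := le_self_pow₀ (by linarith) (by norm_num)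
    linarith

end Pool.Agent.Helper2
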