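import Pool.Agent.Helper2.Vaughan

namespace Pool.Agent.Helper2

open Finset ArithmeticFunction
open scoped BigOperators

theorem posLog_div_antitone (Y : ℝ) (hY : 0 ≤ Y) (n : ℕ) (hn : 1 ≤ n) :
    Real.posLog (Y / ((n + 1 : ℕ) : ℝ)) ≤ Real.posLog (Y / (n : ℝ)) := by
  have hn' : (0 : ℝ) < n := by exact_mod_cast hn
  refine Real.posLog_le_posLog (by positivity) ?_
  refine div_le_div_of_nonneg_left hY hn' ?_
  push_cast; linarith

theorem posLog_nonneg' (x : ℝ) : 0 ≤ Real.posLog x := Real.posLog_nonneg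

theorem posLog_div_le (N : ℕ) (hN : 1 ≤ N) (a : ℕ) (ha : 1 ≤ a) :
    Real.posLog ((N : ℝ) / a) ≤ Real.log N := by
  have ha' : (1 : ℝ) ≤ a := by exact_mod_cast ha
  have h1 : Real.posLog ((N : ℝ) / a) ≤ Real.posLog (N : ℝ) := by
    refine Real.posLog_le_posLog (by positivity) ?_
    exact div_le_self (by positivity) ha'
  rwa [Real.log_of_nat_eq_posLog] at h1

theorem typeI (c : ℕ → ℂ) (F : ℝ) (hF : ∀ k, ‖∑ n ∈ Ioc 0 k, c n‖ ≤ F) (N : ℕ) (hN : 1 ≤ N)
    (a : ℕ) (ha : 1 ≤ a) :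
    ‖∑ b ∈ Ioc 0 N, c b * ((Real.posLog ((N : ℝ) / ((a * b : ℕ) : ℝ)) : ℝ) : ℂ)‖ ≤
      F * Real.log N := by
  have hF0 : 0 ≤ F := (norm_nonneg _).trans (hF 0)
  have e : ∀ b : ℕ, (N : ℝ) / ((a * b : ℕ) : ℝ) = ((N : ℝ) / a) / b := by
    intro b; push_cast; rw [div_div]
  simp only [e]
  refine (norm_sum_antitone_le c F hF (fun b => Real.posLog (((N : ℝ) / a) / b)) ?_ ?_ N).trans ?_
  · intro n hn
    exact posLog_div_antitone _ (by positivity) n hn
  · intro n _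
    exact posLog_nonneg' _
  · simp only [Nat.cast_one, div_one]
    exact mul_le_mul_of_nonneg_left (posLog_div_le N hN a ha) hF0

theorem typeIlog (c : ℕ → ℂ) (F : ℝ) (hF : ∀ k, ‖∑ n ∈ Ioc 0 k, c n‖ ≤ F) (N : ℕ) (hN : 1 ≤ N)
    (a : ℕ) (ha : 1 ≤ a) (haN : a ≤ N) :
    ‖∑ b ∈ Ioc 0 N, c b *
      ((Real.log b * Real.posLog ((N : ℝ) / ((a * b : ℕ) : ℝ)) : ℝ) : ℂ)‖ ≤
      2 * F * Real.log N ^ 2 := by
  have hF0 : 0 ≤ F := (norm_nonneg _).trans (hF 0)
  set Y : ℝ := (N : ℝ) / a with hY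
  have ha' : (0 : ℝ) < a := by exact_mod_cast ha
  have hY1 : 1 ≤ Y := by
    rw [hY, one_le_div ha']
    exact_mod_cast haN
  have hlogY : 0 ≤ Real.log Y := Real.log_nonneg hY1
  set h : ℕ → ℝ := fun b => Real.posLog (Y / b) with hh
  have hanti : ∀ n, 1 ≤ n → h (n + 1) ≤ h n := fun n hn =>
    posLog_div_antitone Y (by linarith) n hn
  have hnn : ∀ n, 0 ≤ h n := fun n => posLog_nonneg' _
  have h1le : h 1 ≤ Real.log N := by
    simp only [hh, Nat.cast_one, div_one]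
    exact posLog_div_le N hN a ha
  have hYle : Real.log Y ≤ Real.log N := by
    have : h 1 = Real.log Y := by
      simp only [hh, Nat.cast_one, div_one]
      exact Real.posLog_eq_log (by rw [abs_of_nonneg (by linarith)]; exact hY1)
    linarith
  have hlogN : 0 ≤ Real.log N := hlogY.trans hYle
  have key : ∀ b ∈ Ioc 0 N, c b *
      ((Real.log b * Real.posLog ((N : ℝ) / ((a * b : ℕ) : ℝ)) : ℝ) : ℂ) =
      c b * ((Real.log Y * h b : ℝ) : ℂ) - c b * ((h b ^ 2 : ℝ) : ℂ) := by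
    intro b hb
    have hb1 : 1 ≤ b := (mem_Ioc.1 hb).1
    have hb' : (0 : ℝ) < b := by exact_mod_cast hb1
    have e : (N : ℝ) / ((a * b : ℕ) : ℝ) = Y / b := by
      rw [hY]; push_cast; rw [div_div]
    rw [e, ← mul_sub, ← Complex.ofReal_sub]
    congr 2
    have : h b = Real.posLog (Y / b) := rfl
    rw [← this]
    rcases le_or_gt (b : ℝ) Y with hle | hlt
    · have h2 : h b = Real.log Y - Real.log b := by
        rw [this, Real.posLog_eq_log, Real.log_div (by linarith) hb'.ne']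
        rw [abs_of_nonneg (by positivity), one_le_div hb']
        exact hle
      have h3 : Real.log b = Real.log Y - h b := by rw [h2]; ring
      rw [h3]; ring
    · have h2 : h b = 0 := by
        rw [this, Real.posLog_eq_zero_iff, abs_of_nonneg (by positivity), div_le_one hb']
        exact hlt.le
      rw [h2]; ring
  rw [Finset.sum_congr rfl key, Finset.sum_sub_distrib]
  have b1 : ‖∑ b ∈ Ioc 0 N, c b * ((Real.log Y * h b : ℝ) : ℂ)‖ ≤ F * (Real.log Y * h 1) :=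
    norm_sum_antitone_le c F hF (fun b => Real.log Y * h b)
      (fun n hn => mul_le_mul_of_nonneg_left (hanti n hn) hlogY)
      (fun n _ => mul_nonneg hlogY (hnn n)) N
  have b2 : ‖∑ b ∈ Ioc 0 N, c b * ((h b ^ 2 : ℝ) : ℂ)‖ ≤ F * (h 1 ^ 2) :=
    norm_sum_antitone_le c F hF (fun b => h b ^ 2)
      (fun n hn => pow_le_pow_left₀ (hnn _) (hanti n hn) 2)
      (fun n _ => sq_nonneg _) N
  refine (norm_sub_le _ _).trans ?_
  have b3 : Real.log Y * h 1 ≤ Real.log N * Real.log N :=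
    mul_le_mul hYle h1le (hnn 1) hlogN
  have b4 : h 1 ^ 2 ≤ Real.log N ^ 2 := pow_le_pow_left₀ (hnn 1) h1le 2
  nlinarith [mul_le_mul_of_nonneg_left b3 hF0, mul_le_mul_of_nonneg_left b4 hF0]

end Pool.Agent.Helper2
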