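import Pool.Agent.Helper2.PatternStrong

namespace Pool.Agent.Helper2

open Finset

/-- two admissible sets can be placed side by side -/
theorem merge (A H : Finset ℕ) (hA : Admissible A) (hH : Admissible H) (N : ℕ) :
    ∃ t > N, Admissible (A ∪ H.image (t + ·)) := by
  classical
  set B : ℕ := #A + #H with hB
  have h1 : ∀ p : ℕ, ∃ a b : ℕ, p.Prime → a < p ∧ b < p ∧ (∀ x ∈ A, x % p ≠ a) ∧
      ∀ x ∈ H, x % p ≠ b := by
    intro p
    by_cases hp : p.Prime
    · obtain ⟨a, ha, ha2⟩ := hA p hp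
      obtain ⟨b, hb, hb2⟩ := hH p hp
      exact ⟨a, b, fun _ => ⟨ha, hb, ha2, hb2⟩⟩
    · exact ⟨0, 0, fun h => absurd h hp⟩
  choose a b hab using h1
  set T : Finset ℕ := (range (B + 1)).filter Nat.Prime with hT
  have hTp : ∀ p ∈ T, p.Prime := fun p hp => (mem_filter.1 hp).2
  have hne : ∀ i ∈ T, (fun p : ℕ => p) i ≠ 0 := fun p hp => (hTp p hp).ne_zero
  have hpw : Set.Pairwise (T : Set ℕ) (Function.onFun Nat.Coprime (fun p : ℕ => p)) := by
    intro p hp q hq hpq
    exact (Nat.coprime_primes (hTp p hp) (hTp q hq)).2 hpq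
  obtain ⟨k, hk⟩ := Nat.chineseRemainderOfFinset (fun p => a p + (p - b p)) (fun p => p) T hne hpw
  set P : ℕ := ∏ p ∈ T, p with hP
  have hPpos : 0 < P := Finset.prod_pos fun p hp => (hTp p hp).pos
  refine ⟨k + P * (N + 1), ?_, ?_⟩
  · have : N + 1 ≤ P * (N + 1) := Nat.le_mul_of_pos_left _ hPpos
    omega
  · intro p hp
    by_cases hpB : p ≤ B
    · obtain ⟨h1, h2, h3, h4⟩ := hab p hp
      refine ⟨a p, h1, ?_⟩
      intro x hx
      rw [mem_union] at hx
      rcases hx with hx | hx
      · exact h3 x hx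
      · obtain ⟨h, hh, rfl⟩ := mem_image.1 hx
        intro e
        have hpT : p ∈ T := mem_filter.2 ⟨mem_range.2 (by omega), hp⟩
        have hk' : k ≡ a p + (p - b p) [MOD p] := hk p hpT
        have hPd : P * (N + 1) ≡ 0 [MOD p] :=
          Nat.modEq_zero_iff_dvd.2 ((Finset.dvd_prod_of_mem _ hpT).mul_right _)
        have h5 : k + P * (N + 1) + h ≡ a p [MOD p] := by
          unfold Nat.ModEq
          rw [Nat.mod_eq_of_lt h1]
          exact e
        have h6 : k + P * (N + 1) + h ≡ a p + (p - b p) + 0 + h [MOD p] :=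
          ((hk'.add hPd).add_right h)
        have h7 : a p + (p - b p) + 0 + h ≡ a p [MOD p] := h6.symm.trans h5
        have h8 : a p + ((p - b p) + h) ≡ a p + 0 [MOD p] := by
          have e2 : a p + (p - b p) + 0 + h = a p + ((p - b p) + h) := by ring
          rw [← e2]
          simpa using h7
        have h9 := Nat.ModEq.add_left_cancel' _ h8
        exact not_dvd_of_missed h2 h (h4 h hh) (Nat.modEq_zero_iff_dvd.1 h9)
    · refine exists_missed_of_card_lt _ p ?_
      have h1 : #(A ∪ H.image (k + P * (N + 1) + ·)) ≤ #A + #H :=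
        (card_union_le _ _).trans (Nat.add_le_add_left card_image_le _)
      omega

/-- one step of the construction -/
theorem step_exists (H : Finset ℕ) (A : {A : Finset ℕ // Admissible A}) :
    ∃ A' : {A : Finset ℕ // Admissible A}, (A : Finset ℕ) ⊆ A' ∧
      (∀ x ∈ (A' : Finset ℕ), x ≤ (A : Finset ℕ).sup id → x ∈ (A : Finset ℕ)) ∧
      (Admissible H → ∃ t, (A : Finset ℕ).sup id < t ∧
        (A' : Finset ℕ) = (A : Finset ℕ) ∪ H.image (t + ·)) := by
  classical
  by_cases hH : Admissible H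
  · obtain ⟨t, ht, hadm⟩ := merge A H A.2 hH ((A : Finset ℕ).sup id)
    refine ⟨⟨_, hadm⟩, subset_union_left, ?_, fun _ => ⟨t, ht, rfl⟩⟩
    intro x hx hle
    simp only [mem_union, mem_image] at hx
    rcases hx with hx | ⟨h, _, rfl⟩
    · exact hx
    · omega
  · exact ⟨A, subset_rfl, fun x hx _ => hx, fun h => absurd h hH⟩

theorem admissible_empty : Admissible ∅ := by
  intro p hp
  exact ⟨0, hp.pos, by simp⟩

theorem admissible_singleton (h : ℕ) : Admissible {h} := by
  intro p hp
  refine ⟨(h + 1) % p, Nat.mod_lt _ hp.pos, ?_⟩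
  intro x hx e
  rw [mem_singleton] at hx
  rw [hx] at e
  have h2 : h + 0 ≡ h + 1 [MOD p] := by simpa [Nat.ModEq] using e
  have h3 : 0 ≡ 1 [MOD p] := Nat.ModEq.add_left_cancel' h h2
  have := (Nat.modEq_iff_dvd' (by omega)).1 h3
  exact hp.one_lt.ne' (Nat.dvd_one.1 (by simpa using this))

/-- existence of a universal admissible set -/
theorem exists_universal : ∃ A : Set ℕ,
    (∀ F : Finset ℕ, (F : Set ℕ) ⊆ A → Admissible F) ∧
    ∀ H : Finset ℕ, Admissible H → ∃ t : ℕ, ∀ m : ℕ, (∃ h ∈ H, m ≤ h) → (t + m ∈ A ↔ m ∈ H) := by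
  classical
  obtain ⟨e, he⟩ := exists_surjective_nat (Finset ℕ)
  choose f hf1 hf2 hf3 using step_exists
  set a : ℕ → {A : Finset ℕ // Admissible A} := fun n =>
    Nat.rec ⟨∅, admissible_empty⟩ (fun n A => f (e n) A) n with ha
  have hsucc : ∀ n, a (n + 1) = f (e n) (a n) := fun n => rfl
  have hmono : ∀ n, (a n : Finset ℕ) ⊆ a (n + 1) := fun n => hf1 (e n) (a n)
  have hmono' : ∀ m n, m ≤ n → (a m : Finset ℕ) ⊆ a n := by
    intro m n hmn
    induction n, hmn using Nat.le_induction with
    | base => exact subset_rfl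
    | succ n _ ih => exact ih.trans (hmono n)
  have hinit : ∀ m n, m ≤ n → ∀ x ∈ (a n : Finset ℕ), x ≤ (a m : Finset ℕ).sup id →
      x ∈ (a m : Finset ℕ) := by
    intro m n hmn
    induction n, hmn using Nat.le_induction with
    | base => exact fun x hx _ => hx
    | succ n hmn ih =>
      intro x hx hle
      refine ih x ?_ hle
      refine hf2 (e n) (a n) x hx (hle.trans ?_)
      exact Finset.sup_mono (hmono' m n hmn)
  have hinit' : ∀ m n, ∀ x ∈ (a n : Finset ℕ), x ≤ (a m : Finset ℕ).sup id →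
      x ∈ (a m : Finset ℕ) := by
    intro m n x hx hle
    rcases le_total m n with h | h
    · exact hinit m n h x hx hle
    · exact hmono' n m h hx
  refine ⟨{x | ∃ n, x ∈ (a n : Finset ℕ)}, ?_, ?_⟩
  · intro F hF
    have : ∃ n, F ⊆ (a n : Finset ℕ) := by
      induction F using Finset.induction_on with
      | empty => exact ⟨0, empty_subset _⟩
      | insert x s hx ih =>
        obtain ⟨n1, hn1⟩ := ih (fun y hy => hF (mem_coe.2 (mem_insert_of_mem hy)))
        obtain ⟨n2, hn2⟩ := hF (mem_coe.2 (mem_insert_self x s))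
        refine ⟨max n1 n2, ?_⟩
        intro y hy
        rcases mem_insert.1 hy with rfl | hy
        · exact hmono' n2 _ (le_max_right _ _) hn2
        · exact hmono' n1 _ (le_max_left _ _) (hn1 hy)
    obtain ⟨n, hn⟩ := this
    exact (a n).2.mono hn
  · intro H hH
    obtain ⟨n, rfl⟩ := he H
    obtain ⟨t, ht, heq⟩ := hf3 (e n) (a n) hH
    refine ⟨t, fun m hm => ?_⟩
    obtain ⟨h, hh, hmh⟩ := hm
    constructor
    · rintro ⟨k, hk⟩
      have hth : t + h ∈ (a (n + 1) : Finset ℕ) := by
        rw [hsucc, heq, mem_union]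
        exact Or.inr (mem_image.2 ⟨h, hh, rfl⟩)
      have h1 : t + m ≤ (a (n + 1) : Finset ℕ).sup id :=
        le_trans (show t + m ≤ t + h by omega) (Finset.le_sup (f := id) hth)
      have h2 := hinit' (n + 1) k _ hk h1
      rw [hsucc, heq, mem_union] at h2
      rcases h2 with h2 | h2
      · have : t + m ≤ (a n : Finset ℕ).sup id := Finset.le_sup (f := id) h2
        omega
      · obtain ⟨h', hh', e'⟩ := mem_image.1 h2
        have : h' = m := by omega
        exact this ▸ hh'
    · intro hm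
      refine ⟨n + 1, ?_⟩
      rw [hsucc, heq, mem_union]
      exact Or.inr (mem_image.2 ⟨m, hm, rfl⟩)

end Pool.Agent.Helper2
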