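import Pool.Agent.Helper2.BilinearSum
import Pool.Agent.Helper2.DivisorSum

namespace Pool.Agent.Helper2

open Finset ArithmeticFunction
open scoped BigOperators

/-- truncation to `n ≤ U` -/
noncomputable def lo (f : ArithmeticFunction ℝ) (U : ℕ) : ArithmeticFunction ℝ :=
  ⟨fun n => if n ≤ U then f n else 0, by simp⟩

/-- truncation to `n > U` -/
noncomputable def hi (f : ArithmeticFunction ℝ) (U : ℕ) : ArithmeticFunction ℝ :=
  ⟨fun n => if n ≤ U then 0 else f n, by simp⟩

/-- the real Moebius function -/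
noncomputable def mob : ArithmeticFunction ℝ := ((moebius : ArithmeticFunction ℤ) :)

/-- the real zeta function -/
noncomputable def zet : ArithmeticFunction ℝ := ((zeta : ArithmeticFunction ℕ) :)

theorem mob_mul_zet : mob * zet = 1 := coe_moebius_mul_coe_zeta

theorem vonMangoldt_mul_zet : vonMangoldt * zet = log := vonMangoldt_mul_zeta

theorem zet_apply {n : ℕ} (hn : 0 < n) : zet n = 1 := by
  simp [zet, hn.ne']

theorem abs_mob_le (n : ℕ) : |mob n| ≤ 1 := by
  have : |moebius n| ≤ 1 := abs_moebius_le_one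
  have h : mob n = ((moebius n : ℤ) : ℝ) := rfl
  rw [h, ← Int.cast_abs]
  exact_mod_cast this

theorem lo_apply (f : ArithmeticFunction ℝ) (U n : ℕ) : lo f U n = if n ≤ U then f n else 0 := rfl
theorem hi_apply (f : ArithmeticFunction ℝ) (U n : ℕ) : hi f U n = if n ≤ U then 0 else f n := rfl

theorem lo_add_hi (f : ArithmeticFunction ℝ) (U : ℕ) : lo f U + hi f U = f := by
  ext n
  rw [ArithmeticFunction.add_apply, lo_apply, hi_apply]
  split_ifs <;> simp

theorem ring_identity {R : Type*} [CommRing R] (a b m n z : R) (h : (m + n) * z = 1) :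
    a + b = a + m * ((a + b) * z) - (a * m) * z + b * (n * z) := by
  linear_combination (-b) * h

theorem vaughan (U : ℕ) :
    vonMangoldt = lo vonMangoldt U + lo mob U * log
      - (lo vonMangoldt U * lo mob U) * zet + hi vonMangoldt U * (hi mob U * zet) := by
  have h1 := lo_add_hi vonMangoldt U
  have h2 := lo_add_hi mob U
  have h3 := ring_identity (lo vonMangoldt U) (hi vonMangoldt U) (lo mob U) (hi mob U) zet
    (by rw [h2, mob_mul_zet])
  rw [h1, vonMangoldt_mul_zet] at h3
  exact h3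

/-- weighted convolution sums -/
theorem sum_conv (f g : ArithmeticFunction ℝ) (N : ℕ) (G : ℕ → ℂ) (hG : ∀ n, N < n → G n = 0) :
    ∑ n ∈ Ioc 0 N, (((f * g) n : ℝ) : ℂ) * G n =
      ∑ a ∈ Ioc 0 N, ∑ b ∈ Ioc 0 N, (f a : ℂ) * (g b : ℂ) * G (a * b) := by
  have h1 : ∀ n ∈ Ioc 0 N, (((f * g) n : ℝ) : ℂ) * G n =
      ∑ x ∈ Ioc 0 N ×ˢ Ioc 0 N with x.1 * x.2 = n, (f x.1 : ℂ) * (g x.2 : ℂ) * G (x.1 * x.2) := by
    intro n hn
    simp only [mem_Ioc] at hn
    rw [ArithmeticFunction.mul_apply, Nat.divisorsAntidiagonal_eq_prod_filter_of_le hn.1.ne' hn.2]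
    push_cast
    rw [Finset.sum_mul]
    refine Finset.sum_congr rfl fun x hx => ?_
    rw [(mem_filter.1 hx).2]
  rw [Finset.sum_congr rfl h1]
  simp_rw [Finset.sum_filter]
  rw [Finset.sum_comm, Finset.sum_product]
  refine Finset.sum_congr rfl fun a ha => Finset.sum_congr rfl fun b hb => ?_
  rw [Finset.sum_ite_eq]
  split_ifs with h
  · rfl
  · rw [hG, mul_zero]
    rw [mem_Ioc] at h ha hb
    simp only [not_and, not_le] at h
    exact h (Nat.mul_pos ha.1 hb.1)

end Pool.Agent.Helper2
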